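import Pool.Agent.Work.MP_0f91f8_co.EF.StmtsB

/-!
# MP_0f91f8_co, module E, item Big: reduction to boundedly many classes
-/

set_option autoImplicit false

open Filter Topology MeasureTheory

noncomputable section

namespace Pool.Agent.Work.MP_0f91f8_co.EF

open Pool.Agent.Work.MP_0f91f8_co.COL

namespace XBig

/-- The family indexed by `Fin r₀` which lists the members of `A` in `I`. -/
def lst {r : ℕ} (I : Finset (Fin r)) (A : Fin r → Finset ℕ) (r₀ : ℕ) (j : Fin r₀) : Finset ℕ :=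
  if h : (j : ℕ) < I.card then A (I.equivFin.symm ⟨j, h⟩) else ∅

lemma lst_cases {r : ℕ} (I : Finset (Fin r)) (A : Fin r → Finset ℕ) (r₀ : ℕ) (j : Fin r₀) :
    lst I A r₀ j = ∅ ∨ ∃ h : (j : ℕ) < I.card,
      lst I A r₀ j = A (I.equivFin.symm ⟨j, h⟩) := by
  unfold lst
  by_cases h : (j : ℕ) < I.card
  · exact Or.inr ⟨h, dif_pos h⟩
  · exact Or.inl (dif_neg h)

lemma lst_sum {r : ℕ} (I : Finset (Fin r)) (A : Fin r → Finset ℕ) (r₀ : ℕ) (h : I.card ≤ r₀)
    (f : Finset ℕ → ℝ) (hf : f ∅ = 0) : ∑ j, f (lst I A r₀ j) = ∑ i ∈ I, f (A i) := by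
  obtain ⟨m, rfl⟩ := Nat.exists_eq_add_of_le h
  rw [Fin.sum_univ_add]
  have h1 : ∀ j : Fin I.card, f (lst I A (I.card + m) (Fin.castAdd m j)) =
      f (A (I.equivFin.symm j)) := by
    intro j
    unfold lst
    rw [dif_pos (show ((Fin.castAdd m j : Fin (I.card + m)) : ℕ) < I.card from j.2)]
    rfl
  have h2 : ∀ j : Fin m, f (lst I A (I.card + m) (Fin.natAdd I.card j)) = 0 := by
    intro j
    unfold lst
    rw [dif_neg (show ¬ ((Fin.natAdd I.card j : Fin (I.card + m)) : ℕ) < I.card by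
      rw [Fin.val_natAdd]; omega), hf]
  rw [Finset.sum_congr rfl fun j _ => h1 j, Finset.sum_congr rfl fun j _ => h2 j,
    Finset.sum_const_zero, add_zero]
  rw [← Finset.sum_coe_sort I fun i => f (A i)]
  exact Equiv.sum_comp I.equivFin.symm fun i : I => f (A i)

end XBig

open XBig

theorem Big_pf : S_Big := by
  intro H ε hε
  obtain ⟨R₀, hR₀⟩ := H (ε / 2) ⌈2 / ε⌉₊ (by positivity)
  refine ⟨max R₀ 1, fun R hR r A hA hd hyp => ?_⟩
  have hR1 : 1 ≤ R := le_trans (le_max_right _ _) hR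
  have hRR : R₀ ≤ R := le_trans (le_max_left _ _) hR
  set F : Finset ℕ := Pool.Agent.F0f91f8.HD.Box R with hF
  have hne : F.Nonempty := by
    have : Nonempty (Fin (R + 1) → Fin R) := ⟨fun _ => ⟨0, hR1⟩⟩
    rw [hF]
    unfold Pool.Agent.F0f91f8.HD.Box
    exact Finset.Nonempty.image Finset.univ_nonempty _
  have hFpos : (0 : ℝ) < (F.card : ℝ) := by exact_mod_cast Finset.card_pos.2 hne
  -- total size
  have htot : ∑ i, ((A i).card : ℝ) ≤ (F.card : ℝ) := by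
    have h1 : (Finset.univ.biUnion A).card = ∑ i, (A i).card :=
      Finset.card_biUnion fun i _ j _ hij => hd i j hij
    have h2 : (Finset.univ.biUnion A).card ≤ F.card :=
      Finset.card_le_card (Finset.biUnion_subset.2 fun i _ => hA i)
    rw [h1] at h2
    exact_mod_cast h2
  let I : Finset (Fin r) := Finset.univ.filter fun i => ε / 2 * (F.card : ℝ) ≤ ((A i).card : ℝ)
  have hIc : I.card ≤ ⌈2 / ε⌉₊ := by
    have h1 : (I.card : ℝ) * (ε / 2 * (F.card : ℝ)) ≤ ∑ i ∈ I, ((A i).card : ℝ) := by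
      rw [← nsmul_eq_mul]
      exact Finset.card_nsmul_le_sum _ _ _ fun i hi => (Finset.mem_filter.1 hi).2
    have h2 : ∑ i ∈ I, ((A i).card : ℝ) ≤ ∑ i, ((A i).card : ℝ) :=
      Finset.sum_le_sum_of_subset_of_nonneg (Finset.subset_univ _) fun i _ _ => Nat.cast_nonneg _
    have h3 : (I.card : ℝ) * (ε / 2) ≤ 1 := by
      have h4 : (I.card : ℝ) * (ε / 2) * (F.card : ℝ) ≤ 1 * (F.card : ℝ) := by
        calc (I.card : ℝ) * (ε / 2) * (F.card : ℝ) = (I.card : ℝ) * (ε / 2 * (F.card : ℝ)) := by ring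
          _ ≤ (F.card : ℝ) := le_trans h1 (le_trans h2 htot)
          _ = 1 * (F.card : ℝ) := by ring
      exact le_of_mul_le_mul_right h4 hFpos
    have h5 : (I.card : ℝ) ≤ 2 / ε := by
      rw [le_div_iff₀ hε]
      linarith
    exact_mod_cast le_trans h5 (Nat.le_ceil _)
  -- the squares
  have hsq : ∑ i, ((A i).card : ℝ) ^ 2 ≤
      ∑ i ∈ I, ((A i).card : ℝ) ^ 2 + ε / 2 * (F.card : ℝ) ^ 2 := by
    have h0 := Finset.sum_filter_add_sum_filter_not (Finset.univ : Finset (Fin r))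
      (fun i => ε / 2 * (F.card : ℝ) ≤ ((A i).card : ℝ)) fun i => ((A i).card : ℝ) ^ 2
    have h1 : ∑ i ∈ Finset.univ.filter (fun i => ¬ ε / 2 * (F.card : ℝ) ≤ ((A i).card : ℝ)),
        ((A i).card : ℝ) ^ 2 ≤
        ∑ i ∈ Finset.univ.filter (fun i => ¬ ε / 2 * (F.card : ℝ) ≤ ((A i).card : ℝ)),
        ε / 2 * (F.card : ℝ) * ((A i).card : ℝ) := by
      refine Finset.sum_le_sum fun i hi => ?_
      have h2 := not_le.1 (Finset.mem_filter.1 hi).2
      rw [sq]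
      exact mul_le_mul_of_nonneg_right h2.le (Nat.cast_nonneg _)
    have h3 : ∑ i ∈ Finset.univ.filter (fun i => ¬ ε / 2 * (F.card : ℝ) ≤ ((A i).card : ℝ)),
        ε / 2 * (F.card : ℝ) * ((A i).card : ℝ) ≤ ∑ i, ε / 2 * (F.card : ℝ) * ((A i).card : ℝ) :=
      Finset.sum_le_sum_of_subset_of_nonneg (Finset.subset_univ _) fun i _ _ => by positivity
    have h6 : ∑ i, ε / 2 * (F.card : ℝ) * ((A i).card : ℝ) =
        ε / 2 * (F.card : ℝ) * ∑ i, ((A i).card : ℝ) := (Finset.mul_sum _ _ _).symm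
    have h4 : ε / 2 * (F.card : ℝ) * ∑ i, ((A i).card : ℝ) ≤
        ε / 2 * (F.card : ℝ) * (F.card : ℝ) :=
      mul_le_mul_of_nonneg_left htot (by positivity)
    have h5 : ε / 2 * (F.card : ℝ) * (F.card : ℝ) = ε / 2 * (F.card : ℝ) ^ 2 := by ring
    change ∑ i, ((A i).card : ℝ) ^ 2 ≤ ∑ i ∈ Finset.univ.filter
      (fun i => ε / 2 * (F.card : ℝ) ≤ ((A i).card : ℝ)), ((A i).card : ℝ) ^ 2 + _
    linarith
  have hs2 := lst_sum I A ⌈2 / ε⌉₊ hIc (fun S => (S.card : ℝ) ^ 2) (by simp)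
  have hs1 := lst_sum I A ⌈2 / ε⌉₊ hIc (fun S => (S.card : ℝ) * (F.card : ℝ)) (by simp)
  have hle : ∑ i ∈ I, ((A i).card : ℝ) * (F.card : ℝ) ≤ ∑ i, ((A i).card : ℝ) * (F.card : ℝ) :=
    Finset.sum_le_sum_of_subset_of_nonneg (Finset.subset_univ _) fun i _ _ => by positivity
  have hsub : ∀ j, lst I A ⌈2 / ε⌉₊ j ⊆ F := by
    intro j
    rcases lst_cases I A _ j with h | ⟨h, e⟩
    · rw [h]; exact Finset.empty_subset _
    · rw [e]; exact hA _
  have hdis : ∀ i j, i ≠ j → Disjoint (lst I A ⌈2 / ε⌉₊ i) (lst I A ⌈2 / ε⌉₊ j) := by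
    intro i j hij
    rcases lst_cases I A _ i with h | ⟨h, e⟩
    · rw [h]; exact Finset.disjoint_empty_left _
    rcases lst_cases I A _ j with h' | ⟨h', e'⟩
    · rw [h']; exact Finset.disjoint_empty_right _
    rw [e, e']
    refine hd _ _ fun hh => hij ?_
    have h1 := I.equivFin.symm.injective (Subtype.ext hh)
    exact Fin.ext (Fin.mk.inj_iff.1 h1)
  have hmain := hR₀ R hRR (lst I A ⌈2 / ε⌉₊) hsub hdis ?_
  · obtain ⟨j, x, hx, y, hy, z, hz, hxyz⟩ := hmain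
    rcases lst_cases I A _ j with h | ⟨h, e⟩
    · rw [h] at hx
      exact absurd hx (Finset.notMem_empty _)
    · rw [e] at hx hy hz
      exact ⟨_, x, hx, y, hy, z, hz, hxyz⟩
  · rcases hyp with h | h
    · left
      rw [hs2]
      have : (1 / 3 + ε / 2) * (F.card : ℝ) ^ 2 + ε / 2 * (F.card : ℝ) ^ 2 =
        (1 / 3 + ε) * (F.card : ℝ) ^ 2 := by ring
      linarith
    · right
      rw [hs2, hs1]
      have : ε / 2 * (F.card : ℝ) ^ 2 + ε / 2 * (F.card : ℝ) ^ 2 = ε * (F.card : ℝ) ^ 2 := by ring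
      linarith

end Pool.Agent.Work.MP_0f91f8_co.EF
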