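import Pool.Agent.Work.MP_0f91f8_co.EF.Defs

/-!
# MP_0f91f8_co, collision theorem, parts (D), (E): the statements, with proofs

Every part is a proposition `S_X`; a file `EF/X.lean` proves `theorem X_pf : S_X` (or
`X_pf (h : S_Y) : S_X` where the docstring says that `S_Y` is used).
-/

set_option autoImplicit false

open Filter Topology MeasureTheory

noncomputable section

namespace Pool.Agent.Work.MP_0f91f8_co.EF

open Pool.Agent.Work.MP_0f91f8_co.COL

/-- **Ev.** Evaluation. `factorization_mul`, `Finsupp.prod_add_index'`; the norm of an element of the circle is one; a finite product of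
powers of coordinates is continuous; `ev g p = g p` for a prime `p`. Last clause: `a ≠ b` positive, so `v_p(a) ≠ v_p(b)` for some
prime `p` (`Nat.eq_of_factorization_eq`); let `g` be `1` outside `p` and `g p = z` with `z` not a root of unity (or any `z` with
`z ^ v_p(a) ≠ z ^ v_p(b)`, e.g. `Circle.exp 1`, or `Circle.exp (π / (v_p(a) + v_p(b)))`), then `ev g a = z ^ v_p(a)`. -/
def S_Ev : Prop := (∀ g, IsCM (ev g)) ∧ (∀ n, Continuous fun g : GG => ev g n) ∧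
  (∀ n, 0 < n → ev 1 n = 1) ∧ (∀ g : GG, g ≠ 1 → ∃ p, p.Prime ∧ ev g p ≠ 1) ∧
  (∀ g h n, ev (g * h) n = ev g n * ev h n) ∧
  ∀ a b, 0 < a → 0 < b → a ≠ b → ∃ g, ev g a * (starRingEnd ℂ) (ev g b) ≠ 1

/-- **Haar.** `ν = Measure.haarMeasure ⊤` (mass one by `haarMeasure_self`). For `a = b` the integrand is `|ev g a|² = 1`. For `a ≠ b` take
`g₀` from the last clause of `S_Ev`, `φ g = ev g a * conj (ev g b)`; `φ (g₀ g) = φ g₀ φ g`, so `∫ φ = φ g₀ ∫ φ`
(`integral_mul_left_eq_self`) and `∫ φ = 0`. USES: S_Ev. -/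
def S_Haar : Prop := ∃ ν : Measure GG, IsProbabilityMeasure ν ∧ ∀ a b : ℕ, 0 < a → 0 < b →
  ∫ g, ev g a * (starRingEnd ℂ) (ev g b) ∂ν = if a = b then 1 else 0

/-- **Fol.** `F j` = divisors of `∏_{p ≤ j} p^j` (`primorial j ^ j`; for `j = 0` this is `{1}`). For a prime `p ≤ j` write `∏ = p^j R`, `p ∤ R`; the `k` with
`p k ∣ p^j R` are the divisors of `p^(j-1) R`, their number is `j d(R)`, while the number of divisors of `p^j R` is `(j+1) d(R)`
(`Nat.Coprime.card_divisors_mul`, `Nat.divisors_prime_pow`). So `lim` holds for primes. If it holds for `n` and `n'` then for `n n'`: the number of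
`k ∈ F` with `n n' k ∉ F` is at most the number of `k ∈ F` with `n k ∉ F` plus the number of `k` with `n k = l ∈ F`, `n' l ∉ F`, and `k ↦ n k` is injective.
It holds for `1`. `Nat.recOnMul` / induction on prime factors. -/
def S_Fol : Prop := ∃ F : ℕ → Finset ℕ, IsFo F

/-- **Cnt.** At most `card F` pairs (`k` determines `l`). At least: the pairs `(a k, b k)` with `k ∈ F`, `a k ∈ F`, `b k ∈ F`; their number is at least
`card F - (card F - card {k ∈ F : a k ∈ F}) - (card F - card {k ∈ F : b k ∈ F})`; divide by `card F` and squeeze. -/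
def S_Cnt : Prop := ∀ F : ℕ → Finset ℕ, IsFo F → ∀ a b : ℕ, 0 < a → 0 < b →
  Tendsto (fun j => ct (F j) a b) atTop (𝓝 1)

/-- **Rat.** The pair returns depend only on the ratio: `rr (k a) (k b) = rr a b` for `k > 0` by `dil` (the set `{n | k n ∈ {n | a n ∈ A ∧ b n ∈ A}}`);
apply it with `a b', b b'` and `a' b, b' b`, using `a b' = a' b`. `rr a a = m {n | a n ∈ A} = m A`. Monotonicity of `m` (from `nonneg` and `union`) gives
`rr ≤ m A ≤ 1`. -/
def S_Rat : Prop := ∀ m : Set ℕ → ℝ, IsInvMean m → ∀ A : Set ℕ,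
  (∀ a b, rr m A a b = rr m A b a) ∧
  (∀ a b a' b', 0 < a → 0 < b → 0 < a' → 0 < b' → a * b' = a' * b → rr m A a b = rr m A a' b') ∧
  (∀ a, 0 < a → rr m A a a = m A) ∧ (∀ a b, 0 ≤ rr m A a b) ∧ (0 ≤ m A ∧ m A ≤ 1) ∧
  ∀ a b, 0 < a → rr m A a b ≤ m A

/-- **Psd.** Let `T S = {n | ∀ a ∈ F, a n ∈ A ↔ a ∈ S}` for `S ⊆ F`: a partition of the integers. `rr a b = ∑_{S ∋ a, b} m (T S)` for `a, b ∈ F` (finite additivity),
so the form is `∑_S m (T S) |∑_{a ∈ S} c a|²`. Second part: with `c = 1` the sum is `∑_S m (T S) |S|² ≥ (∑_S m (T S) |S|)²` by Cauchy-Schwarz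
(`∑_S m (T S) = 1`), and `∑_S m (T S) |S| = ∑_{a ∈ F} m {n | a n ∈ A} = card F m A`. -/
def S_Psd : Prop := ∀ m : Set ℕ → ℝ, IsInvMean m → ∀ (A : Set ℕ) (F : Finset ℕ),
  (∀ c : ℕ → ℂ, ∃ s : ℝ, 0 ≤ s ∧
    ∑ a ∈ F, ∑ b ∈ F, c a * (starRingEnd ℂ) (c b) * ((rr m A a b : ℝ) : ℂ) = (s : ℂ)) ∧
  ((∀ a ∈ F, 0 < a) → m A ^ 2 * (F.card : ℝ) ^ 2 ≤ ∑ a ∈ F, ∑ b ∈ F, rr m A a b)

/-- **Den.** `Φ g = (1/card F) ∑_{k, l ∈ F} conj (ev g k) ev g l rr k l`, which is real and `≥ 0` by `S_Psd` (`c k = conj (ev g k)`), continuous in `g`, bounded. `μ` =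
`ν.withDensity (ENNReal.ofReal (Φ g))`. `∫ ev g a conj (ev g b) dμ = (1/card F) ∑_{k, l} rr k l ∫ ev g (a l) conj (ev g (b k)) dν = (1/card F)
∑_{k, l : a l = b k} rr k l`, and `a l = b k` gives `rr k l = rr a b` (`S_Rat`). The mass is the case `a = b = 1`: `μ.real univ = m A ≤ 1`.
USES: S_Ev, S_Haar, S_Rat, S_Psd. -/
def S_Den : Prop := ∀ m : Set ℕ → ℝ, IsInvMean m → ∀ (A : Set ℕ) (F : Finset ℕ), F.Nonempty → (∀ a ∈ F, 0 < a) →
  ∃ μ : Measure GG, μ Set.univ ≤ 1 ∧ ∀ a b : ℕ, 0 < a → 0 < b →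
    ∫ g, ev g a * (starRingEnd ℂ) (ev g b) ∂μ = ((rr m A a b * ct F a b : ℝ) : ℂ)

/-- **Lim.** `F` from `S_Fol`, `μ j` from `S_Den` for `F j`, as finite measures of mass `≤ 1`; this set is compact
(`isCompact_setOfPred_finiteMeasure_le_of_compactSpace`), so `μ j` converges along an ultrafilter `≤ atTop` (`hyperfilter ℕ`; `Ultrafilter.map`,
`IsCompact.ultrafilter_le_nhds`) to a finite measure `μ`. `FiniteMeasure.tendsto_iff_forall_integral_tendsto` for the real and the imaginary part of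
`ev g a conj (ev g b)` and `S_Cnt` give the equation. USES: S_Ev, S_Fol, S_Cnt, S_Den. -/
def S_Lim : Prop := ∀ m : Set ℕ → ℝ, IsInvMean m → ∀ A : Set ℕ, ∃ μ : Measure GG, IsSpec m A μ

/-- **Chr.** `S_j g = ∑_{a ∈ F j} ev g a`. `g = 1`: the value is `1`. `g ≠ 1`: `z = ev g p ≠ 1`, `z S_j = ∑_{a ∈ F j} ev g (p a)`; the sums over `a ∈ F j` of `ev g (p a)` and `ev g a`
differ by at most `2 (card F - card {a ∈ F : p a ∈ F})` (the terms with `p a ∈ F` are the terms `b ∈ F` divisible by `p` with `b/p ∈ F`), so `|1 - z| |S_j|/card F → 0`.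
USES: S_Ev. -/
def S_Chr : Prop := ∀ F : ℕ → Finset ℕ, IsFo F → ∀ g : GG,
  Tendsto (fun j => ‖∑ a ∈ F j, ev g a‖ ^ 2 / ((F j).card : ℝ) ^ 2) atTop
    (𝓝 (Set.indicator {1} (fun _ => (1 : ℝ)) g))

/-- **Atom.** `∫ ‖∑_{a ∈ F j} ev g a‖²/card² dμ = (1/card²) ∑_{a, b ∈ F j} rr a b ≥ (m A)²` (`IsSpec.eq`, `S_Psd`). By `S_Chr` and dominated convergence
(bounded by `1`) the left side tends to `μ.real {1}`. USES: S_Ev, S_Fol, S_Chr, S_Psd. -/
def S_Atom : Prop := ∀ m : Set ℕ → ℝ, IsInvMean m → ∀ (A : Set ℕ) (μ : Measure GG), IsSpec m A μ →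
  m A ^ 2 ≤ μ.real {1}

/-- **Fat, nested reverse Fatou.** `h K B N x = ENNReal.ofReal (-F K B N x) ≤ C`. For one parameter: `limsup ∫ h_n ≤ ∫ limsup h_n` (`limsup_lintegral_le`), so for every
`δ > 0` there is `n` with `∫ h_n ≤ ∫ limsup h_n + δ`. Put `h₂ K B = limsup_N h K B N`, `h₁ K = limsup_B h₂ K B`, `h₀ = limsup_K h₁ K` (`Measurable.limsup`); the
hypothesis says `h₀ = 0` (`h₀ x ≤ ENNReal.ofReal ε` for all `ε > 0`). Choose `K`, then `B`, then `N` with `∫ h ≤ 3 δ = ε`; `∫ F ≥ -∫ max (-F) 0 ≥ -ε`. -/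
def S_Fat : Prop := ∀ (μ : Measure GG) [IsFiniteMeasure μ] (F : ℕ → ℕ → ℕ → GG → ℝ) (C : ℝ),
  (∀ K B N, Measurable (F K B N)) → (∀ K B N g, |F K B N g| ≤ C) →
  (∀ g, ∀ ε : ℝ, 0 < ε → ∀ᶠ K in atTop, ∀ᶠ B in atTop, ∀ᶠ N in atTop, -ε ≤ F K B N g) →
  ∀ ε : ℝ, 0 < ε → ∃ K B N, -ε ≤ ∫ g, F K B N g ∂μ

/-- **Bxm.** The mean over a family of boxes. For `N ≥ 1` the pairs `m = D u + a`, `n = D v + b` satisfy `0 < n < m` (`u ≥ 4 N > 2 N > v ≥ 1`, `a, b < D`). With `x = m² - n²`, `y = 2mn`,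
`z = m² + n²`: the real part of `fm S N (cor (ev g))` is continuous in `g`, of absolute value `≤ 3`, equal to `3` at `g = 1`; its integral is the mean over the
boxes and the pairs `(u, v)` of `Re ∫ cor (ev g) m n dμ = TT m A x y z`; a mean is at most its largest term. USES: S_Ev. -/
def S_Bxm : Prop := ∀ (S : Bx) (N : ℕ), 1 ≤ N →
  (Continuous fun g : GG => (fm S N (cor (ev g))).re) ∧
  (∀ g : GG, |(fm S N (cor (ev g))).re| ≤ 3) ∧ (fm S N (cor (ev 1))).re = 3 ∧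
  ∀ (m : Set ℕ → ℝ) (r : ℕ) (A : Fin r → Set ℕ) (μ : Fin r → Measure GG), (∀ i, IsSpec m (A i) (μ i)) →
    ∃ x y z : ℕ, 0 < x ∧ 0 < y ∧ 0 < z ∧ x ^ 2 + y ^ 2 = z ^ 2 ∧
      ∑ i, ∫ g, (fm S N (cor (ev g))).re ∂(μ i) ≤ ∑ i, TT m (A i) x y z

/-- **Asm.** `St_D`. Given `m`, `A i`: `μ i` from `S_Lim`, `μ = ∑ i, μ i` (a finite measure), `F K B N g = (fm (S K B) (N + 1) (cor (ev g))).re - 3 [g = 1]`,
bounded by `6`, measurable. For `g = 1` it is `0`. For `g ≠ 1` and `ev g` not aperiodic use `St_C` (shift `N`), and for `ev g` aperiodic `St_B`: for fixed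
`K, B` the mean `fm` is a finite mean of `bm`'s that tend to `0`. `S_Fat` gives `K, B, N` with `∫ F ≥ -ε`, i.e. `∑ i, ∫ fm.re ∂(μ i) ≥ 3 ∑ i, (μ i).real {1} - ε ≥ 3 ∑ m (A i)² - ε`
(`S_Atom`), and `S_Bxm` gives the triple. USES: S_Ev, S_Lim, S_Atom, S_Fat, S_Bxm. -/
def S_Asm : Prop := St_D

/-- **Col.** Colourings. For a colouring without monochromatic triple and every triple `(x, y, z)` and `n ≥ 1`: of `c (x n), c (y n), c (z n)` at most one pair is equal, so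
the sets `{n | c (x n) = i = c (y n)}`, `{… x, z}`, `{… y, z}`, `i` in `Fin r`, are pairwise disjoint apart from the point `0` (mass `0`), and the sum of their means is at most `1`.
So `3 ∑ m(A_i)² - ε ≤ 1` for all `ε > 0`. USES: nothing (hypothesis `Final_Gen`). -/
def S_Col : Prop := Final_Gen → Final_Col

/-- **Set.** One set (`r = 1`). If `A` contains no triple then for every triple and `n ≥ 1` the number of pairs in `A` is at most half the number of elements in `A`: `2 (1_{xy} + 1_{xz} + 1_{yz}) ≤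
1_x + 1_y + 1_z` (where `1_{xy}` is the indicator of `x n, y n ∈ A`), except at `n = 0`. With means: `2 TT ≤ 3 m A`, so `2 (3 (m A)² - ε) ≤ 3 m A` for all `ε`, `6 (m A)² ≤ 3 m A`, `m A ≤ 1/2`. -/
def S_Set : Prop := Final_Gen → Final_Set

end Pool.Agent.Work.MP_0f91f8_co.EF
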