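import Pool.Agent.Work.MP_0f91f8_co.EF.DefsB
import Pool.Agent.Work.MP_0f91f8_co.EF.Stmts

/-!
# MP_0f91f8_co, collision theorem, module E: statements for pair functions

These statements replace the items Rat, Psd, Den, Lim, Atom, Bxm, Asm, Col, Set of `EF/Stmts.lean`; the items Ev, Haar, Fol, Cnt,
Chr, Fat of that file are used here. A file `EF/X.lean` proves `theorem X_pf : S_X` (or `X_pf (h : S_Y) : S_X` where the docstring
says USES).
-/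

set_option autoImplicit false

open Filter Topology MeasureTheory

noncomputable section

namespace Pool.Agent.Work.MP_0f91f8_co.EF

open Pool.Agent.Work.MP_0f91f8_co.COL

/-- **PrP.** A finitely additive process gives a pair function. `T S = {ω | ∀ a ∈ F, ω ∈ E a ↔ a ∈ S}`, `S ⊆ F`: a finite partition of `Ω`;
`μ (E a ∩ E b) = ∑_{S ∋ a, b} μ (T S)` for `a, b ∈ F` (finite additivity), so the form is `∑_S μ (T S) |∑_{a ∈ S} c a|²`. `var`: with `c = 1` the sum is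
`∑_S μ (T S) |S|² ≥ (∑_S μ (T S) |S|)²` by Cauchy-Schwarz (`∑_S μ (T S) = 1`), and `∑_S μ (T S) |S| = ∑_{a ∈ F} μ (E a) = d card F`. `d = μ (E 1) ≤ 1`. -/
def S_PrP : Prop := ∀ (Ω : Type) (μ : Set Ω → ℝ), IsFA μ → ∀ (E : ℕ → Set Ω) (d : ℝ),
  (∀ n, 0 < n → μ (E n) = d) →
  (∀ k a b, 0 < k → 0 < a → 0 < b → μ (E (k * a) ∩ E (k * b)) = μ (E a ∩ E b)) →
  IsPF (fun a b => μ (E a ∩ E b)) d

/-- **DeF.** `Φ g = (1/card F) ∑_{k, l ∈ F} conj (ev g k) ev g l φ k l`, real and `≥ 0` by `psd` (`c k = conj (ev g k)`), continuous in `g`, bounded. `μ` =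
`ν.withDensity (ENNReal.ofReal (Φ g))`. `∫ ev g a conj (ev g b) dμ = (1/card F) ∑_{k, l} φ k l ∫ ev g (a l) conj (ev g (b k)) dν = (1/card F)
∑_{k, l : a l = b k} φ k l`, and `a l = b k` gives `φ k l = φ (b k) (b l) = φ (a l) (b l) = φ a b` (`hom`). The mass is the case `a = b = 1`: `μ.real univ = φ 1 1 = d ≤ 1`
(`ct F 1 1 = 1`). USES: S_Ev, S_Haar. -/
def S_DeF : Prop := ∀ (φ : ℕ → ℕ → ℝ) (d : ℝ), IsPF φ d → ∀ F : Finset ℕ, F.Nonempty → (∀ a ∈ F, 0 < a) →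
  ∃ μ : Measure GG, μ Set.univ ≤ 1 ∧ ∀ a b : ℕ, 0 < a → 0 < b →
    ∫ g, ev g a * (starRingEnd ℂ) (ev g b) ∂μ = ((φ a b * ct F a b : ℝ) : ℂ)

/-- **LiF.** `F` from `S_Fol`, `μ j` from `S_DeF` for `F j`, as finite measures of mass `≤ 1`; this set is compact
(`isCompact_setOfPred_finiteMeasure_le_of_compactSpace`), so `μ j` converges along an ultrafilter `≤ atTop` (`hyperfilter ℕ`; `Ultrafilter.map`,
`IsCompact.ultrafilter_le_nhds`) to a finite measure `μ`. `FiniteMeasure.tendsto_iff_forall_integral_tendsto` for the real and the imaginary part of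
`ev g a conj (ev g b)` and `S_Cnt` give the equation. USES: S_Ev, S_Fol, S_Cnt, S_DeF. -/
def S_LiF : Prop := ∀ (φ : ℕ → ℕ → ℝ) (d : ℝ), IsPF φ d → ∃ μ : Measure GG, IsSp φ μ

/-- **AtF.** `∫ ‖∑_{a ∈ F j} ev g a‖²/card² dμ = (1/card²) ∑_{a, b ∈ F j} φ a b ≥ d²` (`IsSp.eq`, `var`). By `S_Chr` and dominated convergence
(bounded by `1`) the left side tends to `μ.real {1}`. USES: S_Ev, S_Fol, S_Chr. -/
def S_AtF : Prop := ∀ (φ : ℕ → ℕ → ℝ) (d : ℝ) (μ : Measure GG), IsPF φ d → IsSp φ μ → d ^ 2 ≤ μ.real {1}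

/-- **AvF.** The mean over helper75's family `HD.Av w K M` (`w, K, M ≥ 1`). It is a mean (the weights are positive and add up to one) of `Φ x y z` over triples `x = tX κ k a n`, …, with
`κ = w! k' > 0`, `k > 0`, `n = u + u' ≥ 2`, `a = Q (v + v') + a₀ ≥ 2`, so `x, y, z > 0` (`tXYZ`). The real part of `HD.Av w K M (HD.pc (ev g))` is continuous in `g`, of absolute value `≤ 3`,
equal to `3` at `g = 1`; `Re ∫ (f x conj f y + f y conj f z + f z conj f x) dμ = φ x y + φ y z + φ z x` for `f = ev g`; a mean is at most its largest term. It helps to prove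
first, for every `Ψ : ℕ → ℕ → ℕ → ℝ`, that some triple satisfies `(HD.Av w K M Ψ).re ≤ Ψ x y z`, and that `∫` commutes with `Av`. USES: S_Ev. -/
def S_AvF : Prop := ∀ w K M : ℕ, 1 ≤ w → 1 ≤ K → 1 ≤ M →
  (Continuous fun g : GG => (Pool.Agent.F0f91f8.HD.Av w K M (Pool.Agent.F0f91f8.HD.pc (ev g))).re) ∧
  (∀ g : GG, |(Pool.Agent.F0f91f8.HD.Av w K M (Pool.Agent.F0f91f8.HD.pc (ev g))).re| ≤ 3) ∧
  (Pool.Agent.F0f91f8.HD.Av w K M (Pool.Agent.F0f91f8.HD.pc (ev 1))).re = 3 ∧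
  ∀ (r : ℕ) (φ : Fin r → ℕ → ℕ → ℝ) (μ : Fin r → Measure GG),
    (∀ i a b, φ i a b = φ i b a) → (∀ i, IsSp (φ i) (μ i)) →
    ∃ x y z : ℕ, 0 < x ∧ 0 < y ∧ 0 < z ∧ x ^ 2 + y ^ 2 = z ^ 2 ∧
      ∑ i, ∫ g, (Pool.Agent.F0f91f8.HD.Av w K M (Pool.Agent.F0f91f8.HD.pc (ev g))).re ∂(μ i) ≤
        ∑ i, (φ i x y + φ i x z + φ i y z)

/-- The general inequality for pair functions. -/
def GenF : Prop := ∀ (r : ℕ) (φ : Fin r → ℕ → ℕ → ℝ) (d : Fin r → ℝ), (∀ i, IsPF (φ i) (d i)) →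
  ∀ ε : ℝ, 0 < ε → ∃ x y z : ℕ, 0 < x ∧ 0 < y ∧ 0 < z ∧ x ^ 2 + y ^ 2 = z ^ 2 ∧
    3 * ∑ i, d i ^ 2 - ε ≤ ∑ i, (φ i x y + φ i x z + φ i y z)

/-- **AsF.** `μ i` from `S_LiF`, `μ = ∑ i, μ i` (a finite measure), `F w K M g = (Av (w+1) (K+1) (M+1) (pc (ev g))).re - 3 [g = 1]` (`Set.indicator {1}`),
bounded by `6`, measurable. For `g = 1` it is `0`. For `g ≠ 1`: `ev g` satisfies `HD.CM` (`S_Ev`), so `HD.PWStmt` gives the nested lower bound (eventually in `w`, `K`, `M`; shift the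
indices by one). `S_Fat` gives `w, K, M` with `∫ F dμ ≥ -ε`, i.e. `∑ i, ∫ Av.re ∂(μ i) ≥ 3 ∑ i, (μ i).real {1} - ε ≥ 3 ∑ d i² - ε` (`S_AtF`), and `S_AvF` gives the triple.
USES: S_Ev, S_LiF, S_AtF, S_Fat, S_AvF, HD.PWStmt. -/
def S_AsF : Prop := GenF

/-- **Cou.** Counting. The `3 r` sets `X i ∩ Y i`, `X i ∩ Z i`, `Y i ∩ Z i` are pairwise disjoint (for `i ≠ j` because `X i ∩ X j = ∅` etc.: any two of the pairs
`{X,Y}, {X,Z}, {Y,Z}` have a common letter; for `i = j` because `X i ∩ Y i ∩ Z i = ∅`), so their measures add up to at most `1`. For each `i`: `X ∩ Y` and `X ∩ Z` are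
disjoint subsets of `X`, so `μ (X ∩ Y) + μ (X ∩ Z) ≤ μ X`; add the three inequalities. -/
def S_Cou : Prop := ∀ (Ω : Type) (μ : Set Ω → ℝ), IsFA μ → ∀ (r : ℕ) (X Y Z : Fin r → Set Ω),
  (∀ i j, i ≠ j → Disjoint (X i) (X j)) → (∀ i j, i ≠ j → Disjoint (Y i) (Y j)) →
  (∀ i j, i ≠ j → Disjoint (Z i) (Z j)) → (∀ i, X i ∩ Y i ∩ Z i = ∅) →
  ∑ i, (μ (X i ∩ Y i) + μ (X i ∩ Z i) + μ (Y i ∩ Z i)) ≤ 1 ∧
  2 * ∑ i, (μ (X i ∩ Y i) + μ (X i ∩ Z i) + μ (Y i ∩ Z i)) ≤ ∑ i, (μ (X i) + μ (Y i) + μ (Z i))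

/-- **Prc.** `HD.ProcStmt`. `E' i n = E i n.toPNat'` for natural numbers `n` (`Nat.toPNat'`, the identity on positive numbers), `φ i a b = μ (E' i a ∩ E' i b)` is a pair function by `S_PrP`.
For every `ε > 0` the triple of `GenF` and `S_Cou` (`X i = E' i x`, …) give `3 ∑ d i² - ε ≤ 1` and `2 (3 ∑ d i² - ε) ≤ 3 ∑ d i`; let `ε → 0`. USES: S_PrP, S_Cou, GenF. -/
def S_Prc : Prop := Pool.Agent.F0f91f8.HD.ProcStmt

/-- **Mea.** The form for invariant means, from `HD.ProcStmt`: `Ω = ℕ`, `E i n = {k | 0 < k ∧ n * k ∈ A i}` (`n : ℕ+`); invariance from `dil` (and `zero`: the point `0` has no mass). -/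
def S_Mea : Prop := Pool.Agent.F0f91f8.HD.ProcStmt → ∀ m : Set ℕ → ℝ, IsInvMean m → ∀ (r : ℕ) (A : Fin r → Set ℕ),
  (∀ i j, i ≠ j → Disjoint (A i) (A j)) →
  (∀ i, ¬ ∃ x y z : ℕ, 0 < x ∧ 0 < y ∧ 0 < z ∧ x ^ 2 + y ^ 2 = z ^ 2 ∧ x ∈ A i ∧ y ∈ A i ∧ z ∈ A i) →
  ∑ i, m (A i) ^ 2 ≤ 1 / 3 ∧ ∑ i, m (A i) ^ 2 ≤ (∑ i, m (A i)) / 2

/-- **Bxf.** The boxes `HD.Box R` are a Foelner sequence: for `n ≥ 1`, `card {k ∈ Box R : n k ∈ Box R} / card (Box R) → 1`. The map from exponents to the product is injective on exponents supported at primes (values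
at non-primes are irrelevant), so `card (Box R) = R ^ π(R)`; for a prime `p ≤ R` the `k` with `p k ∈ Box R` are those with exponent of `p` at most `R - 2`: `(R - 1) R ^ (π(R) - 1)` of
them, ratio `1 - 1/R`. Then products of primes as in `S_Fol` (the number of `k ∈ F` with `n n' k ∉ F` is at most the number of `k ∈ F` with `n k ∉ F` plus the number of `l ∈ F` with `n' l ∉ F`). A convenient
description: `k ∈ Box R` iff `k ≠ 0` and all prime factors are `≤ R` and all exponents are `< R` (`R ≥ 1`). -/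
def S_Bxf : Prop := (∀ R, 1 ≤ R → (Pool.Agent.F0f91f8.HD.Box R).Nonempty ∧
    ∀ k ∈ Pool.Agent.F0f91f8.HD.Box R, 0 < k) ∧
  ∀ n : ℕ, 0 < n → Tendsto (fun R => (((Pool.Agent.F0f91f8.HD.Box R).filter fun k =>
    n * k ∈ Pool.Agent.F0f91f8.HD.Box R).card : ℝ) / ((Pool.Agent.F0f91f8.HD.Box R).card : ℝ)) atTop (𝓝 1)

/-- **Big.** Reduction to boundedly many classes. It is enough to prove the finite form with `r ≤ r₀ = ⌈2/ε⌉` classes, `ε/2` instead of `ε`: of a family `A` as in `HD.FinStmt` keep the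
classes with `|A i| ≥ (ε/2) |F|` (at most `2/ε` of them, since they are disjoint subsets of `F`), the others contribute at most `(ε/2) |F| ∑ |A i| ≤ (ε/2) |F|²` to `∑ |A i|²`. To have exactly `r₀` classes add
empty ones. -/
def S_Big : Prop := (∀ (ε : ℝ) (r : ℕ), 0 < ε → ∃ R₀ : ℕ, ∀ R ≥ R₀, ∀ A : Fin r → Finset ℕ,
    (∀ i, A i ⊆ Pool.Agent.F0f91f8.HD.Box R) → (∀ i j, i ≠ j → Disjoint (A i) (A j)) →
    ((1 / 3 + ε) * ((Pool.Agent.F0f91f8.HD.Box R).card : ℝ) ^ 2 ≤ ∑ i, ((A i).card : ℝ) ^ 2 ∨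
      (1 / 2 * ∑ i, ((A i).card : ℝ) * (Pool.Agent.F0f91f8.HD.Box R).card +
        ε * ((Pool.Agent.F0f91f8.HD.Box R).card : ℝ) ^ 2 ≤ ∑ i, ((A i).card : ℝ) ^ 2)) →
    ∃ i, ∃ x ∈ A i, ∃ y ∈ A i, ∃ z ∈ A i, x ^ 2 + y ^ 2 = z ^ 2) → Pool.Agent.F0f91f8.HD.FinStmt

/-- **Ulm.** The limit process. Let `R j → ∞`, `A j i` disjoint subsets of `F j = Box (R j)`. `Ω = ℕ × ℕ`, `μ S = ` limit along an ultrafilter `≤ atTop` of `card {s ∈ F j : (j, s) ∈ S} / card (F j)` (real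
numbers in `[0,1]`; `Ultrafilter` limit in a compact interval). `E i n = {(j, s) | n * s ∈ A j i}`. Finitely additive; `μ (E i n) = lim card {s ∈ F j : n s ∈ A j i}/card (F j) = lim card (A j i)/card (F j)`
because `s ↦ n s` is a bijection from `{s : n s ∈ A j i}` onto the multiples of `n` in `A j i`, up to `o(card F)` elements (by `S_Bxf` all but `o(card F)` elements of `F` are of the form `n s` with `s ∈ F`: `s ↦ n s` maps
`{s ∈ F : n s ∈ F}` into `F`, and this set has `(1 - o(1)) card F` elements). In the same way `μ (E i (k a) ∩ E i (k b)) = μ (E i a ∩ E i b)`. USES: S_Bxf. -/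
def S_Ulm : Prop := ∀ (r : ℕ) (R : ℕ → ℕ) (A : ℕ → Fin r → Finset ℕ), Tendsto R atTop atTop → (∀ j, 1 ≤ R j) →
  (∀ j i, A j i ⊆ Pool.Agent.F0f91f8.HD.Box (R j)) →
  ∃ (U : Ultrafilter ℕ) (μ : Set (ℕ × ℕ) → ℝ) (d : Fin r → ℝ), (U : Filter ℕ) ≤ atTop ∧ IsFA μ ∧
    (∀ i, Tendsto (fun j => ((A j i).card : ℝ) / ((Pool.Agent.F0f91f8.HD.Box (R j)).card : ℝ)) U (𝓝 (d i))) ∧
    (∀ i (n : ℕ), 0 < n → μ {p | n * p.2 ∈ A p.1 i} = d i) ∧
    ∀ i (k a b : ℕ), 0 < k → 0 < a → 0 < b →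
      μ ({p | k * a * p.2 ∈ A p.1 i} ∩ {p | k * b * p.2 ∈ A p.1 i}) =
        μ ({p | a * p.2 ∈ A p.1 i} ∩ {p | b * p.2 ∈ A p.1 i})

/-- **Fnl.** `HD.FinStmt` from `HD.ProcStmt`. By `S_Big` fix `r` and `ε`; if the statement fails, there are `R j → ∞` (`≥ 1`) and families `A j` without triple satisfying the density hypothesis. `S_Ulm` and `HD.ProcStmt`
(`E i n = {p | n * p.2 ∈ A p.1 i}`, disjoint for different `i`; for a triple `x² + y² = z²` the elements `x s, y s, z s` form a triple, so they are not all in `A j i`; for `s = 0` note that `0 ∉ A j i`) give `∑ d i² ≤ 1/3` and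
`≤ (∑ d i)/2`, while the density hypothesis passes to the limit (one of the two alternatives holds for `U`-many `j`): `∑ d i² ≥ 1/3 + ε` or `≥ (∑ d i)/2 + ε`, a contradiction. USES: S_Big, S_Ulm, S_Bxf. -/
def S_Fnl : Prop := Pool.Agent.F0f91f8.HD.ProcStmt → Pool.Agent.F0f91f8.HD.FinStmt

end Pool.Agent.Work.MP_0f91f8_co.EF
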