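import Pool.Agent.Work.MP_0f91f8_co.EF.Ulm
import Pool.Agent.Work.MP_0f91f8_co.EF.Big
import Pool.Agent.Work.MP_0f91f8_co.EF.StmtsB

/-!
# MP_0f91f8_co, module E: the finite form for all almost invariant finite sets

The proofs follow the items Ulm (helper10), Big (helper28), Fnl (helper33) and Fol (helper16).
-/

set_option autoImplicit false

open Filter Topology MeasureTheory

noncomputable section

namespace Pool.Agent.Work.MP_0f91f8_co.EF

open Pool.Agent.Work.MP_0f91f8_co.COL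
open Pool.Agent.F0f91f8

/-- The finite form for all almost invariant finite sets. -/
def FolFin : Prop := ∀ ε : ℝ, 0 < ε → ∃ (k : ℕ) (δ : ℝ), 0 < δ ∧ ∀ F : Finset ℕ, F.Nonempty →
  (∀ n ∈ F, 0 < n) →
  (∀ p ≤ k, p.Prime → (1 - δ) * (F.card : ℝ) ≤ ((F.filter fun n => p * n ∈ F).card : ℝ)) →
  ∀ (r : ℕ) (A : Fin r → Finset ℕ), (∀ i, A i ⊆ F) → (∀ i j, i ≠ j → Disjoint (A i) (A j)) →
  (min (1 / 3) ((∑ i, ((A i).card : ℝ)) / (F.card : ℝ) / 2) + ε) * (F.card : ℝ) ^ 2 ≤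
    ∑ i, ((A i).card : ℝ) ^ 2 →
  ∃ i, ∃ x ∈ A i, ∃ y ∈ A i, ∃ z ∈ A i, x ^ 2 + y ^ 2 = z ^ 2

namespace XFinF

/-! ### The limit process -/

open scoped Classical in
open XUlm in
theorem ulg (r : ℕ) (F : ℕ → Finset ℕ) (A : ℕ → Fin r → Finset ℕ) (hFo : IsFo F)
    (hAF : ∀ j i, A j i ⊆ F j) :
    ∃ (U : Ultrafilter ℕ) (μ : Set (ℕ × ℕ) → ℝ) (d : Fin r → ℝ), (U : Filter ℕ) ≤ atTop ∧ IsFA μ ∧
    (∀ i, Tendsto (fun j => ((A j i).card : ℝ) / ((F j).card : ℝ)) U (𝓝 (d i))) ∧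
    (∀ i (n : ℕ), 0 < n → μ {p | n * p.2 ∈ A p.1 i} = d i) ∧
    ∀ i (k a b : ℕ), 0 < k → 0 < a → 0 < b →
      μ ({p | k * a * p.2 ∈ A p.1 i} ∩ {p | k * b * p.2 ∈ A p.1 i}) =
        μ ({p | a * p.2 ∈ A p.1 i} ∩ {p | b * p.2 ∈ A p.1 i}) := by
  have hFne : ∀ j, 0 < (F j).card := fun j => Finset.card_pos.2 (hFo.ne j)
  have hFR : ∀ j, (0 : ℝ) < (F j).card := fun j => by exact_mod_cast hFne j
  obtain ⟨U, hU⟩ : ∃ U : Ultrafilter ℕ, (U : Filter ℕ) ≤ atTop :=
    ⟨Ultrafilter.of atTop, Ultrafilter.of_le atTop⟩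
  choose μ hμ hμl using fun S : Set (ℕ × ℕ) => ulim U (qq F S) (qq_mem F S)
  have hdm : ∀ i j, ((A j i).card : ℝ) / ((F j).card : ℝ) ∈ Set.Icc (0 : ℝ) 1 := by
    intro i j
    refine ⟨by positivity, div_le_one_of_le₀ ?_ (by positivity)⟩
    exact_mod_cast Finset.card_le_card (hAF j i)
  choose d hd hdl using fun i : Fin r => ulim U (fun j => ((A j i).card : ℝ) / ((F j).card : ℝ))
    (hdm i)
  have hdef : ∀ n : ℕ, 0 < n → Tendsto (fun j => 1 - (((F j).filter fun k => n * k ∈ F j).card : ℝ) /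
      ((F j).card : ℝ)) U (𝓝 0) := by
    intro n hn
    have h1 := (hFo.lim n hn).mono_left hU
    have h2 := h1.const_sub 1
    rw [sub_self] at h2
    exact h2
  refine ⟨U, μ, d, hU, ⟨fun S => (hμ S).1, ?_, ?_⟩, hdl, ?_, ?_⟩
  · refine tendsto_nhds_unique (hμl Set.univ) ?_
    have h1 : qq F Set.univ = fun _ => (1 : ℝ) := by
      funext j
      unfold qq
      simp only [Set.mem_univ, Finset.filter_true]
      exact div_self (hFR j).ne'
    rw [h1]
    exact tendsto_const_nhds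
  · intro S T hST
    refine tendsto_nhds_unique (hμl (S ∪ T)) ?_
    have h1 : qq F (S ∪ T) = fun j => qq F S j + qq F T j := by
      funext j
      unfold qq
      rw [← add_div]
      congr 1
      rw [← Nat.cast_add, ← Finset.card_union_of_disjoint]
      · congr 2
        ext s
        simp only [Finset.mem_filter, Finset.mem_union, Set.mem_union]
        tauto
      · rw [Finset.disjoint_left]
        intro s hs hs'
        exact Set.disjoint_left.1 hST (Finset.mem_filter.1 hs).2 (Finset.mem_filter.1 hs').2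
    rw [h1]
    exact (hμl S).add (hμl T)
  · intro i n hn
    refine uniq U _ _ _ _ _ (hμl _) (hdl i) (hdef n hn) fun j => ?_
    have h1 := shift (F j) (A j i) (hAF j i) n hn
    rw [qq_eq F {p : ℕ × ℕ | n * p.2 ∈ A p.1 i} j ((F j).filter fun s => n * s ∈ A j i)
      (fun s => Finset.mem_filter)]
    have h3 : ((F j).filter fun s => n * s ∈ F j).card ≤ (F j).card := Finset.card_filter_le _ _
    exact absd _ _ _ _ (hFne j) (by omega) (by omega)
  · intro i k a b hk ha hb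
    refine uniq U _ _ _ _ _ (hμl _) (hμl _) (hdef k hk) fun j => ?_
    have h1 := pair (F j) (A j i) a b k hk
    rw [qq_eq F ({p : ℕ × ℕ | k * a * p.2 ∈ A p.1 i} ∩ {p : ℕ × ℕ | k * b * p.2 ∈ A p.1 i}) j
      ((F j).filter fun s => k * a * s ∈ A j i ∧ k * b * s ∈ A j i) (fun s => Finset.mem_filter),
      qq_eq F ({p : ℕ × ℕ | a * p.2 ∈ A p.1 i} ∩ {p : ℕ × ℕ | b * p.2 ∈ A p.1 i}) j
      ((F j).filter fun s => a * s ∈ A j i ∧ b * s ∈ A j i) (fun s => Finset.mem_filter)]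
    exact absd _ _ _ _ (hFne j) h1.1 h1.2

/-! ### Almost invariance under primes gives a Foelner sequence -/

/-- The number of elements leaving the set. -/
def bad (F : Finset ℕ) (n : ℕ) : ℕ := (F.filter fun k => n * k ∉ F).card

lemma bad_add (F : Finset ℕ) (n : ℕ) : (F.filter fun k => n * k ∈ F).card + bad F n = F.card :=
  Finset.card_filter_add_card_filter_not (s := F) (fun k => n * k ∈ F)

lemma bad_one (F : Finset ℕ) : bad F 1 = 0 := by
  unfold bad
  rw [Finset.card_eq_zero, Finset.filter_eq_empty_iff]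
  intro k hk
  simpa using hk

lemma bad_mul (F : Finset ℕ) (a b : ℕ) (ha : 0 < a) : bad F (a * b) ≤ bad F a + bad F b := by
  classical
  unfold bad
  have hsub : (F.filter fun k => a * b * k ∉ F) ⊆
      (F.filter fun k => a * k ∉ F) ∪
      (F.filter fun k => a * k ∈ F ∧ b * (a * k) ∉ F) := by
    intro k hk
    rw [Finset.mem_filter] at hk
    rw [Finset.mem_union, Finset.mem_filter, Finset.mem_filter]
    by_cases h : a * k ∈ F
    · right
      refine ⟨hk.1, h, ?_⟩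
      have : b * (a * k) = a * b * k := by ring
      rw [this]
      exact hk.2
    · left
      exact ⟨hk.1, h⟩
  have h2 : (F.filter fun k => a * k ∈ F ∧ b * (a * k) ∉ F).card ≤
      (F.filter fun k => b * k ∉ F).card := by
    apply Finset.card_le_card_of_injOn (fun k => a * k)
    · intro k hk
      rw [Finset.mem_coe, Finset.mem_filter] at hk
      rw [Finset.mem_coe, Finset.mem_filter]
      exact hk.2
    · intro x _ y _ hxy
      exact Nat.eq_of_mul_eq_mul_left ha hxy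
  calc _ ≤ _ := Finset.card_le_card hsub
    _ ≤ _ := Finset.card_union_le _ _
    _ ≤ _ := by omega

lemma isFo_of {F : ℕ → Finset ℕ} (hne : ∀ j, (F j).Nonempty) (hpos : ∀ j, ∀ n ∈ F j, 0 < n)
    (h : ∀ (j p : ℕ), p ≤ j → p.Prime → (1 - 1 / ((j : ℝ) + 1)) * ((F j).card : ℝ) ≤
      (((F j).filter fun n => p * n ∈ F j).card : ℝ)) : IsFo F := by
  have hc : ∀ j, (0 : ℝ) < ((F j).card : ℝ) := fun j => by
    exact_mod_cast Finset.card_pos.2 (hne j)
  have key : ∀ n : ℕ, 0 < n →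
      Tendsto (fun j => (bad (F j) n : ℝ) / ((F j).card : ℝ)) atTop (𝓝 0) := by
    intro n
    induction n using Nat.recOnMul with
    | zero => intro h; exact absurd h (lt_irrefl 0)
    | one =>
      intro _
      simp [bad_one]
    | prime p hp =>
      intro _
      have h1 : Tendsto (fun j : ℕ => 1 / ((j : ℝ) + 1)) atTop (𝓝 0) :=
        tendsto_one_div_add_atTop_nhds_zero_nat
      refine squeeze_zero' (Eventually.of_forall fun j => by positivity) ?_ h1
      filter_upwards [eventually_ge_atTop p] with j hj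
      have h2 := h j p hj hp
      have h3 : (((F j).filter fun k => p * k ∈ F j).card : ℝ) + (bad (F j) p : ℝ) =
          ((F j).card : ℝ) := by exact_mod_cast bad_add (F j) p
      rw [div_le_iff₀ (hc j)]
      linarith
    | mul a b iha ihb =>
      intro hab
      have ha : 0 < a := Nat.pos_of_mul_pos_right hab
      have hb : 0 < b := Nat.pos_of_mul_pos_left hab
      have hs := (iha ha).add (ihb hb)
      rw [add_zero] at hs
      refine squeeze_zero (fun j => by positivity) (fun j => ?_) hs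
      rw [← add_div]
      have : (bad (F j) (a * b) : ℝ) ≤ (bad (F j) a : ℝ) + (bad (F j) b : ℝ) := by
        exact_mod_cast bad_mul (F j) a b ha
      gcongr
  refine ⟨hne, hpos, fun n hn => ?_⟩
  have h1 : Tendsto (fun j => 1 - (bad (F j) n : ℝ) / ((F j).card : ℝ)) atTop (𝓝 (1 - 0)) :=
    tendsto_const_nhds.sub (key n hn)
  rw [sub_zero] at h1
  refine h1.congr fun j => ?_
  have h3 : (((F j).filter fun k => n * k ∈ F j).card : ℝ) + (bad (F j) n : ℝ) =
      ((F j).card : ℝ) := by exact_mod_cast bad_add (F j) n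
  rw [eq_div_iff (hc j).ne', sub_mul, one_mul, div_mul_cancel₀ _ (hc j).ne']
  linarith

/-! ### Boundedly many classes -/

open XBig in
lemma red {ε : ℝ} (hε : 0 < ε) {F : Finset ℕ} (hne : F.Nonempty) {r : ℕ} (A : Fin r → Finset ℕ)
    (hA : ∀ i, A i ⊆ F) (hd : ∀ i j, i ≠ j → Disjoint (A i) (A j))
    (hyp : (min (1 / 3) ((∑ i, ((A i).card : ℝ)) / (F.card : ℝ) / 2) + ε) * (F.card : ℝ) ^ 2 ≤
      ∑ i, ((A i).card : ℝ) ^ 2) :
    ∃ B : Fin ⌈2 / ε⌉₊ → Finset ℕ, (∀ i, B i ⊆ F) ∧ (∀ i j, i ≠ j → Disjoint (B i) (B j)) ∧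
      (min (1 / 3) ((∑ i, ((B i).card : ℝ)) / (F.card : ℝ) / 2) + ε / 2) * (F.card : ℝ) ^ 2 ≤
        ∑ i, ((B i).card : ℝ) ^ 2 ∧ ∀ j, B j = ∅ ∨ ∃ i, B j = A i := by
  have hFpos : (0 : ℝ) < (F.card : ℝ) := by exact_mod_cast Finset.card_pos.2 hne
  have htot : ∑ i, ((A i).card : ℝ) ≤ (F.card : ℝ) := by
    have h1 : (Finset.univ.biUnion A).card = ∑ i, (A i).card :=
      Finset.card_biUnion fun i _ j _ hij => hd i j hij
    have h2 : (Finset.univ.biUnion A).card ≤ F.card :=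
      Finset.card_le_card (Finset.biUnion_subset.2 fun i _ => hA i)
    rw [h1] at h2
    exact_mod_cast h2
  let I : Finset (Fin r) := Finset.univ.filter fun i => ε / 2 * (F.card : ℝ) ≤ ((A i).card : ℝ)
  have hIc : I.card ≤ ⌈2 / ε⌉₊ := by
    have h1 : (I.card : ℝ) * (ε / 2 * (F.card : ℝ)) ≤ ∑ i ∈ I, ((A i).card : ℝ) := by
      rw [← nsmul_eq_mul]
      exact Finset.card_nsmul_le_sum _ _ _ fun i hi => (Finset.mem_filter.1 hi).2
    have h2 : ∑ i ∈ I, ((A i).card : ℝ) ≤ ∑ i, ((A i).card : ℝ) :=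
      Finset.sum_le_sum_of_subset_of_nonneg (Finset.subset_univ _) fun i _ _ => Nat.cast_nonneg _
    have h3 : (I.card : ℝ) * (ε / 2) ≤ 1 := by
      have h4 : (I.card : ℝ) * (ε / 2) * (F.card : ℝ) ≤ 1 * (F.card : ℝ) := by
        calc (I.card : ℝ) * (ε / 2) * (F.card : ℝ) = (I.card : ℝ) * (ε / 2 * (F.card : ℝ)) := by ring
          _ ≤ (F.card : ℝ) := le_trans h1 (le_trans h2 htot)
          _ = 1 * (F.card : ℝ) := by ring
      exact le_of_mul_le_mul_right h4 hFpos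
    have h5 : (I.card : ℝ) ≤ 2 / ε := by
      rw [le_div_iff₀ hε]
      linarith
    exact_mod_cast le_trans h5 (Nat.le_ceil _)
  have hsq : ∑ i, ((A i).card : ℝ) ^ 2 ≤
      ∑ i ∈ I, ((A i).card : ℝ) ^ 2 + ε / 2 * (F.card : ℝ) ^ 2 := by
    have h0 := Finset.sum_filter_add_sum_filter_not (Finset.univ : Finset (Fin r))
      (fun i => ε / 2 * (F.card : ℝ) ≤ ((A i).card : ℝ)) fun i => ((A i).card : ℝ) ^ 2
    have h1 : ∑ i ∈ Finset.univ.filter (fun i => ¬ ε / 2 * (F.card : ℝ) ≤ ((A i).card : ℝ)),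
        ((A i).card : ℝ) ^ 2 ≤
        ∑ i ∈ Finset.univ.filter (fun i => ¬ ε / 2 * (F.card : ℝ) ≤ ((A i).card : ℝ)),
        ε / 2 * (F.card : ℝ) * ((A i).card : ℝ) := by
      refine Finset.sum_le_sum fun i hi => ?_
      have h2 := not_le.1 (Finset.mem_filter.1 hi).2
      rw [sq]
      exact mul_le_mul_of_nonneg_right h2.le (Nat.cast_nonneg _)
    have h3 : ∑ i ∈ Finset.univ.filter (fun i => ¬ ε / 2 * (F.card : ℝ) ≤ ((A i).card : ℝ)),
        ε / 2 * (F.card : ℝ) * ((A i).card : ℝ) ≤ ∑ i, ε / 2 * (F.card : ℝ) * ((A i).card : ℝ) :=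
      Finset.sum_le_sum_of_subset_of_nonneg (Finset.subset_univ _) fun i _ _ => by positivity
    have h6 : ∑ i, ε / 2 * (F.card : ℝ) * ((A i).card : ℝ) =
        ε / 2 * (F.card : ℝ) * ∑ i, ((A i).card : ℝ) := (Finset.mul_sum _ _ _).symm
    have h4 : ε / 2 * (F.card : ℝ) * ∑ i, ((A i).card : ℝ) ≤
        ε / 2 * (F.card : ℝ) * (F.card : ℝ) :=
      mul_le_mul_of_nonneg_left htot (by positivity)
    have h5 : ε / 2 * (F.card : ℝ) * (F.card : ℝ) = ε / 2 * (F.card : ℝ) ^ 2 := by ring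
    change ∑ i, ((A i).card : ℝ) ^ 2 ≤ ∑ i ∈ Finset.univ.filter
      (fun i => ε / 2 * (F.card : ℝ) ≤ ((A i).card : ℝ)), ((A i).card : ℝ) ^ 2 + _
    linarith
  have hs2 := lst_sum I A ⌈2 / ε⌉₊ hIc (fun S => (S.card : ℝ) ^ 2) (by simp)
  have hs1 := lst_sum I A ⌈2 / ε⌉₊ hIc (fun S => (S.card : ℝ)) (by simp)
  have hle : ∑ i ∈ I, ((A i).card : ℝ) ≤ ∑ i, ((A i).card : ℝ) :=
    Finset.sum_le_sum_of_subset_of_nonneg (Finset.subset_univ _) fun i _ _ => by positivity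
  refine ⟨lst I A ⌈2 / ε⌉₊, ?_, ?_, ?_, ?_⟩
  · intro j
    rcases lst_cases I A _ j with h | ⟨h, e⟩
    · rw [h]; exact Finset.empty_subset _
    · rw [e]; exact hA _
  · intro i j hij
    rcases lst_cases I A _ i with h | ⟨h, e⟩
    · rw [h]; exact Finset.disjoint_empty_left _
    rcases lst_cases I A _ j with h' | ⟨h', e'⟩
    · rw [h']; exact Finset.disjoint_empty_right _
    rw [e, e']
    refine hd _ _ fun hh => hij ?_
    have h1 := I.equivFin.symm.injective (Subtype.ext hh)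
    exact Fin.ext (Fin.mk.inj_iff.1 h1)
  · rw [hs2, hs1]
    have hmin : min (1 / 3) ((∑ i ∈ I, ((A i).card : ℝ)) / (F.card : ℝ) / 2) ≤
        min (1 / 3) ((∑ i, ((A i).card : ℝ)) / (F.card : ℝ) / 2) :=
      min_le_min_left _ (div_le_div_of_nonneg_right
        (div_le_div_of_nonneg_right hle hFpos.le) zero_le_two)
    have h7 := mul_le_mul_of_nonneg_right hmin (sq_nonneg (F.card : ℝ))
    nlinarith
  · intro j
    rcases lst_cases I A _ j with h | ⟨h, e⟩
    · exact Or.inl h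
    · exact Or.inr ⟨_, e⟩

end XFinF

open XFinF in
/-- The finite form for almost invariant sets, from the process form. -/
theorem folFin (hP : HD.ProcStmt) : FolFin := by
  intro ε hε
  by_contra hcon
  have hcon' : ∀ j : ℕ, ∃ F : Finset ℕ, F.Nonempty ∧ (∀ n ∈ F, 0 < n) ∧
      (∀ p ≤ j, p.Prime → (1 - 1 / ((j : ℝ) + 1)) * (F.card : ℝ) ≤
        ((F.filter fun n => p * n ∈ F).card : ℝ)) ∧
      ∃ B : Fin ⌈2 / ε⌉₊ → Finset ℕ, (∀ i, B i ⊆ F) ∧ (∀ i j, i ≠ j → Disjoint (B i) (B j)) ∧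
      (min (1 / 3) ((∑ i, ((B i).card : ℝ)) / (F.card : ℝ) / 2) + ε / 2) * (F.card : ℝ) ^ 2 ≤
        ∑ i, ((B i).card : ℝ) ^ 2 ∧
      ¬ ∃ i, ∃ x ∈ B i, ∃ y ∈ B i, ∃ z ∈ B i, x ^ 2 + y ^ 2 = z ^ 2 := by
    intro j
    by_contra hno
    apply hcon
    refine ⟨j, 1 / ((j : ℝ) + 1), by positivity, fun F a1 a2 a3 r A a4 a5 a6 => ?_⟩
    by_contra a7
    obtain ⟨B, b1, b2, b3, b4⟩ := red hε a1 A a4 a5 a6
    refine hno ⟨F, a1, a2, a3, B, b1, b2, b3, ?_⟩
    rintro ⟨i, x, hx, y, hy, z, hz, h⟩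
    rcases b4 i with e | ⟨i', e⟩
    · rw [e] at hx
      exact absurd hx (Finset.notMem_empty _)
    · rw [e] at hx hy hz
      exact a7 ⟨i', x, hx, y, hy, z, hz, h⟩
  choose F hne hpos hinv0 A hA hD hdens hno using hcon'
  have hFo := isFo_of hne hpos fun j p hp1 hp2 => hinv0 j p hp1 hp2
  obtain ⟨U, μ, d, hU, hFA, hd, hE, hinv⟩ := ulg ⌈2 / ε⌉₊ F A hFo hA
  obtain ⟨b1, b2⟩ := hP (ℕ × ℕ) μ hFA.nonneg hFA.univ hFA.union ⌈2 / ε⌉₊
    (fun i n => {p | (n : ℕ) * p.2 ∈ A p.1 i}) d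
    (fun n i j hij => Set.disjoint_left.2 fun p hp hp' =>
      (Finset.disjoint_left.1 (hD p.1 i j hij)) hp hp')
    (fun i n => hE i n n.pos)
    (fun i k a b => by
      have := hinv i k a b k.pos a.pos b.pos
      simpa only [PNat.mul_coe] using this)
    (fun i x y z hxyz => by
      rw [Set.eq_empty_iff_forall_notMem]
      rintro p ⟨⟨hx, hy⟩, hz⟩
      refine hno p.1 ⟨i, _, hx, _, hy, _, hz, ?_⟩
      have h4 : (x : ℕ) ^ 2 + (y : ℕ) ^ 2 = (z : ℕ) ^ 2 := by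
        have := congrArg (fun n : ℕ+ => (n : ℕ)) hxyz
        simpa using this
      rw [mul_pow, mul_pow, mul_pow, ← add_mul, h4])
  have hF : ∀ j, (0 : ℝ) < ((F j).card : ℝ) := fun j => by
    exact_mod_cast (hne j).card_pos
  set a : ℕ → Fin ⌈2 / ε⌉₊ → ℝ := fun j i => ((A j i).card : ℝ) / ((F j).card : ℝ) with ha
  have hs2 : Tendsto (fun j => ∑ i, a j i ^ 2) U (𝓝 (∑ i, d i ^ 2)) :=
    tendsto_finsetSum _ fun i _ => (hd i).pow 2
  have hs1 : Tendsto (fun j => ∑ i, a j i) U (𝓝 (∑ i, d i)) :=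
    tendsto_finsetSum _ fun i _ => hd i
  have e1 : ∀ᶠ j in (U : Filter ℕ), ∑ i, a j i ^ 2 < 1 / 3 + ε / 2 :=
    hs2.eventually_lt_const (by linarith)
  have e2 : ∀ᶠ j in (U : Filter ℕ), ∑ i, a j i ^ 2 - (∑ i, a j i) / 2 < ε / 2 :=
    (hs2.sub (hs1.div_const 2)).eventually_lt_const (by linarith)
  obtain ⟨j, c1, c2⟩ := (e1.and e2).exists
  have hFF : 0 < ((F j).card : ℝ) ^ 2 := by
    have := hF j
    positivity
  have q2 : ∑ i, ((A j i).card : ℝ) ^ 2 = (∑ i, a j i ^ 2) * ((F j).card : ℝ) ^ 2 := by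
    rw [Finset.sum_mul]
    refine Finset.sum_congr rfl fun i _ => ?_
    rw [ha]
    have := (hF j).ne'
    field_simp
  have q1 : (∑ i, ((A j i).card : ℝ)) / ((F j).card : ℝ) = ∑ i, a j i := by
    rw [Finset.sum_div]
  have h := hdens j
  rw [q2, q1] at h
  have h5 := le_of_mul_le_mul_right h hFF
  rcases min_choice (1 / 3 : ℝ) ((∑ i, a j i) / 2) with h6 | h6
  · rw [h6] at h5
    linarith
  · rw [h6] at h5
    linarith

end Pool.Agent.Work.MP_0f91f8_co.EF
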