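import Pool.Agent.Work.MP_0f91f8_co.EF.StmtsB

/-!
# [0f91f8 EF AtF]: the atom of the spectral measure of a pair function
-/

set_option autoImplicit false

open Filter Topology MeasureTheory

noncomputable section

namespace Pool.Agent.Work.MP_0f91f8_co.EF

open Pool.Agent.Work.MP_0f91f8_co.COL

namespace XAtF

/-- the mean of the character over the finite set, squared -/
def hh (F : Finset ℕ) (g : GG) : ℝ := ‖∑ a ∈ F, ev g a‖ ^ 2 / (F.card : ℝ) ^ 2

lemma norm_ev_le (h1 : S_Ev) (g : GG) (n : ℕ) : ‖ev g n‖ ≤ 1 := by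
  rcases Nat.eq_zero_or_pos n with h | h
  · rw [h, (h1.1 g).zero, norm_zero]
    exact zero_le_one
  · rw [(h1.1 g).norm n h]

lemma sq_eq (F : Finset ℕ) (g : GG) : ((‖∑ a ∈ F, ev g a‖ ^ 2 : ℝ) : ℂ) =
    ∑ a ∈ F, ∑ b ∈ F, ev g a * (starRingEnd ℂ) (ev g b) := by
  rw [Complex.ofReal_pow, ← Complex.mul_conj', map_sum, Finset.sum_mul_sum]

lemma integrable_pair (h1 : S_Ev) (μ : Measure GG) [IsFiniteMeasure μ] (a b : ℕ) :
    Integrable (fun g : GG => ev g a * (starRingEnd ℂ) (ev g b)) μ := by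
  refine Integrable.of_bound ?_ 1 (Eventually.of_forall fun g => ?_)
  · exact ((h1.2.1 a).mul (Complex.continuous_conj.comp (h1.2.1 b))).aestronglyMeasurable
  · rw [norm_mul, Complex.norm_conj]
    exact mul_le_one₀ (norm_ev_le h1 g a) (norm_nonneg _) (norm_ev_le h1 g b)

lemma integral_hh (h1 : S_Ev) (φ : ℕ → ℕ → ℝ) (μ : Measure GG) (hs : IsSp φ μ) (F : Finset ℕ)
    (hF : ∀ a ∈ F, 0 < a) :
    ∫ g, hh F g ∂μ = (∑ a ∈ F, ∑ b ∈ F, φ a b) / (F.card : ℝ) ^ 2 := by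
  haveI := hs.fin
  have e1 : ((∫ g, ‖∑ a ∈ F, ev g a‖ ^ 2 ∂μ : ℝ) : ℂ) = ((∑ a ∈ F, ∑ b ∈ F, φ a b : ℝ) : ℂ) := by
    rw [← integral_complex_ofReal]
    simp only [sq_eq]
    rw [integral_finsetSum _ fun a _ => integrable_finsetSum _ fun b _ =>
      integrable_pair h1 μ a b]
    rw [Complex.ofReal_sum]
    refine Finset.sum_congr rfl fun a ha => ?_
    rw [integral_finsetSum _ fun b _ => integrable_pair h1 μ a b, Complex.ofReal_sum]
    exact Finset.sum_congr rfl fun b hb => hs.eq a b (hF a ha) (hF b hb)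
  have e2 : ∫ g, ‖∑ a ∈ F, ev g a‖ ^ 2 ∂μ = ∑ a ∈ F, ∑ b ∈ F, φ a b := by
    exact_mod_cast e1
  unfold hh
  rw [integral_div, e2]

lemma hh_cont (h1 : S_Ev) (F : Finset ℕ) : Continuous (hh F) := by
  unfold hh
  exact ((continuous_finsetSum _ fun a _ => h1.2.1 a).norm.pow 2).div_const _

lemma hh_le (h1 : S_Ev) (F : Finset ℕ) (hne : F.Nonempty) (g : GG) : ‖hh F g‖ ≤ 1 := by
  have hc : (0 : ℝ) < F.card := by exact_mod_cast hne.card_pos
  have h2 : ‖∑ a ∈ F, ev g a‖ ≤ F.card := by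
    refine (norm_sum_le _ _).trans ?_
    calc ∑ a ∈ F, ‖ev g a‖ ≤ ∑ _a ∈ F, (1 : ℝ) := Finset.sum_le_sum fun a _ => norm_ev_le h1 g a
      _ = F.card := by simp
  unfold hh
  rw [Real.norm_of_nonneg (by positivity), div_le_one (by positivity)]
  exact pow_le_pow_left₀ (norm_nonneg _) h2 2

end XAtF

open XAtF in
theorem AtF_pf (h1 : S_Ev) (h2 : S_Fol) (h3 : S_Chr) : S_AtF := by
  intro φ d μ hφ hs
  haveI := hs.fin
  obtain ⟨F, hF⟩ := h2
  have hm : MeasurableSet ({1} : Set GG) := isClosed_singleton.measurableSet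
  have hlim : Tendsto (fun j => ∫ g, hh (F j) g ∂μ) atTop
      (𝓝 (∫ g, Set.indicator {1} (fun _ => (1 : ℝ)) g ∂μ)) := by
    refine tendsto_integral_of_dominated_convergence (fun _ => (1 : ℝ)) ?_ ?_ ?_ ?_
    · intro j
      exact (hh_cont h1 (F j)).aestronglyMeasurable
    · exact integrable_const _
    · intro j
      exact Eventually.of_forall fun g => hh_le h1 (F j) (hF.ne j) g
    · exact Eventually.of_forall fun g => h3 F hF g
  rw [integral_indicator_const _ hm, smul_eq_mul, mul_one] at hlim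
  refine ge_of_tendsto' hlim fun j => ?_
  rw [integral_hh h1 φ μ hs (F j) (hF.pos j)]
  have hc : (0 : ℝ) < (F j).card := by exact_mod_cast (hF.ne j).card_pos
  rw [le_div_iff₀ (by positivity)]
  exact hφ.var (F j) (hF.pos j)

end Pool.Agent.Work.MP_0f91f8_co.EF
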