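import Pool.Agent.Work.MP_0f91f8_co.EF.StmtsB

/-!
# MP_0f91f8_co, collision theorem, module E: the mean over the family of triples (item AvF)
-/

set_option autoImplicit false

open Filter Topology MeasureTheory

noncomputable section

namespace Pool.Agent.Work.MP_0f91f8_co.EF

open Pool.Agent.Work.MP_0f91f8_co.COL

namespace XAvF

open Pool.Agent.F0f91f8.HD

lemma kp_pos (w K : ℕ) (e : Fin (w + 1) → Fin K) : 0 < kp w K e := by
  unfold kp
  refine Finset.prod_pos fun p _ => ?_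
  split_ifs with h
  · exact pow_pos h.pos _
  · exact one_pos

lemma kk_pos (w K : ℕ) (e : Fin (K + 1) → Fin K) : 0 < kk w K e := by
  unfold kk
  refine Finset.prod_pos fun p _ => ?_
  split_ifs with h
  · exact pow_pos h.1.pos _
  · exact one_pos

lemma DD_pos (w K : ℕ) (hK : 1 ≤ K) : 0 < DD w K := by
  unfold DD
  have := Nat.factorial_pos w
  positivity

/-- the index type of the family -/
abbrev IX (w K : ℕ) : Type :=
  ((Fin (w + 1) → Fin K) × (Fin (K + 1) → Fin K)) × ((ℕ × ℕ) × (ℕ × ℕ))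

/-- the index set of the family -/
def SX (w K M : ℕ) : Finset (IX w K) := (Finset.univ ×ˢ Finset.univ) ×ˢ
    ((Finset.Icc 1 M ×ˢ Finset.Icc 1 M) ×ˢ
      (Finset.Icc 1 (DD w K * M) ×ˢ Finset.Icc 1 (DD w K * M)))

lemma mem_SX (w K M : ℕ) (i : IX w K) : i ∈ SX w K M ↔
    ((1 ≤ i.2.1.1 ∧ i.2.1.1 ≤ M) ∧ (1 ≤ i.2.1.2 ∧ i.2.1.2 ≤ M)) ∧
    ((1 ≤ i.2.2.1 ∧ i.2.2.1 ≤ DD w K * M) ∧ (1 ≤ i.2.2.2 ∧ i.2.2.2 ≤ DD w K * M)) := by
  simp only [SX, Finset.mem_product, Finset.mem_univ, Finset.mem_Icc, true_and]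

lemma card_SX (w K M : ℕ) : (SX w K M).card =
    (K ^ (w + 1) * K ^ (K + 1)) * ((M * M) * ((DD w K * M) * (DD w K * M))) := by
  simp only [SX, Finset.card_product, Nat.card_Icc, Nat.add_sub_cancel, Finset.card_univ,
    Fintype.card_pi, Fintype.card_fin, Finset.prod_const]

/-- the parameters of a triple of the family -/
def kapX (w K : ℕ) (i : IX w K) : ℕ := w.factorial * kp w K i.1.1

/-- the parameters of a triple of the family -/
def kX (w K : ℕ) (i : IX w K) : ℕ := kk w K i.1.2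

/-- the parameters of a triple of the family -/
def aX (w K : ℕ) (i : IX w K) : ℕ :=
  w.factorial * (i.2.2.1 + i.2.2.2) + inv0 w.factorial (kk w K i.1.2)

/-- the parameters of a triple of the family -/
def nX (w K : ℕ) (i : IX w K) : ℕ := i.2.1.1 + i.2.1.2

/-- the mean is the mean over a finite family of Pythagorean triples -/
lemma rep (w K M : ℕ) (hK : 1 ≤ K) (hM : 1 ≤ M) :
    ∃ (ι : Type) (S : Finset ι) (X Y Z : ι → ℕ), S.Nonempty ∧
      (∀ i ∈ S, 0 < X i ∧ 0 < Y i ∧ 0 < Z i ∧ X i ^ 2 + Y i ^ 2 = Z i ^ 2) ∧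
      ∀ Φ : ℕ → ℕ → ℕ → ℂ, Av w K M Φ = (∑ i ∈ S, Φ (X i) (Y i) (Z i)) / (S.card : ℂ) := by
  classical
  have hD0 : 0 < DD w K := DD_pos w K hK
  have hQ0 : 0 < w.factorial := Nat.factorial_pos w
  refine ⟨IX w K, SX w K M, fun i => tX (kapX w K i) (kX w K i) (aX w K i) (nX w K i),
    fun i => tY (kapX w K i) (kX w K i) (aX w K i) (nX w K i),
    fun i => tZ (kapX w K i) (kX w K i) (aX w K i) (nX w K i), ?_, ?_, ?_⟩
  · have hDM : 1 ≤ DD w K * M := Nat.succ_le_of_lt (Nat.mul_pos hD0 hM)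
    refine ⟨((fun _ => ⟨0, hK⟩, fun _ => ⟨0, hK⟩), ((1, 1), (1, 1))), ?_⟩
    rw [mem_SX]
    exact ⟨⟨⟨le_rfl, hM⟩, le_rfl, hM⟩, ⟨le_rfl, hDM⟩, le_rfl, hDM⟩
  · intro i hi
    rw [mem_SX] at hi
    obtain ⟨⟨⟨h1, -⟩, -⟩, ⟨h2, -⟩, -⟩ := hi
    have hκ : 0 < kapX w K i := Nat.mul_pos hQ0 (kp_pos w K _)
    have hk : 0 < kX w K i := kk_pos w K _
    have hn : 0 < nX w K i := by unfold nX; omega
    have ha : 0 < aX w K i := by
      have : 0 < w.factorial * (i.2.2.1 + i.2.2.2) := Nat.mul_pos hQ0 (by omega)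
      unfold aX; omega
    refine ⟨?_, ?_, ?_, tXYZ _ _ _ _⟩
    · show 0 < tX (kapX w K i) (kX w K i) (aX w K i) (nX w K i)
      unfold tX
      positivity
    · show 0 < tY (kapX w K i) (kX w K i) (aX w K i) (nX w K i)
      unfold tY
      positivity
    · show 0 < tZ (kapX w K i) (kX w K i) (aX w K i) (nX w K i)
      unfold tZ
      positivity
  · intro Φ
    have hcard : ((SX w K M).card : ℂ) = ((M : ℂ) ^ 2 * ((DD w K * M : ℕ) : ℂ) ^ 2) *
        ((K : ℂ) ^ (w + 1) * (K : ℂ) ^ (K + 1)) := by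
      rw [card_SX]
      push_cast
      ring
    rw [hcard, ← div_div]
    unfold Av
    congr 1
    simp only [SX, Finset.sum_product, Finset.sum_div]
    refine Finset.sum_congr rfl fun e _ => Finset.sum_congr rfl fun e' _ => ?_
    unfold Pool.Agent.F0f91f8.HD.Bx
    simp only [Finset.sum_div]
    rfl

lemma ev_norm_le (h1 : S_Ev) (g : GG) (n : ℕ) : ‖ev g n‖ ≤ 1 := by
  rcases Nat.eq_zero_or_pos n with h | h
  · rw [h, (h1.1 g).zero, norm_zero]; exact zero_le_one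
  · exact ((h1.1 g).norm n h).le

lemma two_le (h1 : S_Ev) (g : GG) (a b : ℕ) : ‖ev g a * (starRingEnd ℂ) (ev g b)‖ ≤ 1 := by
  rw [norm_mul, RCLike.norm_conj]
  have ha := ev_norm_le h1 g a
  have hb := ev_norm_le h1 g b
  nlinarith [norm_nonneg (ev g a), norm_nonneg (ev g b)]

lemma pc_le (h1 : S_Ev) (g : GG) (x y z : ℕ) : ‖pc (ev g) x y z‖ ≤ 3 := by
  unfold pc
  refine (norm_add₃_le).trans ?_
  have := two_le h1 g x y
  have := two_le h1 g y z
  have := two_le h1 g z x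
  linarith

lemma two_cont (h1 : S_Ev) (a b : ℕ) :
    Continuous fun g : GG => ev g a * (starRingEnd ℂ) (ev g b) :=
  (h1.2.1 a).mul (Complex.continuous_conj.comp (h1.2.1 b))

lemma pc_cont (h1 : S_Ev) (x y z : ℕ) : Continuous fun g : GG => pc (ev g) x y z := by
  unfold pc
  exact ((two_cont h1 x y).add (two_cont h1 y z)).add (two_cont h1 z x)

lemma two_int (h1 : S_Ev) (μ : Measure GG) [IsFiniteMeasure μ] (a b : ℕ) :
    Integrable (fun g : GG => ev g a * (starRingEnd ℂ) (ev g b)) μ :=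
  Integrable.of_bound (two_cont h1 a b).aestronglyMeasurable 1
    (Filter.Eventually.of_forall fun g => two_le h1 g a b)

lemma pc_int (h1 : S_Ev) (μ : Measure GG) [IsFiniteMeasure μ] (x y z : ℕ) :
    Integrable (fun g : GG => pc (ev g) x y z) μ :=
  Integrable.of_bound (pc_cont h1 x y z).aestronglyMeasurable 3
    (Filter.Eventually.of_forall fun g => pc_le h1 g x y z)

lemma int_pc (h1 : S_Ev) (φ : ℕ → ℕ → ℝ) (μ : Measure GG) (hs : ∀ a b, φ a b = φ b a)
    (h : IsSp φ μ) (x y z : ℕ) (hx : 0 < x) (hy : 0 < y) (hz : 0 < z) :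
    ∫ g, pc (ev g) x y z ∂μ = ((φ x y + φ x z + φ y z : ℝ) : ℂ) := by
  haveI := h.fin
  unfold pc
  have hA := two_int h1 μ x y
  have hB := two_int h1 μ y z
  have hC := two_int h1 μ z x
  have hAB : Integrable (fun g : GG => ev g x * (starRingEnd ℂ) (ev g y) +
      ev g y * (starRingEnd ℂ) (ev g z)) μ := hA.add hB
  rw [integral_add hAB hC, integral_add hA hB, h.eq x y hx hy, h.eq y z hy hz,
    h.eq z x hz hx, hs z x]
  push_cast
  ring

end XAvF

open XAvF in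
theorem AvF_pf (h1 : S_Ev) : S_AvF := by
  classical
  intro w K M _ hK hM
  obtain ⟨ι, S, X, Y, Z, hS, hT, hAv⟩ := rep w K M hK hM
  have hc : (0 : ℝ) < (S.card : ℝ) := by exact_mod_cast hS.card_pos
  have hcc : (S.card : ℂ) ≠ 0 := by exact_mod_cast hS.card_pos.ne'
  refine ⟨?_, ?_, ?_, ?_⟩
  · simp only [hAv]
    refine Complex.continuous_re.comp (Continuous.div_const ?_ _)
    exact continuous_finsetSum _ fun i _ => pc_cont h1 _ _ _
  · intro g
    rw [hAv]
    refine (Complex.abs_re_le_norm _).trans ?_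
    rw [norm_div, Complex.norm_natCast, div_le_iff₀ hc]
    refine (norm_sum_le _ _).trans ?_
    calc ∑ i ∈ S, ‖Pool.Agent.F0f91f8.HD.pc (ev g) (X i) (Y i) (Z i)‖ ≤ ∑ _i ∈ S, (3 : ℝ) :=
          Finset.sum_le_sum fun i _ => pc_le h1 g _ _ _
      _ = 3 * S.card := by rw [Finset.sum_const, nsmul_eq_mul, mul_comm]
  · rw [hAv]
    have h3 : ∑ i ∈ S, Pool.Agent.F0f91f8.HD.pc (ev 1) (X i) (Y i) (Z i) = 3 * (S.card : ℂ) := by
      rw [Finset.sum_congr rfl (g := fun _ => (3 : ℂ))]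
      · rw [Finset.sum_const, nsmul_eq_mul, mul_comm]
      · intro i hi
        obtain ⟨hx, hy, hz, -⟩ := hT i hi
        unfold Pool.Agent.F0f91f8.HD.pc
        rw [h1.2.2.1 _ hx, h1.2.2.1 _ hy, h1.2.2.1 _ hz]
        simp
        norm_num
    rw [h3, mul_div_cancel_right₀ _ hcc]
    norm_num
  · intro r φ μ hs hsp
    have key : ∑ i, ∫ g, (Pool.Agent.F0f91f8.HD.Av w K M (Pool.Agent.F0f91f8.HD.pc (ev g))).re ∂(μ i)
        = (∑ s ∈ S, ∑ i, (φ i (X s) (Y s) + φ i (X s) (Z s) + φ i (Y s) (Z s))) / S.card := by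
      rw [Finset.sum_comm, Finset.sum_div]
      refine Finset.sum_congr rfl fun i _ => ?_
      haveI := (hsp i).fin
      simp only [hAv]
      have e1 : ∀ g : GG, ((∑ s ∈ S, Pool.Agent.F0f91f8.HD.pc (ev g) (X s) (Y s) (Z s)) /
          (S.card : ℂ)).re = (∑ s ∈ S, (Pool.Agent.F0f91f8.HD.pc (ev g) (X s) (Y s) (Z s)).re) /
            (S.card : ℝ) := by
        intro g
        have : (S.card : ℂ) = ((S.card : ℝ) : ℂ) := by push_cast; rfl
        rw [this, Complex.div_ofReal_re, Complex.re_sum]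
      simp only [e1]
      have hre : ∀ s : ι, Integrable (fun g : GG =>
          (Pool.Agent.F0f91f8.HD.pc (ev g) (X s) (Y s) (Z s)).re) (μ i) :=
        fun s => (pc_int h1 (μ i) (X s) (Y s) (Z s)).re
      rw [integral_div, integral_finsetSum _ fun s _ => hre s]
      congr 1
      refine Finset.sum_congr rfl fun s hs' => ?_
      obtain ⟨hx, hy, hz, -⟩ := hT s hs'
      have e2 := int_pc h1 (φ i) (μ i) (hs i) (hsp i) (X s) (Y s) (Z s) hx hy hz
      have e3 := integral_re (pc_int h1 (μ i) (X s) (Y s) (Z s))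
      rw [e2] at e3
      simpa using e3
    rw [key]
    obtain ⟨s, hsS, hle⟩ := Finset.exists_le_of_sum_le (s := S)
      (f := fun _ => (∑ s ∈ S, ∑ i, (φ i (X s) (Y s) + φ i (X s) (Z s) + φ i (Y s) (Z s))) / S.card)
      (g := fun s => ∑ i, (φ i (X s) (Y s) + φ i (X s) (Z s) + φ i (Y s) (Z s))) hS (by
        rw [Finset.sum_const, nsmul_eq_mul, mul_div_cancel₀ _ hc.ne'])
    obtain ⟨hx, hy, hz, hp⟩ := hT s hsS
    exact ⟨X s, Y s, Z s, hx, hy, hz, hp, hle⟩

end Pool.Agent.Work.MP_0f91f8_co.EF
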