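import Pool.Agent.Work.MP_0f91f8_co.EF.StmtsB

/-!
# MP_0f91f8_co, module E: item Bxf (the boxes `HD.Box` are a multiplicative Foelner sequence)

The proof follows item Fol (helper16).
-/

set_option autoImplicit false

open Filter Topology MeasureTheory

noncomputable section

namespace Pool.Agent.Work.MP_0f91f8_co.EF

open Pool.Agent.Work.MP_0f91f8_co.COL

namespace XBxf

/-- The sets. -/
def FF (j : ℕ) : Finset ℕ := (primorial (j + 1) ^ j).divisors

/-- The number of elements leaving the set. -/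
def bad (j n : ℕ) : ℕ := ((FF j).filter fun k => n * k ∉ FF j).card

lemma prim_split (p j : ℕ) (hp : p.Prime) (h : p ≤ j) :
    ∃ R : ℕ, 0 < R ∧ p.Coprime R ∧ primorial j = p * R := by
  classical
  have hmem : p ∈ (Finset.range (j + 1)).filter Nat.Prime := by
    simp only [Finset.mem_filter, Finset.mem_range]
    exact ⟨by omega, hp⟩
  refine ⟨∏ q ∈ ((Finset.range (j + 1)).filter Nat.Prime).erase p, q, ?_, ?_, ?_⟩
  · apply Finset.prod_pos
    intro q hq
    have := (Finset.mem_filter.1 (Finset.mem_of_mem_erase hq)).2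
    exact this.pos
  · apply Nat.Coprime.prod_right
    intro q hq
    have hq1 := (Finset.mem_filter.1 (Finset.mem_of_mem_erase hq)).2
    exact (Nat.coprime_primes hp hq1).2 (Finset.ne_of_mem_erase hq).symm
  · unfold primorial
    exact (Finset.mul_prod_erase _ _ hmem).symm

lemma FF_ne (j : ℕ) : (FF j).Nonempty := by
  refine ⟨1, ?_⟩
  unfold FF
  rw [Nat.mem_divisors]
  exact ⟨one_dvd _, (pow_pos (primorial_pos (j + 1)) j).ne'⟩

lemma FF_pos (j a : ℕ) (h : a ∈ FF j) : 0 < a := Nat.pos_of_mem_divisors h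

lemma bad_prime (p j : ℕ) (hp : p.Prime) (hj : p ≤ j) : bad j p * (j + 1) = (FF j).card := by
  obtain ⟨R, hR, hco, hpr⟩ := prim_split p (j + 1) hp (by omega)
  have hj1 : 1 ≤ j := le_trans hp.one_lt.le hj
  obtain ⟨i, rfl⟩ : ∃ i, j = i + 1 := ⟨j - 1, by omega⟩
  have hM : primorial (i + 1 + 1) ^ (i + 1) = p ^ (i + 1) * R ^ (i + 1) := by rw [hpr, mul_pow]
  have hco' : ∀ t : ℕ, (p ^ t).Coprime (R ^ (i + 1)) := fun t => Nat.Coprime.pow _ _ hco
  have hcard : (FF (i + 1)).card = (i + 2) * (R ^ (i + 1)).divisors.card := by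
    unfold FF
    rw [hM, Nat.Coprime.card_divisors_mul (hco' _), Nat.divisors_prime_pow hp]
    simp
  have hgood : ((FF (i + 1)).filter fun k => p * k ∈ FF (i + 1)) = (p ^ i * R ^ (i + 1)).divisors := by
    ext k
    unfold FF
    rw [hM]
    simp only [Finset.mem_filter, Nat.mem_divisors]
    have hp0 : p ^ (i + 1) * R ^ (i + 1) ≠ 0 :=
      (Nat.mul_pos (pow_pos hp.pos _) (pow_pos hR _)).ne'
    have hp1 : p ^ i * R ^ (i + 1) ≠ 0 :=
      (Nat.mul_pos (pow_pos hp.pos _) (pow_pos hR _)).ne'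
    have e : p ^ (i + 1) * R ^ (i + 1) = p * (p ^ i * R ^ (i + 1)) := by ring
    constructor
    · rintro ⟨-, h, -⟩
      rw [e] at h
      exact ⟨Nat.dvd_of_mul_dvd_mul_left hp.pos h, hp1⟩
    · rintro ⟨h, -⟩
      refine ⟨⟨?_, hp0⟩, ?_, hp0⟩
      · rw [e]; exact Dvd.dvd.mul_left h p
      · rw [e]; exact Nat.mul_dvd_mul_left p h
  have hgc : ((FF (i + 1)).filter fun k => p * k ∈ FF (i + 1)).card
      = (i + 1) * (R ^ (i + 1)).divisors.card := by
    rw [hgood, Nat.Coprime.card_divisors_mul (hco' _), Nat.divisors_prime_pow hp]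
    simp
  have hsum := Finset.card_filter_add_card_filter_not (s := FF (i + 1))
    (fun k => p * k ∈ FF (i + 1))
  have hb : bad (i + 1) p = (R ^ (i + 1)).divisors.card := by
    have : bad (i + 1) p + (i + 1) * (R ^ (i + 1)).divisors.card
        = (i + 2) * (R ^ (i + 1)).divisors.card := by
      unfold bad
      rw [← hgc, ← hcard, add_comm]
      exact hsum
    nlinarith
  rw [hb, hcard]
  ring

lemma bad_one (j : ℕ) : bad j 1 = 0 := by
  unfold bad
  rw [Finset.card_eq_zero, Finset.filter_eq_empty_iff]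
  intro k hk
  simpa using hk

lemma bad_mul (j a b : ℕ) (ha : 0 < a) : bad j (a * b) ≤ bad j a + bad j b := by
  classical
  unfold bad
  have hsub : ((FF j).filter fun k => a * b * k ∉ FF j) ⊆
      ((FF j).filter fun k => a * k ∉ FF j) ∪
      ((FF j).filter fun k => a * k ∈ FF j ∧ b * (a * k) ∉ FF j) := by
    intro k hk
    rw [Finset.mem_filter] at hk
    rw [Finset.mem_union, Finset.mem_filter, Finset.mem_filter]
    by_cases h : a * k ∈ FF j
    · right
      refine ⟨hk.1, h, ?_⟩
      have : b * (a * k) = a * b * k := by ring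
      rw [this]
      exact hk.2
    · left
      exact ⟨hk.1, h⟩
  have h2 : ((FF j).filter fun k => a * k ∈ FF j ∧ b * (a * k) ∉ FF j).card ≤
      ((FF j).filter fun k => b * k ∉ FF j).card := by
    apply Finset.card_le_card_of_injOn (fun k => a * k)
    · intro k hk
      rw [Finset.mem_coe, Finset.mem_filter] at hk
      rw [Finset.mem_coe, Finset.mem_filter]
      exact hk.2
    · intro x _ y _ hxy
      exact Nat.eq_of_mul_eq_mul_left ha hxy
  calc _ ≤ _ := Finset.card_le_card hsub
    _ ≤ _ := Finset.card_union_le _ _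
    _ ≤ _ := by omega

lemma bad_lim (n : ℕ) : 0 < n →
    Tendsto (fun j => (bad j n : ℝ) / ((FF j).card : ℝ)) atTop (𝓝 0) := by
  induction n using Nat.recOnMul with
  | zero => intro h; exact absurd h (lt_irrefl 0)
  | one =>
    intro _
    simp [bad_one]
  | prime p hp =>
    intro _
    have h1 : Tendsto (fun j : ℕ => 1 / ((j : ℝ) + 1)) atTop (𝓝 0) :=
      tendsto_one_div_add_atTop_nhds_zero_nat
    refine h1.congr' ?_
    filter_upwards [eventually_ge_atTop p] with j hj
    have h := bad_prime p j hp hj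
    have hc : (0 : ℝ) < ((FF j).card : ℝ) := by
      exact_mod_cast Finset.card_pos.2 (FF_ne j)
    have hR : (bad j p : ℝ) * ((j : ℝ) + 1) = ((FF j).card : ℝ) := by exact_mod_cast h
    rw [div_eq_div_iff (by positivity) hc.ne']
    linarith
  | mul a b iha ihb =>
    intro hab
    have ha : 0 < a := Nat.pos_of_mul_pos_right hab
    have hb : 0 < b := Nat.pos_of_mul_pos_left hab
    have hs := (iha ha).add (ihb hb)
    rw [add_zero] at hs
    refine squeeze_zero (fun j => by positivity) (fun j => ?_) hs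
    rw [← add_div]
    have : (bad j (a * b) : ℝ) ≤ (bad j a : ℝ) + (bad j b : ℝ) := by
      exact_mod_cast bad_mul j a b ha
    gcongr

lemma FF_lim (n : ℕ) (hn : 0 < n) :
    Tendsto (fun j => (((FF j).filter fun k => n * k ∈ FF j).card : ℝ) / ((FF j).card : ℝ))
      atTop (𝓝 1) := by
  have h := bad_lim n hn
  have h1 : Tendsto (fun j => 1 - (bad j n : ℝ) / ((FF j).card : ℝ)) atTop (𝓝 (1 - 0)) :=
    tendsto_const_nhds.sub h
  rw [sub_zero] at h1
  refine h1.congr ?_
  intro j
  have hc : (0 : ℝ) < ((FF j).card : ℝ) := by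
    exact_mod_cast Finset.card_pos.2 (FF_ne j)
  have hsum := Finset.card_filter_add_card_filter_not (s := FF j) (fun k => n * k ∈ FF j)
  have hR : (((FF j).filter fun k => n * k ∈ FF j).card : ℝ) + (bad j n : ℝ)
      = ((FF j).card : ℝ) := by
    unfold bad
    exact_mod_cast hsum
  rw [eq_div_iff hc.ne', sub_mul, one_mul, div_mul_cancel₀ _ hc.ne']
  linarith

/-! ### The boxes -/

lemma prod_fin (R : ℕ) (g : ℕ → ℕ) :
    (∏ p : Fin (R + 1), if (p : ℕ).Prime then (p : ℕ) ^ g p else 1) =
      ∏ p ∈ (Finset.range (R + 1)).filter Nat.Prime, p ^ g p := by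
  rw [Fin.prod_univ_eq_prod_range (fun p => if p.Prime then p ^ g p else 1) (R + 1),
    Finset.prod_filter]

lemma fac_le {p j k : ℕ} (hp : p.Prime) (hpj : p ≤ j + 1) (hk : k ∣ primorial (j + 1) ^ j) :
    k.factorization p ≤ j := by
  obtain ⟨R, hR, hco, hpr⟩ := prim_split p (j + 1) hp hpj
  have h0 : primorial (j + 1) ^ j ≠ 0 := (pow_pos (primorial_pos (j + 1)) j).ne'
  have h1 : k.factorization ≤ (primorial (j + 1) ^ j).factorization :=
    (Nat.factorization_le_iff_dvd (ne_zero_of_dvd_ne_zero h0 hk) h0).2 hk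
  have h2 := h1 p
  have h3 : R.factorization p = 0 :=
    Nat.factorization_eq_zero_of_not_dvd fun hd =>
      hp.one_lt.ne' (Nat.dvd_one.1 (hco.gcd_eq_one ▸ Nat.dvd_gcd dvd_rfl hd))
  have h4 : (primorial (j + 1) ^ j).factorization p = j := by
    rw [Nat.factorization_pow, hpr, Nat.factorization_mul hp.ne_zero hR.ne']
    simp [h3, hp.factorization_self]
  omega

lemma box_eq (j : ℕ) : Pool.Agent.F0f91f8.HD.Box (j + 1) = FF j := by
  classical
  ext k
  unfold Pool.Agent.F0f91f8.HD.Box FF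
  rw [Finset.mem_image, Nat.mem_divisors]
  have h0 : primorial (j + 1) ^ j ≠ 0 := (pow_pos (primorial_pos (j + 1)) j).ne'
  constructor
  · rintro ⟨e, -, rfl⟩
    refine ⟨?_, h0⟩
    have h1 : primorial (j + 1) ^ j =
        ∏ p : Fin (j + 1 + 1), if (p : ℕ).Prime then (p : ℕ) ^ j else 1 := by
      rw [prod_fin (j + 1) (fun _ => j), Finset.prod_pow]
      rfl
    rw [h1]
    refine Finset.prod_dvd_prod_of_dvd _ _ fun p _ => ?_
    split_ifs
    · exact pow_dvd_pow _ (by have := (e p).2; omega)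
    · exact dvd_rfl
  · rintro ⟨hk, -⟩
    have hk0 : k ≠ 0 := ne_zero_of_dvd_ne_zero h0 hk
    have hlt : ∀ p : Fin (j + 1 + 1), k.factorization p < j + 1 := by
      intro p
      by_cases hp : (p : ℕ).Prime
      · have := fac_le hp (by have := p.2; omega) hk
        omega
      · rw [Nat.factorization_eq_zero_of_not_prime _ hp]
        omega
    refine ⟨fun p => ⟨k.factorization p, hlt p⟩, Finset.mem_univ _, ?_⟩
    change (∏ p : Fin (j + 1 + 1), if (p : ℕ).Prime then (p : ℕ) ^ (k.factorization p) else 1) = k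
    rw [prod_fin (j + 1) (fun p => k.factorization p)]
    conv_rhs => rw [← Nat.prod_factorization_pow_eq_self hk0]
    symm
    refine Finsupp.prod_of_support_subset _ ?_ _ fun _ _ => pow_zero _
    intro p hp
    rw [Nat.support_factorization, Nat.mem_primeFactors] at hp
    have hpd : p ∣ primorial (j + 1) := hp.1.dvd_of_dvd_pow (hp.2.1.trans hk)
    unfold primorial at hpd
    obtain ⟨q, hq, hpq⟩ := (Prime.dvd_finsetProd_iff hp.1.prime _).1 hpd
    have hq2 := (Finset.mem_filter.1 hq).2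
    rw [(Nat.prime_dvd_prime_iff_eq hp.1 hq2).1 hpq]
    exact hq

end XBxf

open XBxf in
theorem Bxf_pf : S_Bxf := by
  refine ⟨fun R hR => ?_, fun n hn => ?_⟩
  · obtain ⟨j, rfl⟩ : ∃ j, R = j + 1 := ⟨R - 1, by omega⟩
    rw [box_eq]
    exact ⟨FF_ne j, fun k hk => FF_pos j k hk⟩
  · rw [← tendsto_add_atTop_iff_nat 1]
    have h := FF_lim n hn
    refine h.congr fun j => ?_
    rw [box_eq]

end Pool.Agent.Work.MP_0f91f8_co.EF
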