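import Pool.Agent.Work.MP_0f91f8_co.EF.Stmts

/-!
# MP_0f91f8_co, collision theorem, part (D): averages of characters over Foelner sets
-/

set_option autoImplicit false

open Filter Topology MeasureTheory

noncomputable section

namespace Pool.Agent.Work.MP_0f91f8_co.EF

open Pool.Agent.Work.MP_0f91f8_co.COL

namespace XChr

lemma norm_le {f : ℕ → ℂ} (hf : IsCM f) (n : ℕ) : ‖f n‖ ≤ 1 := by
  rcases Nat.eq_zero_or_pos n with h | h
  · rw [h, hf.zero, norm_zero]
    exact zero_le_one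
  · rw [hf.norm n h]

lemma sum_norm_le {f : ℕ → ℂ} (hf : IsCM f) (k : ℕ) (G : Finset ℕ) :
    ‖∑ a ∈ G, f (k * a)‖ ≤ (G.card : ℝ) := by
  refine (norm_sum_le _ _).trans ?_
  calc ∑ a ∈ G, ‖f (k * a)‖ ≤ ∑ _a ∈ G, (1 : ℝ) := Finset.sum_le_sum fun a _ => norm_le hf _
    _ = G.card := by simp

/-- The effect of a dilation on the sum of a multiplicative function over a finite set. -/
lemma dil_le {f : ℕ → ℂ} (hf : IsCM f) {p : ℕ} (hp : 0 < p) (F : Finset ℕ) :
    ‖f p - 1‖ * ‖∑ a ∈ F, f a‖ ≤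
      2 * ((F.card : ℝ) - ((F.filter fun k => p * k ∈ F).card : ℝ)) := by
  classical
  set G := F.filter fun k => p * k ∈ F with hG
  have hGF : G ⊆ F := Finset.filter_subset _ _
  have hinj : Set.InjOn (fun k : ℕ => p * k) (G : Set ℕ) := fun a _ b _ h =>
    Nat.eq_of_mul_eq_mul_left hp h
  set H := G.image (fun k : ℕ => p * k) with hH
  have hHF : H ⊆ F := by
    intro b hb
    obtain ⟨a, ha, rfl⟩ := Finset.mem_image.1 hb
    exact (Finset.mem_filter.1 ha).2
  have hcard : H.card = G.card := Finset.card_image_of_injOn hinj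
  have e1 : f p * ∑ a ∈ F, f a = ∑ a ∈ F, f (p * a) := by
    rw [Finset.mul_sum]
    exact Finset.sum_congr rfl fun a _ => (hf.mul p a).symm
  have e2 : ∑ a ∈ F, f (p * a) = ∑ a ∈ F \ G, f (p * a) + ∑ a ∈ G, f (p * a) :=
    (Finset.sum_sdiff hGF).symm
  have e3 : ∑ a ∈ F, f a = ∑ a ∈ F \ H, f a + ∑ a ∈ H, f a := (Finset.sum_sdiff hHF).symm
  have e4 : ∑ a ∈ H, f a = ∑ a ∈ G, f (p * a) := Finset.sum_image hinj
  have e5 : (f p - 1) * ∑ a ∈ F, f a = ∑ a ∈ F \ G, f (p * a) - ∑ a ∈ F \ H, f a := by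
    rw [sub_mul, one_mul, e1, e2, e3, e4]
    ring
  have c1 : ((F \ G).card : ℝ) = F.card - G.card := by
    rw [Finset.card_sdiff_of_subset hGF, Nat.cast_sub (Finset.card_le_card hGF)]
  have c2 : ((F \ H).card : ℝ) = F.card - G.card := by
    rw [Finset.card_sdiff_of_subset hHF, Nat.cast_sub (Finset.card_le_card hHF), hcard]
  rw [← norm_mul, e5]
  have n1 := sum_norm_le hf p (F \ G)
  have n2 := sum_norm_le hf 1 (F \ H)
  simp only [one_mul] at n2
  calc ‖∑ a ∈ F \ G, f (p * a) - ∑ a ∈ F \ H, f a‖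
      ≤ ‖∑ a ∈ F \ G, f (p * a)‖ + ‖∑ a ∈ F \ H, f a‖ := norm_sub_le _ _
    _ ≤ ((F.card : ℝ) - G.card) + ((F.card : ℝ) - G.card) := by
        rw [← c1]
        refine add_le_add n1 ?_
        rw [c1, ← c2]
        exact n2
    _ = 2 * ((F.card : ℝ) - (G.card : ℝ)) := by ring

end XChr

open XChr in
theorem Chr_pf (h1 : S_Ev) : S_Chr := by
  obtain ⟨hcm, -, hone, hne, -, -⟩ := h1
  intro F hF g
  have hc : ∀ j, (0 : ℝ) < ((F j).card : ℝ) := fun j => by
    exact_mod_cast Finset.card_pos.2 (hF.ne j)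
  by_cases hg : g = 1
  · subst hg
    rw [Set.indicator_of_mem (Set.mem_singleton _)]
    refine tendsto_const_nhds.congr fun j => ?_
    have e : ∑ a ∈ F j, ev 1 a = ((F j).card : ℂ) := by
      rw [Finset.sum_congr rfl fun a ha => hone a (hF.pos j a ha)]
      simp
    rw [e, Complex.norm_natCast, div_self]
    exact pow_ne_zero _ (hc j).ne'
  · rw [Set.indicator_of_notMem (by simpa using hg)]
    obtain ⟨p, hp, hz⟩ := hne g hg
    have hz0 : 0 < ‖ev g p - 1‖ := norm_pos_iff.2 (sub_ne_zero.2 hz)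
    have hlim := hF.lim p hp.pos
    have hl2 : Tendsto (fun j => 2 * (1 - (((F j).filter fun k => p * k ∈ F j).card : ℝ) /
        ((F j).card : ℝ)) / ‖ev g p - 1‖) atTop (𝓝 0) := by
      have := ((tendsto_const_nhds (x := (1 : ℝ))).sub hlim).const_mul (2 : ℝ)
      have h3 := this.div_const ‖ev g p - 1‖
      simpa using h3
    have hl3 : Tendsto (fun j => ‖∑ a ∈ F j, ev g a‖ / ((F j).card : ℝ)) atTop (𝓝 0) := by
      refine squeeze_zero (fun j => by positivity) (fun j => ?_) hl2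
      have hd := dil_le (hcm g) hp.pos (F j)
      rw [div_le_div_iff₀ (hc j) hz0]
      have e : 2 * (1 - (((F j).filter fun k => p * k ∈ F j).card : ℝ) / ((F j).card : ℝ)) *
          ((F j).card : ℝ) =
          2 * (((F j).card : ℝ) - (((F j).filter fun k => p * k ∈ F j).card : ℝ)) := by
        have := (hc j).ne'
        field_simp
      rw [e, mul_comm]
      exact hd
    have hl4 := hl3.pow 2
    simp only [div_pow] at hl4
    simpa using hl4

end Pool.Agent.Work.MP_0f91f8_co.EF
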