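import Pool.Agent.Work.MP_0f91f8_co.EF.Stmts

/-!
# MP_0f91f8_co, collision theorem, ergodic frame, item Cnt
-/

set_option autoImplicit false

open Filter Topology MeasureTheory

namespace Pool.Agent.Work.MP_0f91f8_co.EF

open Pool.Agent.Work.MP_0f91f8_co.COL

namespace XCnt

theorem upper (F : Finset ℕ) (a b : ℕ) (ha : 0 < a) :
    ((F ×ˢ F).filter fun k : ℕ × ℕ => a * k.2 = b * k.1).card ≤ F.card := by
  refine Finset.card_le_card_of_injOn Prod.fst ?_ ?_
  · intro p hp
    exact (Finset.mem_product.1 (Finset.mem_filter.1 (Finset.mem_coe.1 hp)).1).1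
  · intro p hp q hq hpq
    have h1 := (Finset.mem_filter.1 (Finset.mem_coe.1 hp)).2
    have h2 := (Finset.mem_filter.1 (Finset.mem_coe.1 hq)).2
    refine Prod.ext hpq ?_
    rw [hpq, ← h2] at h1
    exact Nat.eq_of_mul_eq_mul_left ha h1

theorem lower (F : Finset ℕ) (a b : ℕ) (ha : 0 < a) :
    (F.filter fun k => a * k ∈ F).card + (F.filter fun k => b * k ∈ F).card ≤
      ((F ×ˢ F).filter fun k : ℕ × ℕ => a * k.2 = b * k.1).card + F.card := by
  have h1 : ((F.filter fun k => a * k ∈ F) ∩ (F.filter fun k => b * k ∈ F)).card ≤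
      ((F ×ˢ F).filter fun k : ℕ × ℕ => a * k.2 = b * k.1).card := by
    refine Finset.card_le_card_of_injOn (fun k => (a * k, b * k)) ?_ ?_
    · intro k hk
      have hk' := Finset.mem_inter.1 (Finset.mem_coe.1 hk)
      refine Finset.mem_coe.2 (Finset.mem_filter.2 ⟨Finset.mem_product.2
        ⟨(Finset.mem_filter.1 hk'.1).2, (Finset.mem_filter.1 hk'.2).2⟩, ?_⟩)
      simp only
      ring
    · intro k _ l _ hkl
      have h2 : a * k = a * l := (Prod.mk.inj hkl).1
      exact Nat.eq_of_mul_eq_mul_left ha h2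
  have h2 : ((F.filter fun k => a * k ∈ F) ∪ (F.filter fun k => b * k ∈ F)).card ≤ F.card :=
    Finset.card_le_card (Finset.union_subset (Finset.filter_subset _ _) (Finset.filter_subset _ _))
  have h3 := Finset.card_union_add_card_inter (F.filter fun k => a * k ∈ F)
    (F.filter fun k => b * k ∈ F)
  omega

end XCnt

theorem Cnt_pf : S_Cnt := by
  intro F hF a b ha hb
  have h1 := ((hF.lim a ha).add (hF.lim b hb)).sub_const 1
  have h2 : (1 : ℝ) + 1 - 1 = 1 := by norm_num
  rw [h2] at h1
  refine tendsto_of_tendsto_of_tendsto_of_le_of_le h1 tendsto_const_nhds (fun j => ?_) (fun j => ?_)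
  · have hpos : (0 : ℝ) < (F j).card := by exact_mod_cast (hF.ne j).card_pos
    have h3 : ((((F j).filter fun k => a * k ∈ F j).card : ℝ) +
        (((F j).filter fun k => b * k ∈ F j).card : ℝ)) ≤
        ((((F j) ×ˢ (F j)).filter fun k : ℕ × ℕ => a * k.2 = b * k.1).card : ℝ) +
          ((F j).card : ℝ) := by
      exact_mod_cast XCnt.lower (F j) a b ha
    unfold ct
    simp only
    rw [← add_div, sub_le_iff_le_add, div_add_one hpos.ne', div_le_div_iff_of_pos_right hpos]
    exact h3
  · have hpos : (0 : ℝ) < (F j).card := by exact_mod_cast (hF.ne j).card_pos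
    unfold ct
    rw [div_le_one hpos]
    exact_mod_cast XCnt.upper (F j) a b ha

end Pool.Agent.Work.MP_0f91f8_co.EF
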