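import Pool.Agent.Work.MP_0f91f8_co.EF.StmtsB

/-!
# MP_0f91f8_co, collision theorem, module E, item Cou: counting
-/

set_option autoImplicit false

open Filter Topology MeasureTheory

noncomputable section

namespace Pool.Agent.Work.MP_0f91f8_co.EF

open Pool.Agent.Work.MP_0f91f8_co.COL

namespace XCou

variable {Ω : Type} {μ : Set Ω → ℝ}

theorem fa_empty (h : IsFA μ) : μ ∅ = 0 := by
  have h1 := h.union ∅ ∅ (Set.disjoint_empty _)
  rw [Set.union_empty] at h1
  linarith

theorem fa_mono (h : IsFA μ) {A B : Set Ω} (hAB : A ⊆ B) : μ A ≤ μ B := by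
  have h1 := h.union A (B \ A) Set.disjoint_sdiff_right
  rw [Set.union_sdiff_cancel hAB] at h1
  have h2 := h.nonneg (B \ A)
  linarith

theorem fa_sum (h : IsFA μ) {ι : Type} [DecidableEq ι] (s : Finset ι) (A : ι → Set Ω)
    (hd : ∀ i j, i ≠ j → Disjoint (A i) (A j)) :
    ∑ i ∈ s, μ (A i) = μ (⋃ i ∈ s, A i) := by
  induction s using Finset.induction_on with
  | empty => simp [fa_empty h]
  | insert a s ha ih =>
    rw [Finset.sum_insert ha, ih, Finset.set_biUnion_insert, h.union]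
    refine Set.disjoint_iUnion₂_right.2 fun j hj => hd a j ?_
    rintro rfl
    exact ha hj

theorem two (h : IsFA μ) {A B C : Set Ω} (hABC : A ∩ B ∩ C = ∅) :
    μ (A ∩ B) + μ (A ∩ C) ≤ μ A := by
  have hdis : Disjoint (A ∩ B) (A ∩ C) := by
    rw [Set.disjoint_left]
    intro x hx hx'
    have : x ∈ A ∩ B ∩ C := ⟨hx, hx'.2⟩
    rw [hABC] at this
    exact this
  rw [← h.union _ _ hdis]
  exact fa_mono h (Set.union_subset Set.inter_subset_left Set.inter_subset_left)

end XCou

theorem Cou_pf : S_Cou := by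
  intro Ω μ h r X Y Z hX hY hZ hXYZ
  have e1 : ∀ i, Y i ∩ X i ∩ Z i = ∅ := fun i => by
    rw [Set.inter_comm (Y i) (X i)]; exact hXYZ i
  have e2 : ∀ i, Z i ∩ X i ∩ Y i = ∅ := fun i => by
    rw [Set.inter_assoc, Set.inter_comm (Z i)]; exact hXYZ i
  constructor
  · have hU : ∀ i, μ (X i ∩ Y i) + μ (X i ∩ Z i) + μ (Y i ∩ Z i) =
        μ (X i ∩ Y i ∪ X i ∩ Z i ∪ Y i ∩ Z i) := by
      intro i
      have hno : ∀ x, x ∈ X i → x ∈ Y i → x ∈ Z i → False := by
        intro x h1 h2 h3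
        have : x ∈ X i ∩ Y i ∩ Z i := ⟨⟨h1, h2⟩, h3⟩
        rw [hXYZ i] at this
        exact this
      have d1 : Disjoint (X i ∩ Y i) (X i ∩ Z i) := by
        rw [Set.disjoint_left]
        exact fun x hx hx' => hno x hx.1 hx.2 hx'.2
      have d2 : Disjoint (X i ∩ Y i ∪ X i ∩ Z i) (Y i ∩ Z i) := by
        rw [Set.disjoint_left]
        rintro x (hx | hx) hx'
        · exact hno x hx.1 hx.2 hx'.2
        · exact hno x hx.1 hx'.1 hx.2
      rw [h.union _ _ d2, h.union _ _ d1]
    rw [Finset.sum_congr rfl fun i _ => hU i,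
      XCou.fa_sum h Finset.univ (fun i => X i ∩ Y i ∪ X i ∩ Z i ∪ Y i ∩ Z i), ← h.univ]
    · exact XCou.fa_mono h (Set.subset_univ _)
    · intro i j hij
      have dX := Set.disjoint_left.1 (hX i j hij)
      have dY := Set.disjoint_left.1 (hY i j hij)
      have dZ := Set.disjoint_left.1 (hZ i j hij)
      rw [Set.disjoint_left]
      rintro x ((hx | hx) | hx) ((hx' | hx') | hx')
      · exact dX hx.1 hx'.1
      · exact dX hx.1 hx'.1
      · exact dY hx.2 hx'.1
      · exact dX hx.1 hx'.1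
      · exact dX hx.1 hx'.1
      · exact dZ hx.2 hx'.2
      · exact dY hx.1 hx'.2
      · exact dZ hx.2 hx'.2
      · exact dY hx.1 hx'.1
  · rw [Finset.mul_sum]
    refine Finset.sum_le_sum fun i _ => ?_
    have h1 := XCou.two h (hXYZ i)
    have h2 := XCou.two h (e1 i)
    have h3 := XCou.two h (e2 i)
    rw [Set.inter_comm (Y i) (X i)] at h2
    rw [Set.inter_comm (Z i) (X i), Set.inter_comm (Z i) (Y i)] at h3
    linarith

end Pool.Agent.Work.MP_0f91f8_co.EF
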