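import Pool.Agent.Work.MP_0f91f8_co.EF.Stmts

/-!
# MP_0f91f8_co, collision theorem, item Fat: nested reverse Fatou
-/

set_option autoImplicit false

open Filter Topology MeasureTheory

noncomputable section

namespace Pool.Agent.Work.MP_0f91f8_co.EF

open Pool.Agent.Work.MP_0f91f8_co.COL
open scoped ENNReal

namespace XFat

/-- one parameter -/
theorem step (μ : Measure GG) [IsFiniteMeasure μ] (h : ℕ → GG → ℝ≥0∞) (c a : ℝ≥0∞) (hc : c ≠ ∞)
    (hm : ∀ n, Measurable (h n)) (hb : ∀ n g, h n g ≤ c)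
    (hl : ∫⁻ g, limsup (fun n => h n g) atTop ∂μ < a) : ∃ n, ∫⁻ g, h n g ∂μ < a := by
  have h1 := limsup_lintegral_le (μ := μ) (f := h) (fun _ => c) hm
    (fun n => ae_of_all _ (hb n))
    (by rw [lintegral_const]; exact ENNReal.mul_ne_top hc (measure_ne_top μ _))
  exact (eventually_lt_of_limsup_lt (h1.trans_lt hl)).exists

end XFat

open XFat in
/-- nested reverse Fatou -/
theorem Fat_pf : S_Fat := by
  intro μ _ F C hF hC hlim ε hε
  set h : ℕ → ℕ → ℕ → GG → ℝ≥0∞ := fun K B N g => ENNReal.ofReal (-F K B N g) with hh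
  have hhm : ∀ K B N, Measurable (h K B N) := fun K B N => ((hF K B N).neg).ennreal_ofReal
  set c : ℝ≥0∞ := ENNReal.ofReal C with hc
  have hct : c ≠ ∞ := ENNReal.ofReal_ne_top
  have hhb : ∀ K B N g, h K B N g ≤ c := fun K B N g =>
    ENNReal.ofReal_le_ofReal ((neg_le_abs _).trans (hC K B N g))
  set h₂ : ℕ → ℕ → GG → ℝ≥0∞ := fun K B g => limsup (fun N => h K B N g) atTop with hh₂
  have h₂m : ∀ K B, Measurable (h₂ K B) := fun K B => Measurable.limsup (hhm K B)
  have h₂b : ∀ K B g, h₂ K B g ≤ c := fun K B g =>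
    limsup_le_of_le (h := Eventually.of_forall fun N => hhb K B N g)
  set h₁ : ℕ → GG → ℝ≥0∞ := fun K g => limsup (fun B => h₂ K B g) atTop with hh₁
  have h₁m : ∀ K, Measurable (h₁ K) := fun K => Measurable.limsup (h₂m K)
  have h₁b : ∀ K g, h₁ K g ≤ c := fun K g =>
    limsup_le_of_le (h := Eventually.of_forall fun B => h₂b K B g)
  have h₀ : ∀ g, limsup (fun K => h₁ K g) atTop = 0 := by
    intro g
    refine le_antisymm ?_ bot_le
    refine ENNReal.le_of_forall_pos_le_add fun e he _ => ?_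
    rw [zero_add]
    have h1 := hlim g e (by exact_mod_cast he)
    refine limsup_le_of_le (h := h1.mono fun K hK => ?_)
    refine limsup_le_of_le (h := hK.mono fun B hB => ?_)
    refine limsup_le_of_le (h := hB.mono fun N hN => ?_)
    calc ENNReal.ofReal (-F K B N g) ≤ ENNReal.ofReal (e : ℝ) :=
          ENNReal.ofReal_le_ofReal (by linarith)
      _ = e := ENNReal.ofReal_coe_nnreal
  have ha : (0 : ℝ≥0∞) < ENNReal.ofReal ε := ENNReal.ofReal_pos.2 hε
  obtain ⟨K, hK⟩ := step μ h₁ c (ENNReal.ofReal ε) hct h₁m h₁b (by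
    simp only [h₀, lintegral_zero]
    exact ha)
  obtain ⟨B, hB⟩ := step μ (h₂ K) c (ENNReal.ofReal ε) hct (h₂m K) (h₂b K) hK
  obtain ⟨N, hN⟩ := step μ (h K B) c (ENNReal.ofReal ε) hct (hhm K B) (hhb K B) hB
  refine ⟨K, B, N, ?_⟩
  have hint : Integrable (F K B N) μ :=
    Integrable.of_bound (hF K B N).aestronglyMeasurable C
      (ae_of_all _ fun g => by rw [Real.norm_eq_abs]; exact hC K B N g)
  rw [integral_eq_lintegral_pos_part_sub_lintegral_neg_part hint]
  have h2 : (∫⁻ g, ENNReal.ofReal (-F K B N g) ∂μ).toReal ≤ ε := by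
    refine ENNReal.toReal_le_of_le_ofReal hε.le ?_
    exact hN.le
  have h3 : 0 ≤ (∫⁻ g, ENNReal.ofReal (F K B N g) ∂μ).toReal := ENNReal.toReal_nonneg
  linarith

end Pool.Agent.Work.MP_0f91f8_co.EF
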