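import Pool.Agent.Work.MP_0f91f8_co.EF.StmtsB

/-!
# MP_0f91f8_co, collision theorem, item Fnl: the finite form from the process form
-/

set_option autoImplicit false

open Filter Topology MeasureTheory

noncomputable section

namespace Pool.Agent.Work.MP_0f91f8_co.EF

open Pool.Agent.Work.MP_0f91f8_co.COL
open Pool.Agent.F0f91f8

/-- the finite form from the process form -/
theorem Fnl_pf (h1 : S_Big) (h2 : S_Ulm) (h3 : S_Bxf) : S_Fnl := by
  intro hP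
  apply h1
  intro ε r hε
  by_contra hcon
  have hcon' : ∀ R₀ : ℕ, ∃ R ≥ R₀, ∃ A : Fin r → Finset ℕ, (∀ i, A i ⊆ HD.Box R) ∧
      (∀ i j, i ≠ j → Disjoint (A i) (A j)) ∧
      ((1 / 3 + ε) * ((HD.Box R).card : ℝ) ^ 2 ≤ ∑ i, ((A i).card : ℝ) ^ 2 ∨
      (1 / 2 * ∑ i, ((A i).card : ℝ) * (HD.Box R).card +
        ε * ((HD.Box R).card : ℝ) ^ 2 ≤ ∑ i, ((A i).card : ℝ) ^ 2)) ∧
      ¬ ∃ i, ∃ x ∈ A i, ∃ y ∈ A i, ∃ z ∈ A i, x ^ 2 + y ^ 2 = z ^ 2 := by
    intro R₀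
    by_contra hno
    apply hcon
    refine ⟨R₀, fun R hR A a1 a2 a3 => ?_⟩
    by_contra a4
    exact hno ⟨R, hR, A, a1, a2, a3, a4⟩
  choose R hR A hA hD hdens hno using fun j : ℕ => hcon' (j + 1)
  have hR1 : ∀ j, 1 ≤ R j := fun j => le_trans (Nat.le_add_left 1 j) (hR j)
  have hRt : Tendsto R atTop atTop :=
    tendsto_atTop_mono (fun j => le_trans (Nat.le_succ j) (hR j)) tendsto_id
  obtain ⟨U, μ, d, hU, hFA, hd, hE, hinv⟩ := h2 r R A hRt hR1 hA
  obtain ⟨b1, b2⟩ := hP (ℕ × ℕ) μ hFA.nonneg hFA.univ hFA.union r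
    (fun i n => {p | (n : ℕ) * p.2 ∈ A p.1 i}) d
    (fun n i j hij => Set.disjoint_left.2 fun p hp hp' =>
      (Finset.disjoint_left.1 (hD p.1 i j hij)) hp hp')
    (fun i n => hE i n n.pos)
    (fun i k a b => by
      have := hinv i k a b k.pos a.pos b.pos
      simpa only [PNat.mul_coe] using this)
    (fun i x y z hxyz => by
      rw [Set.eq_empty_iff_forall_notMem]
      rintro p ⟨⟨hx, hy⟩, hz⟩
      refine hno p.1 ⟨i, _, hx, _, hy, _, hz, ?_⟩
      have h4 : (x : ℕ) ^ 2 + (y : ℕ) ^ 2 = (z : ℕ) ^ 2 := by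
        have := congrArg (fun n : ℕ+ => (n : ℕ)) hxyz
        simpa using this
      rw [mul_pow, mul_pow, mul_pow, ← add_mul, h4])
  -- pass to the limit
  have hF : ∀ j, (0 : ℝ) < ((HD.Box (R j)).card : ℝ) := fun j => by
    exact_mod_cast (h3.1 (R j) (hR1 j)).1.card_pos
  set a : ℕ → Fin r → ℝ := fun j i => ((A j i).card : ℝ) / ((HD.Box (R j)).card : ℝ) with ha
  have hs2 : Tendsto (fun j => ∑ i, a j i ^ 2) U (𝓝 (∑ i, d i ^ 2)) :=
    tendsto_finset_sum _ fun i _ => (hd i).pow 2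
  have hs1 : Tendsto (fun j => ∑ i, a j i) U (𝓝 (∑ i, d i)) :=
    tendsto_finset_sum _ fun i _ => hd i
  have e1 : ∀ᶠ j in (U : Filter ℕ), ∑ i, a j i ^ 2 < 1 / 3 + ε :=
    hs2.eventually_lt_const (by linarith)
  have e2 : ∀ᶠ j in (U : Filter ℕ), ∑ i, a j i ^ 2 - (∑ i, a j i) / 2 < ε :=
    (hs2.sub (hs1.div_const 2)).eventually_lt_const (by linarith)
  obtain ⟨j, c1, c2⟩ := (e1.and e2).exists
  have q2 : ∑ i, ((A j i).card : ℝ) ^ 2 = (∑ i, a j i ^ 2) * ((HD.Box (R j)).card : ℝ) ^ 2 := by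
    rw [Finset.sum_mul]
    refine Finset.sum_congr rfl fun i _ => ?_
    rw [ha]
    have := (hF j).ne'
    field_simp
  have q1 : ∑ i, ((A j i).card : ℝ) * ((HD.Box (R j)).card : ℝ) =
      (∑ i, a j i) * ((HD.Box (R j)).card : ℝ) ^ 2 := by
    rw [Finset.sum_mul]
    refine Finset.sum_congr rfl fun i _ => ?_
    rw [ha]
    have := (hF j).ne'
    field_simp
  have hFF : 0 < ((HD.Box (R j)).card : ℝ) ^ 2 := by
    have := hF j
    positivity
  rcases hdens j with h | h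
  · rw [q2] at h
    have := le_of_mul_le_mul_right h hFF
    linarith
  · rw [q2, q1] at h
    have h5 : (1 / 2 * (∑ i, a j i) + ε) * ((HD.Box (R j)).card : ℝ) ^ 2 ≤
        (∑ i, a j i ^ 2) * ((HD.Box (R j)).card : ℝ) ^ 2 := by
      linarith
    have := le_of_mul_le_mul_right h5 hFF
    linarith

end Pool.Agent.Work.MP_0f91f8_co.EF
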