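import Pool.Agent.Work.MP_0f91f8_co.EF.Stmts

/-!
# MP_0f91f8_co, collision theorem: item Fol (a multiplicative Foelner sequence)
-/

set_option autoImplicit false

open Filter Topology MeasureTheory

noncomputable section

namespace Pool.Agent.Work.MP_0f91f8_co.EF

open Pool.Agent.Work.MP_0f91f8_co.COL

namespace XFol

/-- The sets. -/
def FF (j : ℕ) : Finset ℕ := (primorial j ^ j).divisors

/-- The number of elements leaving the set. -/
def bad (j n : ℕ) : ℕ := ((FF j).filter fun k => n * k ∉ FF j).card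

lemma prim_split (p j : ℕ) (hp : p.Prime) (h : p ≤ j) :
    ∃ R : ℕ, 0 < R ∧ p.Coprime R ∧ primorial j = p * R := by
  classical
  have hmem : p ∈ (Finset.range (j + 1)).filter Nat.Prime := by
    simp only [Finset.mem_filter, Finset.mem_range]
    exact ⟨by omega, hp⟩
  refine ⟨∏ q ∈ ((Finset.range (j + 1)).filter Nat.Prime).erase p, q, ?_, ?_, ?_⟩
  · apply Finset.prod_pos
    intro q hq
    have := (Finset.mem_filter.1 (Finset.mem_of_mem_erase hq)).2
    exact this.pos
  · apply Nat.Coprime.prod_right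
    intro q hq
    have hq1 := (Finset.mem_filter.1 (Finset.mem_of_mem_erase hq)).2
    exact (Nat.coprime_primes hp hq1).2 (Finset.ne_of_mem_erase hq).symm
  · unfold primorial
    exact (Finset.mul_prod_erase _ _ hmem).symm

lemma FF_ne (j : ℕ) : (FF j).Nonempty := by
  refine ⟨1, ?_⟩
  unfold FF
  rw [Nat.mem_divisors]
  exact ⟨one_dvd _, (pow_pos (primorial_pos j) j).ne'⟩

lemma FF_pos (j a : ℕ) (h : a ∈ FF j) : 0 < a := Nat.pos_of_mem_divisors h

lemma bad_prime (p j : ℕ) (hp : p.Prime) (hj : p ≤ j) : bad j p * (j + 1) = (FF j).card := by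
  obtain ⟨R, hR, hco, hpr⟩ := prim_split p j hp hj
  have hj1 : 1 ≤ j := le_trans hp.one_lt.le hj
  obtain ⟨i, rfl⟩ : ∃ i, j = i + 1 := ⟨j - 1, by omega⟩
  have hM : primorial (i + 1) ^ (i + 1) = p ^ (i + 1) * R ^ (i + 1) := by rw [hpr, mul_pow]
  have hco' : ∀ t : ℕ, (p ^ t).Coprime (R ^ (i + 1)) := fun t => Nat.Coprime.pow _ _ hco
  have hcard : (FF (i + 1)).card = (i + 2) * (R ^ (i + 1)).divisors.card := by
    unfold FF
    rw [hM, Nat.Coprime.card_divisors_mul (hco' _), Nat.divisors_prime_pow hp]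
    simp
  have hgood : ((FF (i + 1)).filter fun k => p * k ∈ FF (i + 1)) = (p ^ i * R ^ (i + 1)).divisors := by
    ext k
    unfold FF
    rw [hM]
    simp only [Finset.mem_filter, Nat.mem_divisors]
    have hp0 : p ^ (i + 1) * R ^ (i + 1) ≠ 0 :=
      (Nat.mul_pos (pow_pos hp.pos _) (pow_pos hR _)).ne'
    have hp1 : p ^ i * R ^ (i + 1) ≠ 0 :=
      (Nat.mul_pos (pow_pos hp.pos _) (pow_pos hR _)).ne'
    have e : p ^ (i + 1) * R ^ (i + 1) = p * (p ^ i * R ^ (i + 1)) := by ring
    constructor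
    · rintro ⟨-, h, -⟩
      rw [e] at h
      exact ⟨Nat.dvd_of_mul_dvd_mul_left hp.pos h, hp1⟩
    · rintro ⟨h, -⟩
      refine ⟨⟨?_, hp0⟩, ?_, hp0⟩
      · rw [e]; exact Dvd.dvd.mul_left h p
      · rw [e]; exact Nat.mul_dvd_mul_left p h
  have hgc : ((FF (i + 1)).filter fun k => p * k ∈ FF (i + 1)).card
      = (i + 1) * (R ^ (i + 1)).divisors.card := by
    rw [hgood, Nat.Coprime.card_divisors_mul (hco' _), Nat.divisors_prime_pow hp]
    simp
  have hsum := Finset.card_filter_add_card_filter_not (s := FF (i + 1))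
    (fun k => p * k ∈ FF (i + 1))
  have hb : bad (i + 1) p = (R ^ (i + 1)).divisors.card := by
    have : bad (i + 1) p + (i + 1) * (R ^ (i + 1)).divisors.card
        = (i + 2) * (R ^ (i + 1)).divisors.card := by
      unfold bad
      rw [← hgc, ← hcard, add_comm]
      exact hsum
    nlinarith
  rw [hb, hcard]
  ring

lemma bad_one (j : ℕ) : bad j 1 = 0 := by
  unfold bad
  rw [Finset.card_eq_zero, Finset.filter_eq_empty_iff]
  intro k hk
  simpa using hk

lemma bad_mul (j a b : ℕ) (ha : 0 < a) : bad j (a * b) ≤ bad j a + bad j b := by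
  classical
  unfold bad
  have hsub : ((FF j).filter fun k => a * b * k ∉ FF j) ⊆
      ((FF j).filter fun k => a * k ∉ FF j) ∪
      ((FF j).filter fun k => a * k ∈ FF j ∧ b * (a * k) ∉ FF j) := by
    intro k hk
    rw [Finset.mem_filter] at hk
    rw [Finset.mem_union, Finset.mem_filter, Finset.mem_filter]
    by_cases h : a * k ∈ FF j
    · right
      refine ⟨hk.1, h, ?_⟩
      have : b * (a * k) = a * b * k := by ring
      rw [this]
      exact hk.2
    · left
      exact ⟨hk.1, h⟩
  have h2 : ((FF j).filter fun k => a * k ∈ FF j ∧ b * (a * k) ∉ FF j).card ≤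
      ((FF j).filter fun k => b * k ∉ FF j).card := by
    apply Finset.card_le_card_of_injOn (fun k => a * k)
    · intro k hk
      rw [Finset.mem_coe, Finset.mem_filter] at hk
      rw [Finset.mem_coe, Finset.mem_filter]
      exact hk.2
    · intro x _ y _ hxy
      exact Nat.eq_of_mul_eq_mul_left ha hxy
  calc _ ≤ _ := Finset.card_le_card hsub
    _ ≤ _ := Finset.card_union_le _ _
    _ ≤ _ := by omega

lemma bad_lim (n : ℕ) : 0 < n →
    Tendsto (fun j => (bad j n : ℝ) / ((FF j).card : ℝ)) atTop (𝓝 0) := by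
  induction n using Nat.recOnMul with
  | zero => intro h; exact absurd h (lt_irrefl 0)
  | one =>
    intro _
    simp [bad_one]
  | prime p hp =>
    intro _
    have h1 : Tendsto (fun j : ℕ => 1 / ((j : ℝ) + 1)) atTop (𝓝 0) :=
      tendsto_one_div_add_atTop_nhds_zero_nat
    refine h1.congr' ?_
    filter_upwards [eventually_ge_atTop p] with j hj
    have h := bad_prime p j hp hj
    have hc : (0 : ℝ) < ((FF j).card : ℝ) := by
      exact_mod_cast Finset.card_pos.2 (FF_ne j)
    have hR : (bad j p : ℝ) * ((j : ℝ) + 1) = ((FF j).card : ℝ) := by exact_mod_cast h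
    rw [div_eq_div_iff (by positivity) hc.ne']
    linarith
  | mul a b iha ihb =>
    intro hab
    have ha : 0 < a := Nat.pos_of_mul_pos_right hab
    have hb : 0 < b := Nat.pos_of_mul_pos_left hab
    have hs := (iha ha).add (ihb hb)
    rw [add_zero] at hs
    refine squeeze_zero (fun j => by positivity) (fun j => ?_) hs
    rw [← add_div]
    have : (bad j (a * b) : ℝ) ≤ (bad j a : ℝ) + (bad j b : ℝ) := by
      exact_mod_cast bad_mul j a b ha
    gcongr

end XFol

open XFol in
theorem Fol_pf : S_Fol := by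
  refine ⟨FF, FF_ne, fun j a h => FF_pos j a h, ?_⟩
  intro n hn
  have h := bad_lim n hn
  have h1 : Tendsto (fun j => 1 - (bad j n : ℝ) / ((FF j).card : ℝ)) atTop (𝓝 (1 - 0)) :=
    tendsto_const_nhds.sub h
  rw [sub_zero] at h1
  refine h1.congr ?_
  intro j
  have hc : (0 : ℝ) < ((FF j).card : ℝ) := by
    exact_mod_cast Finset.card_pos.2 (FF_ne j)
  have hsum := Finset.card_filter_add_card_filter_not (s := FF j) (fun k => n * k ∈ FF j)
  have hR : (((FF j).filter fun k => n * k ∈ FF j).card : ℝ) + (bad j n : ℝ)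
      = ((FF j).card : ℝ) := by
    unfold bad
    exact_mod_cast hsum
  rw [eq_div_iff hc.ne', sub_mul, one_mul, div_mul_cancel₀ _ hc.ne']
  linarith

end Pool.Agent.Work.MP_0f91f8_co.EF
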