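import Pool.Agent.Work.MP_0f91f8_co.EF.Stmts

/-!
# MP_0f91f8_co, collision theorem, item Haar: the Haar measure on the group of the completely
multiplicative functions
-/

set_option autoImplicit false

open Filter Topology MeasureTheory

noncomputable section

namespace Pool.Agent.Work.MP_0f91f8_co.EF

open Pool.Agent.Work.MP_0f91f8_co.COL

theorem Haar_pf (h : S_Ev) : S_Haar := by
  obtain ⟨hcm, hcont, hone, -, hmul, hdist⟩ := h
  obtain ⟨ν, hν⟩ : ∃ ν : Measure GG,
    ν = Measure.haarMeasure (⊤ : TopologicalSpace.PositiveCompacts GG) := ⟨_, rfl⟩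
  haveI : ν.IsHaarMeasure := by rw [hν]; infer_instance
  have hprob : IsProbabilityMeasure ν := by
    refine ⟨?_⟩
    have := Measure.haarMeasure_self (K₀ := (⊤ : TopologicalSpace.PositiveCompacts GG))
    rw [hν]
    exact this
  refine ⟨ν, hprob, fun a b ha hb => ?_⟩
  by_cases hab : a = b
  · rw [if_pos hab, hab]
    have h1 : ∀ g : GG, ev g b * (starRingEnd ℂ) (ev g b) = 1 := by
      intro g
      rw [Complex.mul_conj, Complex.normSq_eq_norm_sq, (hcm g).norm b hb]
      norm_num
    simp only [h1]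
    rw [integral_const, probReal_univ, one_smul]
  · rw [if_neg hab]
    obtain ⟨g₀, hg₀⟩ := hdist a b ha hb hab
    have h1 := integral_mul_left_eq_self (μ := ν)
      (fun g : GG => ev g a * (starRingEnd ℂ) (ev g b)) g₀
    have h2 : ∀ g : GG, ev (g₀ * g) a * (starRingEnd ℂ) (ev (g₀ * g) b) =
        (ev g₀ a * (starRingEnd ℂ) (ev g₀ b)) * (ev g a * (starRingEnd ℂ) (ev g b)) := by
      intro g
      rw [hmul, hmul, map_mul]
      ring
    simp only [h2] at h1
    rw [integral_const_mul] at h1
    have h3 : (ev g₀ a * (starRingEnd ℂ) (ev g₀ b) - 1) *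
        ∫ g, ev g a * (starRingEnd ℂ) (ev g b) ∂ν = 0 := by
      rw [sub_mul, h1, one_mul, sub_self]
    rcases mul_eq_zero.1 h3 with h4 | h4
    · exact absurd (sub_eq_zero.1 h4) hg₀
    · exact h4

end Pool.Agent.Work.MP_0f91f8_co.EF
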