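import Pool.Agent.Work.MP_0f91f8_co.EF.StmtsB

/-!
# MP_0f91f8_co, module E, item LiF: the spectral measure of a pair function (weak limit)
-/

set_option autoImplicit false

open Filter Topology MeasureTheory

noncomputable section

namespace Pool.Agent.Work.MP_0f91f8_co.EF

open Pool.Agent.Work.MP_0f91f8_co.COL

namespace XLiF

/-- The bounded continuous function `ev g a * conj (ev g b)`. -/
def bf (h1 : S_Ev) (a b : ℕ) : BoundedContinuousFunction GG ℂ :=
  BoundedContinuousFunction.mkOfCompact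
    ⟨fun g => ev g a * (starRingEnd ℂ) (ev g b),
      (h1.2.1 a).mul (Complex.continuous_conj.comp (h1.2.1 b))⟩

/-- Extraction of a weak limit along an ultrafilter. -/
theorem lim (M : ℕ → FiniteMeasure GG) (hM : ∀ j, (M j).mass ≤ 1) :
    ∃ (U : Ultrafilter ℕ) (ν : FiniteMeasure GG), (U : Filter ℕ) ≤ atTop ∧
      Tendsto M U (𝓝 ν) := by
  let U : Ultrafilter ℕ := Ultrafilter.of atTop
  have hU : (U : Filter ℕ) ≤ atTop := Ultrafilter.of_le _
  have hcpt := isCompact_setOfPred_finiteMeasure_le_of_compactSpace GG 1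
  have hle : ((U.map M : Ultrafilter (FiniteMeasure GG)) : Filter (FiniteMeasure GG)) ≤
      𝓟 {μ : FiniteMeasure GG | μ.mass ≤ 1} := by
    rw [le_principal_iff, Ultrafilter.coe_map, mem_map]
    exact Filter.Eventually.of_forall hM
  obtain ⟨ν, -, hν⟩ := hcpt.ultrafilter_le_nhds (U.map M) hle
  exact ⟨U, ν, hU, hν⟩

end XLiF

theorem LiF_pf (h1 : S_Ev) (h2 : S_Fol) (h3 : S_Cnt) (h4 : S_DeF) : S_LiF := by
  intro φ d hφ
  obtain ⟨F, hF⟩ := h2
  choose μ hμ1 hμ2 using fun j => h4 φ d hφ (F j) (hF.ne j) (hF.pos j)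
  have hfin : ∀ j, IsFiniteMeasure (μ j) :=
    fun j => ⟨lt_of_le_of_lt (hμ1 j) ENNReal.one_lt_top⟩
  let M : ℕ → FiniteMeasure GG := fun j => ⟨μ j, hfin j⟩
  have hM : ∀ j, (M j).mass ≤ 1 := by
    intro j
    rw [← ENNReal.coe_le_coe, FiniteMeasure.ennreal_mass]
    exact hμ1 j
  obtain ⟨U, ν, hU, hlim⟩ := XLiF.lim M hM
  refine ⟨(ν : Measure GG), inferInstance, ?_⟩
  intro a b ha hb
  have ht : Tendsto (fun j => ∫ g, XLiF.bf h1 a b g ∂(μ j)) U
      (𝓝 (∫ g, XLiF.bf h1 a b g ∂(ν : Measure GG))) :=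
    (FiniteMeasure.tendsto_iff_forall_integral_rclike_tendsto ℂ).1 hlim (XLiF.bf h1 a b)
  have h5 : (fun j => ∫ g, XLiF.bf h1 a b g ∂(μ j)) =
      fun j => ((φ a b * ct (F j) a b : ℝ) : ℂ) := by
    funext j
    exact hμ2 j a b ha hb
  rw [h5] at ht
  have ht2 : Tendsto (fun j => ((φ a b * ct (F j) a b : ℝ) : ℂ)) U (𝓝 ((φ a b : ℝ) : ℂ)) := by
    have h6 : Tendsto (fun j => φ a b * ct (F j) a b) U (𝓝 (φ a b * 1)) :=
      ((h3 F hF a b ha hb).mono_left hU).const_mul _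
    rw [mul_one] at h6
    exact (Complex.continuous_ofReal.tendsto _).comp h6
  exact tendsto_nhds_unique ht ht2

end Pool.Agent.Work.MP_0f91f8_co.EF
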