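import Pool.Agent.Work.MP_0f91f8_co.EF.StmtsB

/-!
# MP_0f91f8_co, collision theorem, module E: item Mea
-/

set_option autoImplicit false

open Filter Topology MeasureTheory

noncomputable section

namespace Pool.Agent.Work.MP_0f91f8_co.EF

open Pool.Agent.Work.MP_0f91f8_co.COL

namespace XMea

lemma m_empty {m : Set ℕ → ℝ} (h : IsInvMean m) : m ∅ = 0 := by
  have h1 := h.union ∅ ∅ (Set.disjoint_empty _)
  rw [Set.union_empty] at h1
  linarith

lemma m_pos {m : Set ℕ → ℝ} (h : IsInvMean m) (B : Set ℕ) : m {k | 0 < k ∧ k ∈ B} = m B := by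
  have h1 : {k | 0 < k ∧ k ∈ B} ∪ (B ∩ {0}) = B := by
    ext k
    simp only [Set.mem_union, Set.mem_setOf_eq, Set.mem_inter_iff, Set.mem_singleton_iff]
    constructor
    · rintro (h | h)
      · exact h.2
      · exact h.1
    · intro hk
      rcases Nat.eq_zero_or_pos k with h0 | h0
      · exact Or.inr ⟨hk, h0⟩
      · exact Or.inl ⟨h0, hk⟩
  have h2 : Disjoint {k | 0 < k ∧ k ∈ B} (B ∩ {0}) := by
    rw [Set.disjoint_left]
    rintro k ⟨hk, _⟩ ⟨_, hk0⟩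
    rw [Set.mem_singleton_iff] at hk0
    omega
  have h3 := h.union _ _ h2
  rw [h1] at h3
  have h4 : m (B ∩ {0}) = 0 := by
    by_cases h0 : (0 : ℕ) ∈ B
    · rw [Set.inter_eq_right.2 (Set.singleton_subset_iff.2 h0)]
      exact h.zero
    · have : B ∩ {0} = ∅ := by
        ext k
        simp only [Set.mem_inter_iff, Set.mem_singleton_iff, Set.mem_empty_iff_false, iff_false,
          not_and]
        rintro hk rfl
        exact h0 hk
      rw [this]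
      exact m_empty h
  rw [h4, add_zero] at h3
  exact h3.symm

end XMea

open XMea in
theorem Mea_pf : S_Mea := by
  intro hP m hm r A hA hT
  refine hP ℕ m hm.nonneg hm.univ hm.union r
    (fun i n => {k | 0 < k ∧ (n : ℕ) * k ∈ A i}) (fun i => m (A i)) ?_ ?_ ?_ ?_
  · intro n i j hij
    rw [Set.disjoint_left]
    rintro k ⟨_, hk⟩ ⟨_, hk'⟩
    exact Set.disjoint_left.1 (hA i j hij) hk hk'
  · intro i n
    have h1 := m_pos hm {k | (n : ℕ) * k ∈ A i}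
    have h2 := hm.dil n n.pos (A i)
    exact h1.trans h2
  · intro i k a b
    have e1 : {j | 0 < j ∧ ((k * a : ℕ+) : ℕ) * j ∈ A i} ∩ {j | 0 < j ∧ ((k * b : ℕ+) : ℕ) * j ∈ A i} =
        {j | 0 < j ∧ j ∈ {j | (k : ℕ) * j ∈ {l | (a : ℕ) * l ∈ A i ∧ (b : ℕ) * l ∈ A i}}} := by
      ext j
      simp only [Set.mem_inter_iff, Set.mem_setOf_eq, PNat.mul_coe]
      have e2 : (k : ℕ) * a * j = a * (k * j) := by ring
      have e3 : (k : ℕ) * b * j = b * (k * j) := by ring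
      rw [e2, e3]
      tauto
    have e4 : {j | 0 < j ∧ (a : ℕ) * j ∈ A i} ∩ {j | 0 < j ∧ (b : ℕ) * j ∈ A i} =
        {j | 0 < j ∧ j ∈ {l | (a : ℕ) * l ∈ A i ∧ (b : ℕ) * l ∈ A i}} := by
      ext j
      simp only [Set.mem_inter_iff, Set.mem_setOf_eq]
      tauto
    change m ({j | 0 < j ∧ ((k * a : ℕ+) : ℕ) * j ∈ A i} ∩
      {j | 0 < j ∧ ((k * b : ℕ+) : ℕ) * j ∈ A i}) =
      m ({j | 0 < j ∧ (a : ℕ) * j ∈ A i} ∩ {j | 0 < j ∧ (b : ℕ) * j ∈ A i})
    rw [e1, e4, m_pos hm, m_pos hm, hm.dil k k.pos]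
  · intro i x y z hxyz
    ext k
    simp only [Set.mem_inter_iff, Set.mem_setOf_eq, Set.mem_empty_iff_false, iff_false]
    rintro ⟨⟨⟨hk, hx⟩, ⟨_, hy⟩⟩, ⟨_, hz⟩⟩
    apply hT i
    refine ⟨x * k, y * k, z * k, Nat.mul_pos x.pos hk, Nat.mul_pos y.pos hk,
      Nat.mul_pos z.pos hk, ?_, hx, hy, hz⟩
    have h1 : ((x : ℕ)) ^ 2 + (y : ℕ) ^ 2 = (z : ℕ) ^ 2 := by
      have := congrArg (fun n : ℕ+ => (n : ℕ)) hxyz
      simpa only [PNat.add_coe, PNat.pow_coe] using this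
    calc ((x : ℕ) * k) ^ 2 + ((y : ℕ) * k) ^ 2 = ((x : ℕ) ^ 2 + (y : ℕ) ^ 2) * k ^ 2 := by ring
      _ = ((z : ℕ) * k) ^ 2 := by rw [h1]; ring

end Pool.Agent.Work.MP_0f91f8_co.EF
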