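import Pool.Agent.Work.MP_0f91f8_co.EF.StmtsB

/-!
# MP_0f91f8_co, collision theorem, module E, item PrP: processes give pair functions
-/

set_option autoImplicit false

open Filter Topology MeasureTheory

noncomputable section

namespace Pool.Agent.Work.MP_0f91f8_co.EF

open Pool.Agent.Work.MP_0f91f8_co.COL

namespace XPrP

variable {Ω : Type} {μ : Set Ω → ℝ}

theorem empty (h : IsFA μ) : μ ∅ = 0 := by
  have h1 := h.union ∅ ∅ (by simp)
  simp only [Set.union_empty] at h1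
  linarith

theorem part (h : IsFA μ) {κ : Type} [DecidableEq κ] (f : Ω → κ) (B : Set Ω) (s : Finset κ) :
    μ (B ∩ {ω | f ω ∈ s}) = ∑ x ∈ s, μ (B ∩ {ω | f ω = x}) := by
  induction s using Finset.induction_on with
  | empty => simp [empty h]
  | insert a s ha ih =>
    rw [Finset.sum_insert ha, ← ih, ← h.union]
    · congr 1
      ext ω
      simp only [Set.mem_inter_iff, Set.mem_setOf_eq, Finset.mem_insert, Set.mem_union]
      tauto
    · rw [Set.disjoint_left]
      rintro ω ⟨_, h1⟩ ⟨_, h2⟩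
      simp only [Set.mem_setOf_eq] at h1 h2
      rw [h1] at h2
      exact ha h2

/-- the weight of the atom `S` -/
def p (μ : Set Ω → ℝ) (E : ℕ → Set Ω) (F S : Finset ℕ) : ℝ :=
  by classical exact μ {ω | F.filter (fun a => ω ∈ E a) = S}

/-- the indicator function -/
def e (S : Finset ℕ) (a : ℕ) : ℝ := if a ∈ S then 1 else 0

theorem dec (h : IsFA μ) (E : ℕ → Set Ω) (F : Finset ℕ) {a b : ℕ} (ha : a ∈ F) (hb : b ∈ F) :
    μ (E a ∩ E b) = ∑ S ∈ F.powerset, p μ E F S * (e S a * e S b) := by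
  classical
  have h1 := part h (fun ω => F.filter (fun a => ω ∈ E a)) (E a ∩ E b) F.powerset
  have h2 : (E a ∩ E b) ∩ {ω | F.filter (fun a => ω ∈ E a) ∈ F.powerset} = E a ∩ E b := by
    ext ω
    simp
  rw [h2] at h1
  rw [h1]
  refine Finset.sum_congr rfl fun S _ => ?_
  unfold e p
  by_cases hab : a ∈ S ∧ b ∈ S
  · rw [if_pos hab.1, if_pos hab.2, mul_one, mul_one]
    congr 1
    ext ω
    simp only [Set.mem_inter_iff, Set.mem_setOf_eq]
    constructor
    · exact fun h => h.2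
    · intro h
      refine ⟨⟨?_, ?_⟩, h⟩
      · have := hab.1
        rw [← h, Finset.mem_filter] at this
        exact this.2
      · have := hab.2
        rw [← h, Finset.mem_filter] at this
        exact this.2
  · have h0 : (if a ∈ S then (1 : ℝ) else 0) * (if b ∈ S then (1 : ℝ) else 0) = 0 := by
      by_cases h1 : a ∈ S
      · rw [if_neg (fun h2 => hab ⟨h1, h2⟩), mul_zero]
      · rw [if_neg h1, zero_mul]
    rw [h0, mul_zero]
    have h3 : E a ∩ E b ∩ {ω | F.filter (fun a => ω ∈ E a) = S} = ∅ := by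
      ext ω
      simp only [Set.mem_inter_iff, Set.mem_setOf_eq, Set.mem_empty_iff_false, iff_false]
      rintro ⟨⟨h4, h5⟩, h6⟩
      apply hab
      rw [← h6, Finset.mem_filter, Finset.mem_filter]
      exact ⟨⟨ha, h4⟩, hb, h5⟩
    rw [h3, empty h]

theorem p_nonneg (h : IsFA μ) (E : ℕ → Set Ω) (F S : Finset ℕ) : 0 ≤ p μ E F S := h.nonneg _

theorem p_sum (h : IsFA μ) (E : ℕ → Set Ω) (F : Finset ℕ) :
    ∑ S ∈ F.powerset, p μ E F S = 1 := by
  classical
  have h1 := part h (fun ω => F.filter (fun a => ω ∈ E a)) Set.univ F.powerset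
  have h2 : Set.univ ∩ {ω | F.filter (fun a => ω ∈ E a) ∈ F.powerset} = (Set.univ : Set Ω) := by
    ext ω
    simp
  rw [h2, h.univ] at h1
  rw [h1]
  refine Finset.sum_congr rfl fun S _ => ?_
  rw [Set.univ_inter]
  rfl

theorem psd (h : IsFA μ) (E : ℕ → Set Ω) (F : Finset ℕ) (c : ℕ → ℂ) : ∃ s : ℝ, 0 ≤ s ∧
    ∑ a ∈ F, ∑ b ∈ F, c a * (starRingEnd ℂ) (c b) * ((μ (E a ∩ E b) : ℝ) : ℂ) = (s : ℂ) := by
  refine ⟨∑ S ∈ F.powerset, p μ E F S * Complex.normSq (∑ a ∈ F, c a * (e S a : ℂ)), ?_, ?_⟩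
  · exact Finset.sum_nonneg fun S _ => mul_nonneg (p_nonneg h E F S) (Complex.normSq_nonneg _)
  · have h1 : ∀ a ∈ F, ∀ b ∈ F, c a * (starRingEnd ℂ) (c b) * ((μ (E a ∩ E b) : ℝ) : ℂ) =
        ∑ S ∈ F.powerset, (p μ E F S : ℂ) * ((c a * (e S a : ℂ)) *
          (starRingEnd ℂ) (c b * (e S b : ℂ))) := by
      intro a ha b hb
      rw [dec h E F ha hb]
      push_cast
      rw [Finset.mul_sum]
      refine Finset.sum_congr rfl fun S _ => ?_
      rw [map_mul, Complex.conj_ofReal]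
      ring
    rw [Finset.sum_congr rfl fun a ha => Finset.sum_congr rfl fun b hb => h1 a ha b hb]
    push_cast
    rw [Finset.sum_congr rfl fun a _ => Finset.sum_comm, Finset.sum_comm]
    refine Finset.sum_congr rfl fun S _ => ?_
    rw [Complex.normSq_eq_conj_mul_self, map_sum, Finset.sum_mul_sum, Finset.mul_sum,
      Finset.sum_comm]
    refine Finset.sum_congr rfl fun a _ => ?_
    rw [Finset.mul_sum]
    refine Finset.sum_congr rfl fun b _ => ?_
    ring

theorem var (h : IsFA μ) (E : ℕ → Set Ω) (d : ℝ) (hd : ∀ n, 0 < n → μ (E n) = d) (F : Finset ℕ)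
    (hF : ∀ a ∈ F, 0 < a) :
    d ^ 2 * (F.card : ℝ) ^ 2 ≤ ∑ a ∈ F, ∑ b ∈ F, μ (E a ∩ E b) := by
  have h1 : ∑ a ∈ F, ∑ b ∈ F, μ (E a ∩ E b) =
      ∑ S ∈ F.powerset, p μ E F S * (∑ a ∈ F, e S a) ^ 2 := by
    rw [Finset.sum_congr rfl fun a ha => Finset.sum_congr rfl fun b hb => dec h E F ha hb]
    rw [Finset.sum_congr rfl fun a _ => Finset.sum_comm, Finset.sum_comm]
    refine Finset.sum_congr rfl fun S _ => ?_
    rw [sq, Finset.sum_mul_sum, Finset.mul_sum]
    refine Finset.sum_congr rfl fun a _ => ?_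
    rw [Finset.mul_sum]
  have h2 : d * (F.card : ℝ) = ∑ S ∈ F.powerset, p μ E F S * (∑ a ∈ F, e S a) := by
    have h3 : ∑ a ∈ F, μ (E a ∩ E a) = d * (F.card : ℝ) := by
      rw [Finset.sum_congr rfl fun a ha => by rw [Set.inter_self, hd a (hF a ha)]]
      rw [Finset.sum_const, nsmul_eq_mul, mul_comm]
    rw [← h3, Finset.sum_congr rfl fun a ha => dec h E F ha ha, Finset.sum_comm]
    refine Finset.sum_congr rfl fun S _ => ?_
    rw [Finset.mul_sum]
    refine Finset.sum_congr rfl fun a _ => ?_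
    unfold e
    split <;> simp
  have h4 : 0 ≤ ∑ S ∈ F.powerset, p μ E F S * ((∑ a ∈ F, e S a) - d * (F.card : ℝ)) ^ 2 :=
    Finset.sum_nonneg fun S _ => mul_nonneg (p_nonneg h E F S) (sq_nonneg _)
  have h5 : ∑ S ∈ F.powerset, p μ E F S * ((∑ a ∈ F, e S a) - d * (F.card : ℝ)) ^ 2 =
      ∑ S ∈ F.powerset, p μ E F S * (∑ a ∈ F, e S a) ^ 2 -
        2 * (d * (F.card : ℝ)) * ∑ S ∈ F.powerset, p μ E F S * (∑ a ∈ F, e S a) +
        (d * (F.card : ℝ)) ^ 2 * ∑ S ∈ F.powerset, p μ E F S := by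
    rw [Finset.mul_sum, Finset.mul_sum, ← Finset.sum_sub_distrib, ← Finset.sum_add_distrib]
    refine Finset.sum_congr rfl fun S _ => ?_
    ring
  rw [h5, ← h2, p_sum h, ← h1] at h4
  nlinarith [h4]

end XPrP

/-- **PrP.** -/
theorem PrP_pf : S_PrP := by
  intro Ω μ h E d hd hhom
  refine ⟨?_, ?_, ?_, ?_, ?_, ?_⟩
  · intro a b
    rw [Set.inter_comm]
  · exact hhom
  · intro a ha
    show μ (E a ∩ E a) = d
    rw [Set.inter_self]
    exact hd a ha
  · have h1 := h.union (E 1) (E 1)ᶜ disjoint_compl_right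
    rw [Set.union_compl_self, h.univ, hd 1 one_pos] at h1
    have h2 := h.nonneg (E 1)ᶜ
    linarith
  · intro F _ c
    exact XPrP.psd h E F c
  · intro F hF
    exact XPrP.var h E d hd F hF

end Pool.Agent.Work.MP_0f91f8_co.EF
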