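import Pool.Agent.Work.MP_0f91f8_co.EF.StmtsB

/-!
# MP_0f91f8_co, collision theorem, module E: item Prc
-/

set_option autoImplicit false

open Filter Topology MeasureTheory

noncomputable section

namespace Pool.Agent.Work.MP_0f91f8_co.EF

open Pool.Agent.Work.MP_0f91f8_co.COL

/-- **Prc.** -/
theorem Prc_pf (h1 : S_PrP) (h2 : S_Cou) (h3 : GenF) : S_Prc := by
  intro Ω μ hn hu hU r E d hdis hd hhom hpyth
  have hFA : IsFA μ := ⟨hn, hu, hU⟩
  have hφ : ∀ i, IsPF (fun a b => μ (E i a.toPNat' ∩ E i b.toPNat')) (d i) := by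
    intro i
    refine h1 Ω μ hFA (fun n => E i n.toPNat') (d i) (fun n _ => hd i _) ?_
    intro k a b hk ha hb
    lift k to ℕ+ using hk
    lift a to ℕ+ using ha
    lift b to ℕ+ using hb
    simp only [← PNat.mul_coe, PNat.coe_toPNat']
    exact hhom i k a b
  have key : ∀ ε : ℝ, 0 < ε → 3 * ∑ i, d i ^ 2 - ε ≤ 1 ∧
      2 * (3 * ∑ i, d i ^ 2 - ε) ≤ 3 * ∑ i, d i := by
    intro ε hε
    obtain ⟨x, y, z, hx, hy, hz, hxyz, hle⟩ := h3 r _ d hφ ε hε
    lift x to ℕ+ using hx
    lift y to ℕ+ using hy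
    lift z to ℕ+ using hz
    simp only [PNat.coe_toPNat'] at hle
    have hP : x ^ 2 + y ^ 2 = z ^ 2 := PNat.eq (by push_cast; exact hxyz)
    obtain ⟨c1, c2⟩ := h2 Ω μ hFA r (fun i => E i x) (fun i => E i y) (fun i => E i z)
      (fun i j hij => hdis x i j hij) (fun i j hij => hdis y i j hij)
      (fun i j hij => hdis z i j hij) (fun i => hpyth i x y z hP)
    have hs : ∑ i, (μ (E i x) + μ (E i y) + μ (E i z)) = 3 * ∑ i, d i := by
      rw [Finset.mul_sum]
      refine Finset.sum_congr rfl fun i _ => ?_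
      rw [hd, hd, hd]
      ring
    rw [hs] at c2
    exact ⟨hle.trans c1, (mul_le_mul_of_nonneg_left hle (by norm_num)).trans c2⟩
  constructor
  · refine le_of_forall_pos_le_add fun ε hε => ?_
    have := (key ε hε).1
    linarith
  · refine le_of_forall_pos_le_add fun ε hε => ?_
    have := (key ε hε).2
    linarith

end Pool.Agent.Work.MP_0f91f8_co.EF
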