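import Pool.Agent.Work.MP_0f91f8_co.EF.StmtsB

/-!
# MP_0f91f8_co, module E, item Ulm: the limit process
-/

set_option autoImplicit false

open Filter Topology MeasureTheory

noncomputable section

namespace Pool.Agent.Work.MP_0f91f8_co.EF

open Pool.Agent.Work.MP_0f91f8_co.COL

namespace XUlm

open scoped Classical

theorem inj (n : ℕ) (hn : 0 < n) : Function.Injective fun s : ℕ => n * s :=
  fun _ _ h => Nat.eq_of_mul_eq_mul_left hn h

theorem shift (F T : Finset ℕ) (hT : T ⊆ F) (n : ℕ) (hn : 0 < n) :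
    (F.filter fun s => n * s ∈ T).card ≤ T.card ∧
      T.card + (F.filter fun s => n * s ∈ F).card ≤ (F.filter fun s => n * s ∈ T).card + F.card := by
  constructor
  · exact Finset.card_le_card_of_injOn (fun s => n * s)
      (fun s hs => (Finset.mem_filter.1 hs).2) (inj n hn).injOn
  · have h1 : ((F.filter fun s => n * s ∈ F).image fun s => n * s).card =
        (F.filter fun s => n * s ∈ F).card := Finset.card_image_of_injective _ (inj n hn)
    have h2 := Finset.card_union_add_card_inter T ((F.filter fun s => n * s ∈ F).image fun s => n * s)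
    have h3 : (T ∪ (F.filter fun s => n * s ∈ F).image fun s => n * s).card ≤ F.card := by
      refine Finset.card_le_card (Finset.union_subset hT ?_)
      intro t ht
      obtain ⟨s, hs, rfl⟩ := Finset.mem_image.1 ht
      exact (Finset.mem_filter.1 hs).2
    have h4 : (T ∩ (F.filter fun s => n * s ∈ F).image fun s => n * s).card ≤
        (F.filter fun s => n * s ∈ T).card := by
      have h5 : (T ∩ (F.filter fun s => n * s ∈ F).image fun s => n * s) ⊆
          (F.filter fun s => n * s ∈ T).image fun s => n * s := by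
        intro t ht
        obtain ⟨h6, h7⟩ := Finset.mem_inter.1 ht
        obtain ⟨s, hs, rfl⟩ := Finset.mem_image.1 h7
        exact Finset.mem_image.2 ⟨s, Finset.mem_filter.2 ⟨(Finset.mem_filter.1 hs).1, h6⟩, rfl⟩
      exact (Finset.card_le_card h5).trans Finset.card_image_le
    omega

theorem pair (F A : Finset ℕ) (a b k : ℕ) (hk : 0 < k) :
    (F.filter fun s => k * a * s ∈ A ∧ k * b * s ∈ A).card + (F.filter fun s => k * s ∈ F).card ≤
        (F.filter fun s => a * s ∈ A ∧ b * s ∈ A).card + F.card ∧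
      (F.filter fun s => a * s ∈ A ∧ b * s ∈ A).card + (F.filter fun s => k * s ∈ F).card ≤
        (F.filter fun s => k * a * s ∈ A ∧ k * b * s ∈ A).card + F.card := by
  obtain ⟨T, hT⟩ : ∃ T, T = F.filter fun s => a * s ∈ A ∧ b * s ∈ A := ⟨_, rfl⟩
  obtain ⟨P, hP⟩ : ∃ P, P = F.filter fun s => k * a * s ∈ A ∧ k * b * s ∈ A := ⟨_, rfl⟩
  obtain ⟨E, hE⟩ : ∃ E, E = F.filter fun s => k * s ∈ F := ⟨_, rfl⟩
  obtain ⟨Q, hQ⟩ : ∃ Q, Q = F.filter fun s => k * s ∈ T := ⟨_, rfl⟩
  rw [← hT, ← hP, ← hE]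
  have hTF : T ⊆ F := by rw [hT]; exact Finset.filter_subset _ _
  have h1 := shift F T hTF k hk
  rw [← hE, ← hQ] at h1
  have hQP : Q ⊆ P := by
    intro s hs
    rw [hQ, Finset.mem_filter, hT, Finset.mem_filter] at hs
    obtain ⟨h2, h3, h4, h5⟩ := hs
    rw [hP, Finset.mem_filter]
    refine ⟨h2, ?_, ?_⟩
    · have e : k * a * s = a * (k * s) := by ring
      rw [e]; exact h4
    · have e : k * b * s = b * (k * s) := by ring
      rw [e]; exact h5
  have h2 := Finset.card_le_card hQP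
  have h3 := Finset.card_union_add_card_inter P E
  have h4 : (P ∪ E).card ≤ F.card := by
    refine Finset.card_le_card (Finset.union_subset ?_ ?_)
    · rw [hP]; exact Finset.filter_subset _ _
    · rw [hE]; exact Finset.filter_subset _ _
  have h5 : (P ∩ E).card ≤ Q.card := by
    refine Finset.card_le_card fun s hs => ?_
    obtain ⟨h6, h7⟩ := Finset.mem_inter.1 hs
    rw [hP, Finset.mem_filter] at h6
    rw [hE, Finset.mem_filter] at h7
    rw [hQ, Finset.mem_filter, hT, Finset.mem_filter]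
    refine ⟨h6.1, h7.2, ?_, ?_⟩
    · have e : a * (k * s) = k * a * s := by ring
      rw [e]; exact h6.2.1
    · have e : b * (k * s) = k * b * s := by ring
      rw [e]; exact h6.2.2
  omega

/-- the finite means -/
def qq (F : ℕ → Finset ℕ) (S : Set (ℕ × ℕ)) (j : ℕ) : ℝ :=
  (((F j).filter fun s => (j, s) ∈ S).card : ℝ) / ((F j).card : ℝ)

theorem qq_eq (F : ℕ → Finset ℕ) (S : Set (ℕ × ℕ)) (j : ℕ) (T : Finset ℕ)
    (hT : ∀ s, s ∈ T ↔ s ∈ F j ∧ (j, s) ∈ S) : qq F S j = (T.card : ℝ) / ((F j).card : ℝ) := by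
  unfold qq
  congr 2
  congr 1
  ext s
  rw [Finset.mem_filter, hT]

theorem qq_mem (F : ℕ → Finset ℕ) (S : Set (ℕ × ℕ)) (j : ℕ) : qq F S j ∈ Set.Icc (0 : ℝ) 1 := by
  unfold qq
  refine ⟨by positivity, div_le_one_of_le₀ ?_ (by positivity)⟩
  exact_mod_cast Finset.card_filter_le _ _

theorem ulim (U : Ultrafilter ℕ) (f : ℕ → ℝ) (hf : ∀ j, f j ∈ Set.Icc (0 : ℝ) 1) :
    ∃ x, x ∈ Set.Icc (0 : ℝ) 1 ∧ Tendsto f U (𝓝 x) := by
  obtain ⟨x, hx, h⟩ := isCompact_Icc.ultrafilter_le_nhds (s := Set.Icc (0 : ℝ) 1) (U.map f) (by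
    rw [le_principal_iff, Ultrafilter.coe_map, mem_map]
    exact Eventually.of_forall hf)
  exact ⟨x, hx, h⟩

theorem uniq (U : Ultrafilter ℕ) (f g e : ℕ → ℝ) (x y : ℝ) (hf : Tendsto f U (𝓝 x))
    (hg : Tendsto g U (𝓝 y)) (he : Tendsto e U (𝓝 0)) (h : ∀ j, |f j - g j| ≤ e j) : x = y := by
  have h1 : Tendsto (fun j => f j - g j) U (𝓝 0) :=
    squeeze_zero_norm (fun j => by rw [Real.norm_eq_abs]; exact h j) he
  have h2 : Tendsto (fun j => f j - g j) U (𝓝 (x - y)) := hf.sub hg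
  have h3 := tendsto_nhds_unique h1 h2
  linarith

theorem absd (a b c d : ℕ) (hd : 0 < d) (h1 : a + c ≤ b + d) (h2 : b + c ≤ a + d) :
    |(a : ℝ) / d - (b : ℝ) / d| ≤ 1 - (c : ℝ) / d := by
  have hdR : (0 : ℝ) < d := by exact_mod_cast hd
  have h3 : (a : ℝ) + c ≤ b + d := by exact_mod_cast h1
  have h4 : (b : ℝ) + c ≤ a + d := by exact_mod_cast h2
  have h5 : 1 - (c : ℝ) / d = ((d : ℝ) - c) / d := by field_simp
  rw [← sub_div, h5, abs_div, abs_of_pos hdR]
  refine div_le_div_of_nonneg_right ?_ hdR.le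
  rw [abs_le]
  constructor <;> linarith

end XUlm

open scoped Classical in
open XUlm in
/-- item Ulm -/
theorem Ulm_pf (h : S_Bxf) : S_Ulm := by
  intro r R A hR hR1 hA
  obtain ⟨F, hF⟩ : ∃ F : ℕ → Finset ℕ, ∀ j, F j = Pool.Agent.F0f91f8.HD.Box (R j) :=
    ⟨_, fun _ => rfl⟩
  have hFne : ∀ j, 0 < (F j).card := fun j => by
    rw [hF, Finset.card_pos]
    exact (h.1 (R j) (hR1 j)).1
  have hFR : ∀ j, (0 : ℝ) < (F j).card := fun j => by exact_mod_cast hFne j
  have hAF : ∀ j i, A j i ⊆ F j := fun j i => by rw [hF]; exact hA j i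
  obtain ⟨U, hU⟩ : ∃ U : Ultrafilter ℕ, (U : Filter ℕ) ≤ atTop :=
    ⟨Ultrafilter.of atTop, Ultrafilter.of_le atTop⟩
  choose μ hμ hμl using fun S : Set (ℕ × ℕ) => ulim U (qq F S) (qq_mem F S)
  have hdm : ∀ i j, ((A j i).card : ℝ) / ((F j).card : ℝ) ∈ Set.Icc (0 : ℝ) 1 := by
    intro i j
    refine ⟨by positivity, div_le_one_of_le₀ ?_ (by positivity)⟩
    exact_mod_cast Finset.card_le_card (hAF j i)
  choose d hd hdl using fun i : Fin r => ulim U (fun j => ((A j i).card : ℝ) / ((F j).card : ℝ))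
    (hdm i)
  have hdef : ∀ n : ℕ, 0 < n → Tendsto (fun j => 1 - (((F j).filter fun k => n * k ∈ F j).card : ℝ) /
      ((F j).card : ℝ)) U (𝓝 0) := by
    intro n hn
    have h1 := ((h.2 n hn).comp hR).mono_left hU
    have h2 := h1.const_sub 1
    rw [sub_self] at h2
    refine h2.congr fun j => ?_
    simp only [Function.comp, hF]
  refine ⟨U, μ, d, hU, ⟨fun S => (hμ S).1, ?_, ?_⟩, ?_, ?_, ?_⟩
  · refine tendsto_nhds_unique (hμl Set.univ) ?_
    have h1 : qq F Set.univ = fun _ => (1 : ℝ) := by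
      funext j
      unfold qq
      simp only [Set.mem_univ, Finset.filter_true]
      exact div_self (hFR j).ne'
    rw [h1]
    exact tendsto_const_nhds
  · intro S T hST
    refine tendsto_nhds_unique (hμl (S ∪ T)) ?_
    have h1 : qq F (S ∪ T) = fun j => qq F S j + qq F T j := by
      funext j
      unfold qq
      rw [← add_div]
      congr 1
      rw [← Nat.cast_add, ← Finset.card_union_of_disjoint]
      · congr 2
        ext s
        simp only [Finset.mem_filter, Finset.mem_union, Set.mem_union]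
        tauto
      · rw [Finset.disjoint_left]
        intro s hs hs'
        exact Set.disjoint_left.1 hST (Finset.mem_filter.1 hs).2 (Finset.mem_filter.1 hs').2
    rw [h1]
    exact (hμl S).add (hμl T)
  · intro i
    refine (hdl i).congr fun j => ?_
    rw [hF]
  · intro i n hn
    refine uniq U _ _ _ _ _ (hμl _) (hdl i) (hdef n hn) fun j => ?_
    have h1 := shift (F j) (A j i) (hAF j i) n hn
    rw [qq_eq F {p : ℕ × ℕ | n * p.2 ∈ A p.1 i} j ((F j).filter fun s => n * s ∈ A j i)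
      (fun s => Finset.mem_filter)]
    have h3 : ((F j).filter fun s => n * s ∈ F j).card ≤ (F j).card := Finset.card_filter_le _ _
    exact absd _ _ _ _ (hFne j) (by omega) (by omega)
  · intro i k a b hk ha hb
    refine uniq U _ _ _ _ _ (hμl _) (hμl _) (hdef k hk) fun j => ?_
    have h1 := pair (F j) (A j i) a b k hk
    rw [qq_eq F ({p : ℕ × ℕ | k * a * p.2 ∈ A p.1 i} ∩ {p : ℕ × ℕ | k * b * p.2 ∈ A p.1 i}) j
      ((F j).filter fun s => k * a * s ∈ A j i ∧ k * b * s ∈ A j i) (fun s => Finset.mem_filter),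
      qq_eq F ({p : ℕ × ℕ | a * p.2 ∈ A p.1 i} ∩ {p : ℕ × ℕ | b * p.2 ∈ A p.1 i}) j
      ((F j).filter fun s => a * s ∈ A j i ∧ b * s ∈ A j i) (fun s => Finset.mem_filter)]
    exact absd _ _ _ _ (hFne j) h1.1 h1.2

end Pool.Agent.Work.MP_0f91f8_co.EF
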