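import Pool.Agent.Work.MP_0f91f8_co.EF.AsF
import Pool.Agent.Work.MP_0f91f8_co.EF.AtF
import Pool.Agent.Work.MP_0f91f8_co.EF.AvF
import Pool.Agent.Work.MP_0f91f8_co.EF.Big
import Pool.Agent.Work.MP_0f91f8_co.EF.Bxf
import Pool.Agent.Work.MP_0f91f8_co.EF.Chr
import Pool.Agent.Work.MP_0f91f8_co.EF.Cnt
import Pool.Agent.Work.MP_0f91f8_co.EF.Cou
import Pool.Agent.Work.MP_0f91f8_co.EF.DeF
import Pool.Agent.Work.MP_0f91f8_co.EF.Ev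
import Pool.Agent.Work.MP_0f91f8_co.EF.Fat
import Pool.Agent.Work.MP_0f91f8_co.EF.Fnl
import Pool.Agent.Work.MP_0f91f8_co.EF.Fol
import Pool.Agent.Work.MP_0f91f8_co.EF.Haar
import Pool.Agent.Work.MP_0f91f8_co.EF.LiF
import Pool.Agent.Work.MP_0f91f8_co.EF.Mea
import Pool.Agent.Work.MP_0f91f8_co.EF.PrP
import Pool.Agent.Work.MP_0f91f8_co.EF.Prc
import Pool.Agent.Work.MP_0f91f8_co.EF.Ulm

/-!
# MP_0f91f8_co, module E: composition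
-/

set_option autoImplicit false

namespace Pool.Agent.Work.MP_0f91f8_co.EF

open Pool.Agent.F0f91f8.HD Pool.Agent.Work.MP_0f91f8_co.COL

theorem ef_Gen (hPW : PWStmt) : GenF :=
  AsF_pf Ev_pf (LiF_pf Ev_pf Fol_pf Cnt_pf (DeF_pf Ev_pf (Haar_pf Ev_pf)))
    (AtF_pf Ev_pf Fol_pf (Chr_pf Ev_pf)) Fat_pf (AvF_pf Ev_pf) hPW

theorem ef_Proc (hPW : PWStmt) : ProcStmt := Prc_pf PrP_pf Cou_pf (ef_Gen hPW)

theorem ef_Fin (hPW : PWStmt) : FinStmt :=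
  Fnl_pf Big_pf (Ulm_pf Bxf_pf) Bxf_pf (ef_Proc hPW)

/-- The form for invariant means. -/
theorem ef_Mean (hPW : PWStmt) (m : Set ℕ → ℝ) (hm : IsInvMean m) (r : ℕ) (A : Fin r → Set ℕ)
    (hd : ∀ i j, i ≠ j → Disjoint (A i) (A j))
    (hA : ∀ i, ¬ ∃ x y z : ℕ, 0 < x ∧ 0 < y ∧ 0 < z ∧ x ^ 2 + y ^ 2 = z ^ 2 ∧
      x ∈ A i ∧ y ∈ A i ∧ z ∈ A i) :
    ∑ i, m (A i) ^ 2 ≤ 1 / 3 ∧ ∑ i, m (A i) ^ 2 ≤ (∑ i, m (A i)) / 2 :=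
  Mea_pf (ef_Proc hPW) m hm r A hd hA

end Pool.Agent.Work.MP_0f91f8_co.EF
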