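import Pool.Agent.Work.MP_0f91f8_co.EF.StmtsB

/-!
# MP_0f91f8_co, module E, item AsF: the general inequality for pair functions
-/

set_option autoImplicit false

open Filter Topology MeasureTheory

noncomputable section

namespace Pool.Agent.Work.MP_0f91f8_co.EF

open Pool.Agent.Work.MP_0f91f8_co.COL

namespace XAsF

/-- the mean with shifted parameters -/
def G (w K M : ℕ) (g : GG) : ℝ :=
  (Pool.Agent.F0f91f8.HD.Av (w + 1) (K + 1) (M + 1) (Pool.Agent.F0f91f8.HD.pc (ev g))).re

/-- the indicator of the trivial character, times three -/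
def I3 (g : GG) : ℝ := 3 * Set.indicator {1} (fun _ => (1 : ℝ)) g

theorem meas_one : MeasurableSet ({1} : Set GG) := isClosed_singleton.measurableSet

theorem I3_meas : Measurable I3 := by
  unfold I3
  exact (measurable_const.indicator meas_one).const_mul 3

theorem I3_one : I3 1 = 3 := by
  unfold I3
  rw [Set.indicator_of_mem (Set.mem_singleton _)]
  norm_num

theorem I3_ne (g : GG) (hg : g ≠ 1) : I3 g = 0 := by
  unfold I3
  rw [Set.indicator_of_notMem (by rwa [Set.mem_singleton_iff])]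
  norm_num

theorem I3_le (g : GG) : |I3 g| ≤ 3 := by
  by_cases h : g = 1
  · rw [h, I3_one]; norm_num
  · rw [I3_ne g h]; norm_num

theorem int_I3 (μ : Measure GG) [IsFiniteMeasure μ] : ∫ g, I3 g ∂μ = 3 * μ.real {1} := by
  unfold I3
  rw [integral_const_mul, integral_indicator_const _ meas_one, smul_eq_mul, mul_one]

theorem intble (μ : Measure GG) [IsFiniteMeasure μ] (f : GG → ℝ) (C : ℝ) (hf : Measurable f)
    (hC : ∀ g, |f g| ≤ C) : Integrable f μ :=
  Integrable.of_bound hf.aestronglyMeasurable C (Eventually.of_forall fun g => by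
    rw [Real.norm_eq_abs]; exact hC g)

end XAsF

open XAsF in
/-- item AsF -/
theorem AsF_pf (hEv : S_Ev) (hLi : S_LiF) (hAt : S_AtF) (hFat : S_Fat) (hAv : S_AvF)
    (hPW : Pool.Agent.F0f91f8.HD.PWStmt) : S_AsF := by
  intro r φ d hφ ε hε
  choose μ hμ using fun i => hLi (φ i) (d i) (hφ i)
  have : ∀ i, IsFiniteMeasure (μ i) := fun i => (hμ i).fin
  have hGm : ∀ w K M, Measurable (G w K M) := fun w K M =>
    (hAv (w + 1) (K + 1) (M + 1) (by omega) (by omega) (by omega)).1.measurable
  have hGb : ∀ w K M g, |G w K M g| ≤ 3 := fun w K M g =>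
    (hAv (w + 1) (K + 1) (M + 1) (by omega) (by omega) (by omega)).2.1 g
  have hG1 : ∀ w K M, G w K M 1 = 3 := fun w K M =>
    (hAv (w + 1) (K + 1) (M + 1) (by omega) (by omega) (by omega)).2.2.1
  have : IsFiniteMeasure (∑ i, μ i) := ⟨by
    rw [Measure.finsetSum_apply]
    exact ENNReal.sum_lt_top.2 fun i _ => measure_lt_top _ _⟩
  obtain ⟨w, K, M, hF⟩ := hFat (∑ i, μ i) (fun w K M g => G w K M g - I3 g) 6
    (fun w K M => (hGm w K M).sub I3_meas)
    (fun w K M g => by
      have h1 := hGb w K M g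
      have h2 := I3_le g
      have h3 := abs_sub (G w K M g) (I3 g)
      linarith)
    (by
      intro g δ hδ
      by_cases hg : g = 1
      · refine Eventually.of_forall fun w => Eventually.of_forall fun K =>
          Eventually.of_forall fun M => ?_
        rw [hg, hG1, I3_one]
        linarith
      · have hcm : Pool.Agent.F0f91f8.HD.CM (ev g) := by
          exact ⟨(hEv.1 g).zero, (hEv.1 g).mul, (hEv.1 g).norm⟩
        obtain ⟨w0, hw⟩ := hPW (ev g) hcm δ hδ
        filter_upwards [eventually_ge_atTop w0] with w hw0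
        obtain ⟨K0, hK⟩ := hw (w + 1) (by omega)
        filter_upwards [eventually_ge_atTop K0] with K hK0
        obtain ⟨M0, hM⟩ := hK (K + 1) (by omega)
        filter_upwards [eventually_ge_atTop M0] with M hM0
        have h4 := hM (M + 1) (by omega)
        rw [I3_ne g hg, sub_zero]
        exact h4)
    ε hε
  obtain ⟨x, y, z, hx, hy, hz, hxyz, hle⟩ :=
    (hAv (w + 1) (K + 1) (M + 1) (by omega) (by omega) (by omega)).2.2.2 r φ μ
      (fun i a b => (hφ i).symm a b) hμ
  refine ⟨x, y, z, hx, hy, hz, hxyz, ?_⟩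
  have h1 : ∫ g, (G w K M g - I3 g) ∂(∑ i, μ i) =
      ∑ i, ∫ g, G w K M g ∂(μ i) - 3 * ∑ i, (μ i).real {1} := by
    have h5 : ∀ i ∈ Finset.univ, Integrable (fun g => G w K M g - I3 g) (μ i) := fun i _ =>
      (intble (μ i) (G w K M) 3 (hGm w K M) (hGb w K M)).sub (intble (μ i) I3 3 I3_meas I3_le)
    rw [integral_finsetSum_measure h5, Finset.mul_sum, ← Finset.sum_sub_distrib]
    refine Finset.sum_congr rfl fun i _ => ?_
    rw [integral_sub (intble (μ i) (G w K M) 3 (hGm w K M) (hGb w K M))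
      (intble (μ i) I3 3 I3_meas I3_le), int_I3]
  have h2 : ∑ i, d i ^ 2 ≤ ∑ i, (μ i).real {1} :=
    Finset.sum_le_sum fun i _ => hAt (φ i) (d i) (μ i) (hφ i) (hμ i)
  have h3 : -ε ≤ ∫ g, (G w K M g - I3 g) ∂(∑ i, μ i) := hF
  rw [h1] at h3
  have h4 : ∑ i, ∫ g, G w K M g ∂(μ i) ≤ ∑ i, (φ i x y + φ i x z + φ i y z) := hle
  linarith

end Pool.Agent.Work.MP_0f91f8_co.EF
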