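import Pool.Agent.Work.MP_0f91f8_co.COL.Interfaces

/-!
# MP_0f91f8_co, collision theorem, parts (D), (E): definitions of the ergodic frame
-/

set_option autoImplicit false

open Filter Topology MeasureTheory

noncomputable section

namespace Pool.Agent.Work.MP_0f91f8_co.EF

open Pool.Agent.Work.MP_0f91f8_co.COL

/-- The compact group of completely multiplicative functions with values on the circle, given by
their values at the primes. -/
abbrev GG : Type := Nat.Primes → Circle

instance : MeasurableSpace GG := borel GG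

instance : BorelSpace GG := ⟨rfl⟩

/-- The value at `n` of the completely multiplicative function `g`. -/
def ev (g : GG) (n : ℕ) : ℂ := if n = 0 then 0 else
  ((n.factorization.prod fun p v => (if h : p.Prime then g ⟨p, h⟩ else 1) ^ v : Circle) : ℂ)

/-- Pair returns. -/
def rr (m : Set ℕ → ℝ) (A : Set ℕ) (a b : ℕ) : ℝ := m {n | a * n ∈ A ∧ b * n ∈ A}

/-- The number of pairs `(k, l)` in `F × F` with `a l = b k`, divided by the size of `F`. -/
def ct (F : Finset ℕ) (a b : ℕ) : ℝ :=
  (((F ×ˢ F).filter fun k : ℕ × ℕ => a * k.2 = b * k.1).card : ℝ) / (F.card : ℝ)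

/-- Multiplicative Foelner sequences of finite sets of positive integers. -/
structure IsFo (F : ℕ → Finset ℕ) : Prop where
  ne : ∀ j, (F j).Nonempty
  pos : ∀ j, ∀ a ∈ F j, 0 < a
  lim : ∀ n : ℕ, 0 < n →
    Tendsto (fun j => (((F j).filter fun k => n * k ∈ F j).card : ℝ) / ((F j).card : ℝ)) atTop (𝓝 1)

/-- `μ` is the spectral measure of the set `A`. -/
structure IsSpec (m : Set ℕ → ℝ) (A : Set ℕ) (μ : Measure GG) : Prop where
  fin : IsFiniteMeasure μ
  eq : ∀ a b : ℕ, 0 < a → 0 < b →
    ∫ g, ev g a * (starRingEnd ℂ) (ev g b) ∂μ = ((rr m A a b : ℝ) : ℂ)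

/-- The sum of the pair returns of the triple `x, y, z`. -/
def TT (m : Set ℕ → ℝ) (A : Set ℕ) (x y z : ℕ) : ℝ := rr m A x y + rr m A x z + rr m A y z

end Pool.Agent.Work.MP_0f91f8_co.EF
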