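import Pool.Agent.Work.MP_0f91f8_co.EF.Defs
import Pool.Agent.Work.MP_0f91f8_co.HD.Defs

/-!
# MP_0f91f8_co, collision theorem, module E: pair functions

The interface of the whole programme is `HD/Defs.lean` (helper75). Module E starts from `HD.PWStmt` and ends with
`HD.ProcStmt` and `HD.FinStmt`.
-/

set_option autoImplicit false

open Filter Topology MeasureTheory

noncomputable section

namespace Pool.Agent.Work.MP_0f91f8_co.EF

open Pool.Agent.Work.MP_0f91f8_co.COL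

/-- Homogeneous positive semidefinite pair functions `φ a b = μ (E a ∩ E b)` of density `d`. -/
structure IsPF (φ : ℕ → ℕ → ℝ) (d : ℝ) : Prop where
  symm : ∀ a b, φ a b = φ b a
  hom : ∀ k a b, 0 < k → 0 < a → 0 < b → φ (k * a) (k * b) = φ a b
  diag : ∀ a, 0 < a → φ a a = d
  le : d ≤ 1
  psd : ∀ F : Finset ℕ, (∀ a ∈ F, 0 < a) → ∀ c : ℕ → ℂ, ∃ s : ℝ, 0 ≤ s ∧
    ∑ a ∈ F, ∑ b ∈ F, c a * (starRingEnd ℂ) (c b) * ((φ a b : ℝ) : ℂ) = (s : ℂ)
  var : ∀ F : Finset ℕ, (∀ a ∈ F, 0 < a) →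
    d ^ 2 * (F.card : ℝ) ^ 2 ≤ ∑ a ∈ F, ∑ b ∈ F, φ a b

/-- `μ` is the spectral measure of the pair function `φ`. -/
structure IsSp (φ : ℕ → ℕ → ℝ) (μ : Measure GG) : Prop where
  fin : IsFiniteMeasure μ
  eq : ∀ a b : ℕ, 0 < a → 0 < b → ∫ g, ev g a * (starRingEnd ℂ) (ev g b) ∂μ = ((φ a b : ℝ) : ℂ)

/-- Finitely additive probability measures on all subsets of `Ω`. -/
structure IsFA {Ω : Type} (μ : Set Ω → ℝ) : Prop where
  nonneg : ∀ A, 0 ≤ μ A
  univ : μ Set.univ = 1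
  union : ∀ A B, Disjoint A B → μ (A ∪ B) = μ A + μ B

end Pool.Agent.Work.MP_0f91f8_co.EF
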