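import Pool.Agent.Work.MP_0f91f8_co.EF.Stmts

/-!
# [0f91f8 EF Ev]: the evaluation of completely multiplicative functions
-/

set_option autoImplicit false

open Filter Topology MeasureTheory

noncomputable section

namespace Pool.Agent.Work.MP_0f91f8_co.EF

open Pool.Agent.Work.MP_0f91f8_co.COL

namespace XEv

/-- the value at the prime `p` -/
def gg (g : GG) (p : ℕ) : Circle := if h : p.Prime then g ⟨p, h⟩ else 1

/-- the value on the circle -/
def pr (g : GG) (n : ℕ) : Circle := n.factorization.prod fun p v => gg g p ^ v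

lemma ev_eq (g : GG) (n : ℕ) : ev g n = if n = 0 then 0 else ((pr g n : Circle) : ℂ) := rfl

lemma ev_pos (g : GG) {n : ℕ} (hn : n ≠ 0) : ev g n = ((pr g n : Circle) : ℂ) := by
  rw [ev_eq, if_neg hn]

lemma pr_mul (g : GG) {m n : ℕ} (hm : m ≠ 0) (hn : n ≠ 0) : pr g (m * n) = pr g m * pr g n := by
  unfold pr
  rw [Nat.factorization_mul hm hn, Finsupp.prod_add_index']
  · intro p
    exact pow_zero _
  · intro p v w
    exact pow_add _ _ _

lemma gg_mul (g h : GG) (p : ℕ) : gg (g * h) p = gg g p * gg h p := by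
  unfold gg
  split_ifs with hp
  · rfl
  · rw [mul_one]

lemma pr_hom (g h : GG) (n : ℕ) : pr (g * h) n = pr g n * pr h n := by
  unfold pr
  rw [← Finsupp.prod_mul]
  refine Finset.prod_congr rfl fun p _ => ?_
  change gg (g * h) p ^ _ = gg g p ^ _ * gg h p ^ _
  rw [gg_mul, mul_pow]

lemma gg_one (p : ℕ) : gg 1 p = 1 := by
  unfold gg
  split_ifs with hp
  · rfl
  · rfl

lemma pr_one (n : ℕ) : pr 1 n = 1 := by
  unfold pr
  refine Finset.prod_eq_one fun p _ => ?_
  change gg 1 p ^ _ = 1
  rw [gg_one, one_pow]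

lemma pr_prime (g : GG) (p : ℕ) (hp : p.Prime) : pr g p = g ⟨p, hp⟩ := by
  have h1 : pr g p = gg g p ^ 1 := by
    unfold pr
    rw [hp.factorization]
    exact Finsupp.prod_single_index (h := fun p v => gg g p ^ v) (pow_zero _)
  rw [h1, pow_one]
  unfold gg
  exact dif_pos hp

lemma cont (n : ℕ) : Continuous fun g : GG => pr g n := by
  unfold pr
  refine continuous_finsetProd _ fun p _ => ?_
  refine Continuous.pow ?_ _
  unfold gg
  by_cases hp : p.Prime
  · simp only [dif_pos hp]
    exact continuous_apply _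
  · simp only [dif_neg hp]
    exact continuous_const

/-- the function with the value `z` at `p` and `1` at the other primes -/
lemma pr_upd (z : Circle) (p : ℕ) (hp : p.Prime) (n : ℕ) :
    pr (fun q : Nat.Primes => if (q : ℕ) = p then z else 1) n = z ^ n.factorization p := by
  unfold pr
  have h1 : gg (fun q : Nat.Primes => if (q : ℕ) = p then z else 1) p = z := by
    unfold gg
    rw [dif_pos hp]
    exact if_pos rfl
  have h2 : ∀ q : ℕ, q ≠ p → gg (fun q : Nat.Primes => if (q : ℕ) = p then z else 1) q = 1 := by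
    intro q hq
    unfold gg
    split_ifs with h
    · exact if_neg hq
    · rfl
  refine (Finset.prod_eq_single p ?_ ?_).trans ?_
  · intro q _ hq
    change gg _ q ^ _ = 1
    rw [h2 q hq, one_pow]
  · intro hq
    change gg _ p ^ _ = 1
    rw [Finsupp.notMem_support_iff.1 hq, pow_zero]
  · change gg _ p ^ _ = _
    rw [h1]

lemma sep (i j : ℕ) (hij : i ≠ j) : ∃ z : Circle, z ^ i ≠ z ^ j := by
  refine ⟨Circle.exp (Real.pi / (i + j + 1)), fun h => hij ?_⟩
  rw [← Circle.exp_natCast_mul, ← Circle.exp_natCast_mul, Circle.exp_eq_exp] at h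
  obtain ⟨m, hm⟩ := h
  have hpi : Real.pi ≠ 0 := Real.pi_ne_zero
  have hc : ((i : ℝ) + j + 1) ≠ 0 := by positivity
  have h1 : (i : ℝ) - j = 2 * m * (i + j + 1) := by
    field_simp at hm
    linarith
  have h2 : (i : ℤ) - j = 2 * m * (i + j + 1) := by exact_mod_cast h1
  have hm0 : m = 0 := by
    by_contra hne
    rcases lt_or_gt_of_ne hne with h | h
    · have h3 : m ≤ -1 := by omega
      have h4 : 2 * m * ((i : ℤ) + j + 1) ≤ -(2 * ((i : ℤ) + j + 1)) := by nlinarith
      omega
    · have h3 : 1 ≤ m := by omega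
      have h4 : 2 * ((i : ℤ) + j + 1) ≤ 2 * m * ((i : ℤ) + j + 1) := by nlinarith
      omega
  rw [hm0] at h2
  simp only [mul_zero, zero_mul] at h2
  omega

end XEv

open XEv in
theorem Ev_pf : S_Ev := by
  refine ⟨fun g => ⟨?_, ?_, ?_, ?_⟩, ?_, ?_, ?_, ?_, ?_⟩
  · rw [ev_eq, if_pos rfl]
  · rw [ev_pos g one_ne_zero]
    unfold pr
    rw [Nat.factorization_one, Finsupp.prod_zero_index, Circle.coe_one]
  · intro m n
    rcases eq_or_ne m 0 with hm | hm
    · subst hm
      rw [zero_mul, ev_eq, if_pos rfl, zero_mul]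
    rcases eq_or_ne n 0 with hn | hn
    · subst hn
      rw [mul_zero, ev_eq g 0, if_pos rfl, mul_zero]
    rw [ev_pos g (mul_ne_zero hm hn), ev_pos g hm, ev_pos g hn, pr_mul g hm hn, Circle.coe_mul]
  · intro n hn
    rw [ev_pos g hn.ne', Circle.norm_coe]
  · intro n
    rcases eq_or_ne n 0 with hn | hn
    · subst hn
      simp only [ev_eq, if_true]
      exact continuous_const
    · simp only [ev_pos _ hn]
      exact continuous_subtype_val.comp (cont n)
  · intro n hn
    rw [ev_pos _ hn.ne', pr_one, Circle.coe_one]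
  · intro g hg
    obtain ⟨q, hq⟩ := Function.ne_iff.1 hg
    refine ⟨q, q.2, ?_⟩
    rw [ev_pos g q.2.ne_zero, pr_prime g q q.2]
    intro h
    exact hq (Circle.coe_eq_one.1 h)
  · intro g h n
    rcases eq_or_ne n 0 with hn | hn
    · subst hn
      rw [ev_eq, ev_eq, ev_eq, if_pos rfl, if_pos rfl, zero_mul]
    · rw [ev_pos _ hn, ev_pos _ hn, ev_pos _ hn, pr_hom, Circle.coe_mul]
  · intro a b ha hb hab
    obtain ⟨p, hp⟩ : ∃ p, a.factorization p ≠ b.factorization p := by
      by_contra hcon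
      push Not at hcon
      exact hab (Nat.eq_of_factorization_eq ha.ne' hb.ne' hcon)
    have hpp : p.Prime := by
      by_contra hnp
      exact hp (by rw [Nat.factorization_eq_zero_of_not_prime _ hnp,
        Nat.factorization_eq_zero_of_not_prime _ hnp])
    obtain ⟨z, hz⟩ := sep _ _ hp
    refine ⟨fun q : Nat.Primes => if (q : ℕ) = p then z else 1, fun h => hz ?_⟩
    rw [ev_pos _ ha.ne', ev_pos _ hb.ne', pr_upd z p hpp, pr_upd z p hpp,
      ← Circle.coe_inv_eq_conj, ← Circle.coe_mul, Circle.coe_eq_one, mul_inv_eq_one] at h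
    exact h

end Pool.Agent.Work.MP_0f91f8_co.EF
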