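import Pool.Agent.Work.MP_0f91f8_co.EF.FinF
import Pool.Agent.Work.MP_0f91f8_co.EF.PrP

/-!
# MP_0f91f8_co, module E: finite forms with pair counts and with counts of triples
-/

set_option autoImplicit false

open Filter Topology MeasureTheory

noncomputable section

namespace Pool.Agent.Work.MP_0f91f8_co.EF

open Pool.Agent.Work.MP_0f91f8_co.COL
open Pool.Agent.F0f91f8

/-- The number of `n` in `F` with `a n` and `b n` in `S`. -/
def cc (F S : Finset ℕ) (a b : ℕ) : ℕ := (F.filter fun n => a * n ∈ S ∧ b * n ∈ S).card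

/-- The finite form with pair counts. -/
def FolPairs : Prop := ∀ ε : ℝ, 0 < ε → ∃ (k : ℕ) (δ : ℝ), 0 < δ ∧ ∀ F : Finset ℕ, F.Nonempty →
  (∀ n ∈ F, 0 < n) →
  (∀ p ≤ k, p.Prime → (1 - δ) * (F.card : ℝ) ≤ ((F.filter fun n => p * n ∈ F).card : ℝ)) →
  ∀ (r : ℕ) (A : Fin r → Finset ℕ), (∀ i, A i ⊆ F) → (∀ i j, i ≠ j → Disjoint (A i) (A j)) →
  ∃ x y z : ℕ, 0 < x ∧ x ≤ k ∧ 0 < y ∧ y ≤ k ∧ 0 < z ∧ z ≤ k ∧ x ^ 2 + y ^ 2 = z ^ 2 ∧
    3 * ∑ i, ((A i).card : ℝ) ^ 2 - ε * (F.card : ℝ) ^ 2 ≤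
      (F.card : ℝ) * ∑ i, ((cc F (A i) x y : ℝ) + (cc F (A i) x z : ℝ) + (cc F (A i) y z : ℝ))

/-- The finite form with counts of monochromatic dilates. -/
def FolCnt : Prop := ∀ ε : ℝ, 0 < ε → ∃ (k : ℕ) (δ : ℝ), 0 < δ ∧ ∀ F : Finset ℕ, F.Nonempty →
  (∀ n ∈ F, 0 < n) →
  (∀ p ≤ k, p.Prime → (1 - δ) * (F.card : ℝ) ≤ ((F.filter fun n => p * n ∈ F).card : ℝ)) →
  ∀ (r : ℕ) (A : Fin r → Finset ℕ), (∀ i, A i ⊆ F) → (∀ i j, i ≠ j → Disjoint (A i) (A j)) →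
  ∃ x y z : ℕ, 0 < x ∧ x ≤ k ∧ 0 < y ∧ y ≤ k ∧ 0 < z ∧ z ≤ k ∧ x ^ 2 + y ^ 2 = z ^ 2 ∧
    3 / 2 * (∑ i, ((A i).card : ℝ) ^ 2 -
      (min (1 / 3) ((∑ i, ((A i).card : ℝ)) / (F.card : ℝ) / 2) + ε) * (F.card : ℝ) ^ 2) ≤
      (F.card : ℝ) *
        ((F.filter fun n => ∃ i, x * n ∈ A i ∧ y * n ∈ A i ∧ z * n ∈ A i).card : ℝ)

namespace XFinG

/-! ### The limit process, with all limits -/

open scoped Classical in
open XUlm in
theorem ulh (r : ℕ) (F : ℕ → Finset ℕ) (A : ℕ → Fin r → Finset ℕ) (hFo : IsFo F)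
    (hAF : ∀ j i, A j i ⊆ F j) :
    ∃ (U : Ultrafilter ℕ) (μ : Set (ℕ × ℕ) → ℝ) (d : Fin r → ℝ), (U : Filter ℕ) ≤ atTop ∧ IsFA μ ∧
    (∀ S, Tendsto (qq F S) U (𝓝 (μ S))) ∧
    (∀ i, Tendsto (fun j => ((A j i).card : ℝ) / ((F j).card : ℝ)) U (𝓝 (d i))) ∧
    (∀ i (n : ℕ), 0 < n → μ {p | n * p.2 ∈ A p.1 i} = d i) ∧
    ∀ i (k a b : ℕ), 0 < k → 0 < a → 0 < b →
      μ ({p | k * a * p.2 ∈ A p.1 i} ∩ {p | k * b * p.2 ∈ A p.1 i}) =
        μ ({p | a * p.2 ∈ A p.1 i} ∩ {p | b * p.2 ∈ A p.1 i}) := by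
  have hFne : ∀ j, 0 < (F j).card := fun j => Finset.card_pos.2 (hFo.ne j)
  have hFR : ∀ j, (0 : ℝ) < (F j).card := fun j => by exact_mod_cast hFne j
  obtain ⟨U, hU⟩ : ∃ U : Ultrafilter ℕ, (U : Filter ℕ) ≤ atTop :=
    ⟨Ultrafilter.of atTop, Ultrafilter.of_le atTop⟩
  choose μ hμ hμl using fun S : Set (ℕ × ℕ) => ulim U (qq F S) (qq_mem F S)
  have hdm : ∀ i j, ((A j i).card : ℝ) / ((F j).card : ℝ) ∈ Set.Icc (0 : ℝ) 1 := by
    intro i j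
    refine ⟨by positivity, div_le_one_of_le₀ ?_ (by positivity)⟩
    exact_mod_cast Finset.card_le_card (hAF j i)
  choose d hd hdl using fun i : Fin r => ulim U (fun j => ((A j i).card : ℝ) / ((F j).card : ℝ))
    (hdm i)
  have hdef : ∀ n : ℕ, 0 < n → Tendsto (fun j => 1 - (((F j).filter fun k => n * k ∈ F j).card : ℝ) /
      ((F j).card : ℝ)) U (𝓝 0) := by
    intro n hn
    have h1 := (hFo.lim n hn).mono_left hU
    have h2 := h1.const_sub 1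
    rw [sub_self] at h2
    exact h2
  refine ⟨U, μ, d, hU, ⟨fun S => (hμ S).1, ?_, ?_⟩, hμl, hdl, ?_, ?_⟩
  · refine tendsto_nhds_unique (hμl Set.univ) ?_
    have h1 : qq F Set.univ = fun _ => (1 : ℝ) := by
      funext j
      unfold qq
      simp only [Set.mem_univ, Finset.filter_true]
      exact div_self (hFR j).ne'
    rw [h1]
    exact tendsto_const_nhds
  · intro S T hST
    refine tendsto_nhds_unique (hμl (S ∪ T)) ?_
    have h1 : qq F (S ∪ T) = fun j => qq F S j + qq F T j := by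
      funext j
      unfold qq
      rw [← add_div]
      congr 1
      rw [← Nat.cast_add, ← Finset.card_union_of_disjoint]
      · congr 2
        ext s
        simp only [Finset.mem_filter, Finset.mem_union, Set.mem_union]
        tauto
      · rw [Finset.disjoint_left]
        intro s hs hs'
        exact Set.disjoint_left.1 hST (Finset.mem_filter.1 hs).2 (Finset.mem_filter.1 hs').2
    rw [h1]
    exact (hμl S).add (hμl T)
  · intro i n hn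
    refine uniq U _ _ _ _ _ (hμl _) (hdl i) (hdef n hn) fun j => ?_
    have h1 := shift (F j) (A j i) (hAF j i) n hn
    rw [qq_eq F {p : ℕ × ℕ | n * p.2 ∈ A p.1 i} j ((F j).filter fun s => n * s ∈ A j i)
      (fun s => Finset.mem_filter)]
    have h3 : ((F j).filter fun s => n * s ∈ F j).card ≤ (F j).card := Finset.card_filter_le _ _
    exact absd _ _ _ _ (hFne j) (by omega) (by omega)
  · intro i k a b hk ha hb
    refine uniq U _ _ _ _ _ (hμl _) (hμl _) (hdef k hk) fun j => ?_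
    have h1 := pair (F j) (A j i) a b k hk
    rw [qq_eq F ({p : ℕ × ℕ | k * a * p.2 ∈ A p.1 i} ∩ {p : ℕ × ℕ | k * b * p.2 ∈ A p.1 i}) j
      ((F j).filter fun s => k * a * s ∈ A j i ∧ k * b * s ∈ A j i) (fun s => Finset.mem_filter),
      qq_eq F ({p : ℕ × ℕ | a * p.2 ∈ A p.1 i} ∩ {p : ℕ × ℕ | b * p.2 ∈ A p.1 i}) j
      ((F j).filter fun s => a * s ∈ A j i ∧ b * s ∈ A j i) (fun s => Finset.mem_filter)]
    exact absd _ _ _ _ (hFne j) h1.1 h1.2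

/-! ### Boundedly many classes -/

open XBig in
lemma red2 {ε : ℝ} (hε : 0 < ε) {F : Finset ℕ} (hne : F.Nonempty) {r : ℕ} (A : Fin r → Finset ℕ)
    (hA : ∀ i, A i ⊆ F) (hd : ∀ i j, i ≠ j → Disjoint (A i) (A j)) :
    ∃ B : Fin ⌈2 / ε⌉₊ → Finset ℕ, (∀ i, B i ⊆ F) ∧ (∀ i j, i ≠ j → Disjoint (B i) (B j)) ∧
      ∑ i, ((A i).card : ℝ) ^ 2 ≤ ∑ i, ((B i).card : ℝ) ^ 2 + ε / 2 * (F.card : ℝ) ^ 2 ∧
      ∀ g : Finset ℕ → ℝ, (∀ S, 0 ≤ g S) → g ∅ = 0 → ∑ i, g (B i) ≤ ∑ i, g (A i) := by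
  have hFpos : (0 : ℝ) < (F.card : ℝ) := by exact_mod_cast Finset.card_pos.2 hne
  have htot : ∑ i, ((A i).card : ℝ) ≤ (F.card : ℝ) := by
    have h1 : (Finset.univ.biUnion A).card = ∑ i, (A i).card :=
      Finset.card_biUnion fun i _ j _ hij => hd i j hij
    have h2 : (Finset.univ.biUnion A).card ≤ F.card :=
      Finset.card_le_card (Finset.biUnion_subset.2 fun i _ => hA i)
    rw [h1] at h2
    exact_mod_cast h2
  let I : Finset (Fin r) := Finset.univ.filter fun i => ε / 2 * (F.card : ℝ) ≤ ((A i).card : ℝ)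
  have hIc : I.card ≤ ⌈2 / ε⌉₊ := by
    have h1 : (I.card : ℝ) * (ε / 2 * (F.card : ℝ)) ≤ ∑ i ∈ I, ((A i).card : ℝ) := by
      rw [← nsmul_eq_mul]
      exact Finset.card_nsmul_le_sum _ _ _ fun i hi => (Finset.mem_filter.1 hi).2
    have h2 : ∑ i ∈ I, ((A i).card : ℝ) ≤ ∑ i, ((A i).card : ℝ) :=
      Finset.sum_le_sum_of_subset_of_nonneg (Finset.subset_univ _) fun i _ _ => Nat.cast_nonneg _
    have h3 : (I.card : ℝ) * (ε / 2) ≤ 1 := by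
      have h4 : (I.card : ℝ) * (ε / 2) * (F.card : ℝ) ≤ 1 * (F.card : ℝ) := by
        calc (I.card : ℝ) * (ε / 2) * (F.card : ℝ) = (I.card : ℝ) * (ε / 2 * (F.card : ℝ)) := by ring
          _ ≤ (F.card : ℝ) := le_trans h1 (le_trans h2 htot)
          _ = 1 * (F.card : ℝ) := by ring
      exact le_of_mul_le_mul_right h4 hFpos
    have h5 : (I.card : ℝ) ≤ 2 / ε := by
      rw [le_div_iff₀ hε]
      linarith
    exact_mod_cast le_trans h5 (Nat.le_ceil _)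
  have hsq : ∑ i, ((A i).card : ℝ) ^ 2 ≤
      ∑ i ∈ I, ((A i).card : ℝ) ^ 2 + ε / 2 * (F.card : ℝ) ^ 2 := by
    have h0 := Finset.sum_filter_add_sum_filter_not (Finset.univ : Finset (Fin r))
      (fun i => ε / 2 * (F.card : ℝ) ≤ ((A i).card : ℝ)) fun i => ((A i).card : ℝ) ^ 2
    have h1 : ∑ i ∈ Finset.univ.filter (fun i => ¬ ε / 2 * (F.card : ℝ) ≤ ((A i).card : ℝ)),
        ((A i).card : ℝ) ^ 2 ≤
        ∑ i ∈ Finset.univ.filter (fun i => ¬ ε / 2 * (F.card : ℝ) ≤ ((A i).card : ℝ)),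
        ε / 2 * (F.card : ℝ) * ((A i).card : ℝ) := by
      refine Finset.sum_le_sum fun i hi => ?_
      have h2 := not_le.1 (Finset.mem_filter.1 hi).2
      rw [sq]
      exact mul_le_mul_of_nonneg_right h2.le (Nat.cast_nonneg _)
    have h3 : ∑ i ∈ Finset.univ.filter (fun i => ¬ ε / 2 * (F.card : ℝ) ≤ ((A i).card : ℝ)),
        ε / 2 * (F.card : ℝ) * ((A i).card : ℝ) ≤ ∑ i, ε / 2 * (F.card : ℝ) * ((A i).card : ℝ) :=
      Finset.sum_le_sum_of_subset_of_nonneg (Finset.subset_univ _) fun i _ _ => by positivity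
    have h6 : ∑ i, ε / 2 * (F.card : ℝ) * ((A i).card : ℝ) =
        ε / 2 * (F.card : ℝ) * ∑ i, ((A i).card : ℝ) := (Finset.mul_sum _ _ _).symm
    have h4 : ε / 2 * (F.card : ℝ) * ∑ i, ((A i).card : ℝ) ≤
        ε / 2 * (F.card : ℝ) * (F.card : ℝ) :=
      mul_le_mul_of_nonneg_left htot (by positivity)
    have h5 : ε / 2 * (F.card : ℝ) * (F.card : ℝ) = ε / 2 * (F.card : ℝ) ^ 2 := by ring
    change ∑ i, ((A i).card : ℝ) ^ 2 ≤ ∑ i ∈ Finset.univ.filter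
      (fun i => ε / 2 * (F.card : ℝ) ≤ ((A i).card : ℝ)), ((A i).card : ℝ) ^ 2 + _
    linarith
  have hs2 := lst_sum I A ⌈2 / ε⌉₊ hIc (fun S => (S.card : ℝ) ^ 2) (by simp)
  refine ⟨lst I A ⌈2 / ε⌉₊, ?_, ?_, ?_, ?_⟩
  · intro j
    rcases lst_cases I A _ j with h | ⟨h, e⟩
    · rw [h]; exact Finset.empty_subset _
    · rw [e]; exact hA _
  · intro i j hij
    rcases lst_cases I A _ i with h | ⟨h, e⟩
    · rw [h]; exact Finset.disjoint_empty_left _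
    rcases lst_cases I A _ j with h' | ⟨h', e'⟩
    · rw [h']; exact Finset.disjoint_empty_right _
    rw [e, e']
    refine hd _ _ fun hh => hij ?_
    have h1 := I.equivFin.symm.injective (Subtype.ext hh)
    exact Fin.ext (Fin.mk.inj_iff.1 h1)
  · rw [hs2]
    exact hsq
  · intro g hg g0
    rw [lst_sum I A ⌈2 / ε⌉₊ hIc g g0]
    exact Finset.sum_le_sum_of_subset_of_nonneg (Finset.subset_univ _) fun i _ _ => hg _

end XFinG

open XFinG in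
/-- The finite form with pair counts, from the general inequality. -/
theorem folPairs (hG : GenF) : FolPairs := by
  intro ε hε
  by_contra hcon
  have hcon' : ∀ j : ℕ, ∃ F : Finset ℕ, F.Nonempty ∧ (∀ n ∈ F, 0 < n) ∧
      (∀ p ≤ j, p.Prime → (1 - 1 / ((j : ℝ) + 1)) * (F.card : ℝ) ≤
        ((F.filter fun n => p * n ∈ F).card : ℝ)) ∧
      ∃ B : Fin ⌈2 / (ε / 3)⌉₊ → Finset ℕ, (∀ i, B i ⊆ F) ∧
      (∀ i j, i ≠ j → Disjoint (B i) (B j)) ∧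
      ∀ x y z : ℕ, 0 < x → x ≤ j → 0 < y → y ≤ j → 0 < z → z ≤ j → x ^ 2 + y ^ 2 = z ^ 2 →
        (F.card : ℝ) * ∑ i, ((cc F (B i) x y : ℝ) + (cc F (B i) x z : ℝ) + (cc F (B i) y z : ℝ)) ≤
          3 * ∑ i, ((B i).card : ℝ) ^ 2 - ε / 2 * (F.card : ℝ) ^ 2 := by
    intro j
    by_contra hno
    apply hcon
    refine ⟨j, 1 / ((j : ℝ) + 1), by positivity, fun F a1 a2 a3 r A a4 a5 => ?_⟩
    by_contra a7
    obtain ⟨B, b1, b2, b3, b4⟩ := red2 (show 0 < ε / 3 by positivity) a1 A a4 a5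
    refine hno ⟨F, a1, a2, a3, B, b1, b2, fun x y z c1 c2 c3 c4 c5 c6 c7 => ?_⟩
    by_contra c8
    refine a7 ⟨x, y, z, c1, c2, c3, c4, c5, c6, c7, ?_⟩
    have h1 := b4 (fun S => ((cc F S x y : ℝ) + (cc F S x z : ℝ) + (cc F S y z : ℝ)))
      (fun S => by positivity) (by simp [cc])
    have h2 : (F.card : ℝ) *
        ∑ i, ((cc F (B i) x y : ℝ) + (cc F (B i) x z : ℝ) + (cc F (B i) y z : ℝ)) ≤
        (F.card : ℝ) *
        ∑ i, ((cc F (A i) x y : ℝ) + (cc F (A i) x z : ℝ) + (cc F (A i) y z : ℝ)) :=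
      mul_le_mul_of_nonneg_left h1 (Nat.cast_nonneg _)
    have h3 := not_le.1 c8
    nlinarith
  choose F hne hpos hinv0 A hA hD hno using hcon'
  have hFo := XFinF.isFo_of hne hpos fun j p hp1 hp2 => hinv0 j p hp1 hp2
  obtain ⟨U, μ, d, hU, hFA, hlim, hd, hE, hinv⟩ := ulh ⌈2 / (ε / 3)⌉₊ F A hFo hA
  have hφ : ∀ i, IsPF (fun a b => μ ({p : ℕ × ℕ | a * p.2 ∈ A p.1 i} ∩ {p | b * p.2 ∈ A p.1 i}))
      (d i) := fun i =>
    PrP_pf (ℕ × ℕ) μ hFA (fun n => {p : ℕ × ℕ | n * p.2 ∈ A p.1 i}) (d i) (hE i) (hinv i)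
  obtain ⟨x, y, z, hx, hy, hz, hxyz, hle⟩ := hG _ _ d hφ (ε / 4) (by positivity)
  have hF : ∀ j, (0 : ℝ) < ((F j).card : ℝ) := fun j => by
    exact_mod_cast (hne j).card_pos
  have hq : ∀ (i : Fin ⌈2 / (ε / 3)⌉₊) (a b : ℕ),
      Tendsto (fun j => (cc (F j) (A j i) a b : ℝ) / ((F j).card : ℝ)) U
        (𝓝 (μ ({p : ℕ × ℕ | a * p.2 ∈ A p.1 i} ∩ {p | b * p.2 ∈ A p.1 i}))) := by
    intro i a b
    refine (hlim _).congr fun j => ?_
    rw [XUlm.qq_eq F ({p : ℕ × ℕ | a * p.2 ∈ A p.1 i} ∩ {p : ℕ × ℕ | b * p.2 ∈ A p.1 i}) j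
      ((F j).filter fun s => a * s ∈ A j i ∧ b * s ∈ A j i) (fun s => Finset.mem_filter)]
    rfl
  have hs2 : Tendsto (fun j => ∑ i, (((A j i).card : ℝ) / ((F j).card : ℝ)) ^ 2) U
      (𝓝 (∑ i, d i ^ 2)) := tendsto_finsetSum _ fun i _ => (hd i).pow 2
  have hs3 : Tendsto (fun j => ∑ i, ((cc (F j) (A j i) x y : ℝ) / ((F j).card : ℝ) +
      (cc (F j) (A j i) x z : ℝ) / ((F j).card : ℝ) +
      (cc (F j) (A j i) y z : ℝ) / ((F j).card : ℝ))) U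
      (𝓝 (∑ i, (μ ({p : ℕ × ℕ | x * p.2 ∈ A p.1 i} ∩ {p | y * p.2 ∈ A p.1 i}) +
        μ ({p : ℕ × ℕ | x * p.2 ∈ A p.1 i} ∩ {p | z * p.2 ∈ A p.1 i}) +
        μ ({p : ℕ × ℕ | y * p.2 ∈ A p.1 i} ∩ {p | z * p.2 ∈ A p.1 i})))) :=
    tendsto_finsetSum _ fun i _ => ((hq i x y).add (hq i x z)).add (hq i y z)
  have e1 : ∀ᶠ j in (U : Filter ℕ), 3 * ∑ i, (((A j i).card : ℝ) / ((F j).card : ℝ)) ^ 2 -
      ∑ i, ((cc (F j) (A j i) x y : ℝ) / ((F j).card : ℝ) +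
      (cc (F j) (A j i) x z : ℝ) / ((F j).card : ℝ) +
      (cc (F j) (A j i) y z : ℝ) / ((F j).card : ℝ)) < ε / 2 :=
    ((hs2.const_mul 3).sub hs3).eventually_lt_const (by linarith)
  have e2 : ∀ᶠ j in (U : Filter ℕ), max x (max y z) ≤ j := hU (eventually_ge_atTop _)
  obtain ⟨j, c1, c2⟩ := (e1.and e2).exists
  have h := hno j x y z hx (by omega) hy (by omega) hz (by omega) hxyz
  have hFF : 0 < ((F j).card : ℝ) ^ 2 := by
    have := hF j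
    positivity
  have q2 : ∑ i, ((A j i).card : ℝ) ^ 2 =
      (∑ i, (((A j i).card : ℝ) / ((F j).card : ℝ)) ^ 2) * ((F j).card : ℝ) ^ 2 := by
    rw [Finset.sum_mul]
    refine Finset.sum_congr rfl fun i _ => ?_
    have := (hF j).ne'
    field_simp
  have q3 : (((F j).card : ℝ) * ∑ i, ((cc (F j) (A j i) x y : ℝ) + (cc (F j) (A j i) x z : ℝ) +
      (cc (F j) (A j i) y z : ℝ))) = (∑ i, ((cc (F j) (A j i) x y : ℝ) / ((F j).card : ℝ) +
      (cc (F j) (A j i) x z : ℝ) / ((F j).card : ℝ) +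
      (cc (F j) (A j i) y z : ℝ) / ((F j).card : ℝ))) * ((F j).card : ℝ) ^ 2 := by
    rw [Finset.sum_mul, Finset.mul_sum]
    refine Finset.sum_congr rfl fun i _ => ?_
    have := (hF j).ne'
    field_simp
  rw [q2, q3] at h
  have h5 : 3 * ∑ i, (((A j i).card : ℝ) / ((F j).card : ℝ)) ^ 2 -
      ∑ i, ((cc (F j) (A j i) x y : ℝ) / ((F j).card : ℝ) +
      (cc (F j) (A j i) x z : ℝ) / ((F j).card : ℝ) +
      (cc (F j) (A j i) y z : ℝ) / ((F j).card : ℝ)) < ε / 2 := c1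
  have h6 := mul_lt_mul_of_pos_right h5 hFF
  linarith

namespace XFinG

open scoped Classical

/-- indicator -/
def ind (P : Prop) : ℝ := if P then 1 else 0

lemma ind_nonneg (P : Prop) : 0 ≤ ind P := by unfold ind; split_ifs <;> norm_num

lemma ind_pos {P : Prop} (h : P) : ind P = 1 := by unfold ind; rw [if_pos h]

lemma ind_neg {P : Prop} (h : ¬ P) : ind P = 0 := by unfold ind; rw [if_neg h]

lemma ind_le (P : Prop) : ind P ≤ 1 := by unfold ind; split_ifs <;> norm_num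

lemma sum_ind {r : ℕ} (P : Fin r → Prop) (h : ∀ i j, P i → P j → i = j) :
    ∑ i, ind (P i) = ind (∃ i, P i) := by
  by_cases hP : ∃ i, P i
  · obtain ⟨i, hi⟩ := hP
    rw [ind_pos ⟨i, hi⟩, Finset.sum_eq_single i (fun j _ hj => ind_neg fun h' => hj (h j i h' hi))
      (fun h' => absurd (Finset.mem_univ i) h'), ind_pos hi]
  · rw [ind_neg hP]
    exact Finset.sum_eq_zero fun i _ => ind_neg fun h' => hP ⟨i, h'⟩

lemma pt1 {XY XZ YZ T : Prop} (h1 : XY → XZ → T) (h2 : XY → YZ → T) (h3 : XZ → YZ → T) :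
    ind XY + ind XZ + ind YZ ≤ 1 + 2 * ind T := by
  have a1 := ind_le XY
  have a2 := ind_le XZ
  have a3 := ind_le YZ
  have a4 := ind_nonneg T
  by_cases hT : T
  · rw [ind_pos hT]; linarith
  · by_cases b1 : XY
    · rw [ind_neg (fun h => hT (h1 b1 h)), ind_neg (fun h => hT (h2 b1 h))]
      linarith
    · rw [ind_neg b1]
      by_cases b2 : XZ
      · rw [ind_neg (fun h => hT (h3 b2 h))]
        linarith
      · rw [ind_neg b2]
        linarith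

lemma pt2 {X Y Z XY XZ YZ T : Prop} (h1 : XY → XZ → T) (h2 : XY → YZ → T) (h3 : XZ → YZ → T)
    (k1 : XY → X ∧ Y) (k2 : XZ → X ∧ Z) (k3 : YZ → Y ∧ Z) (k4 : T → X ∧ Y ∧ Z) :
    2 * (ind XY + ind XZ + ind YZ) ≤ ind X + ind Y + ind Z + 3 * ind T := by
  have a1 := ind_le XY
  have a2 := ind_le XZ
  have a3 := ind_le YZ
  have a4 := ind_nonneg T
  have a5 := ind_nonneg X
  have a6 := ind_nonneg Y
  have a7 := ind_nonneg Z
  by_cases hT : T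
  · rw [ind_pos hT, ind_pos (k4 hT).1, ind_pos (k4 hT).2.1, ind_pos (k4 hT).2.2]; linarith
  · by_cases b1 : XY
    · rw [ind_neg (fun h => hT (h1 b1 h)), ind_neg (fun h => hT (h2 b1 h)), ind_pos (k1 b1).1,
        ind_pos (k1 b1).2]
      linarith
    · rw [ind_neg b1]
      by_cases b2 : XZ
      · rw [ind_neg (fun h => hT (h3 b2 h)), ind_pos (k2 b2).1, ind_pos (k2 b2).2]
        linarith
      · rw [ind_neg b2]
        by_cases b3 : YZ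
        · rw [ind_pos (k3 b3).1, ind_pos (k3 b3).2]
          linarith
        · rw [ind_neg b3]
          linarith

lemma card_ind (F : Finset ℕ) (P : ℕ → Prop) [DecidablePred P] :
    ((F.filter P).card : ℝ) = ∑ n ∈ F, ind (P n) := by
  rw [Finset.card_filter]
  push_cast
  refine Finset.sum_congr rfl fun n _ => ?_
  unfold ind
  split_ifs <;> rfl

lemma fin1 {Q S c m P e : ℝ} (hc : 0 < c) (hm : 0 ≤ m) (hle : 3 * Q - 3 * e * c ^ 2 ≤ c * P)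
    (b1 : P ≤ c + 2 * m) (b2 : 2 * P ≤ 3 * S + 3 * m) :
    3 / 2 * (Q - (min (1 / 3) (S / c / 2) + e) * c ^ 2) ≤ c * m := by
  have hcm : 0 ≤ c * m := mul_nonneg hc.le hm
  rcases min_choice (1 / 3 : ℝ) (S / c / 2) with h6 | h6
  · rw [h6]
    have h7 := mul_le_mul_of_nonneg_left b1 hc.le
    nlinarith
  · rw [h6]
    have h7 := mul_le_mul_of_nonneg_left b2 hc.le
    have h9 : (S / c / 2 + e) * c ^ 2 = S * c / 2 + e * c ^ 2 := by
      field_simp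
    rw [h9]
    by_cases h10 : 0 ≤ Q - (S * c / 2 + e * c ^ 2)
    · nlinarith
    · push Not at h10
      linarith

end XFinG

open scoped Classical in
open XFinG in
theorem folCnt (hP : FolPairs) : FolCnt := by
  intro ε hε
  obtain ⟨k, δ, hδ, hk⟩ := hP (3 * ε) (by positivity)
  refine ⟨k, δ, hδ, fun F a1 a2 a3 r A hA hd => ?_⟩
  obtain ⟨x, y, z, c1, c2, c3, c4, c5, c6, c7, hle⟩ := hk F a1 a2 a3 r A hA hd
  refine ⟨x, y, z, c1, c2, c3, c4, c5, c6, c7, ?_⟩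
  have hFpos : (0 : ℝ) < (F.card : ℝ) := by exact_mod_cast Finset.card_pos.2 a1
  have uq : ∀ (m : ℕ) (i j : Fin r), m ∈ A i → m ∈ A j → i = j := by
    intro m i j h1 h2
    by_contra h
    exact (Finset.disjoint_left.1 (hd i j h)) h1 h2
  set m : ℝ := ((F.filter fun n => ∃ i, x * n ∈ A i ∧ y * n ∈ A i ∧ z * n ∈ A i).card : ℝ) with hm
  have hm0 : 0 ≤ m := Nat.cast_nonneg _
  have hm1 : m = ∑ n ∈ F, ind (∃ i, x * n ∈ A i ∧ y * n ∈ A i ∧ z * n ∈ A i) := by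
    rw [hm]
    exact card_ind F _
  set P : ℝ := ∑ i, ((cc F (A i) x y : ℝ) + (cc F (A i) x z : ℝ) + (cc F (A i) y z : ℝ)) with hPd
  have hcc : ∀ a b : ℕ, ∑ i, (cc F (A i) a b : ℝ) =
      ∑ n ∈ F, ind (∃ i, a * n ∈ A i ∧ b * n ∈ A i) := by
    intro a b
    have h1 : ∀ i, (cc F (A i) a b : ℝ) = ∑ n ∈ F, ind (a * n ∈ A i ∧ b * n ∈ A i) := fun i => by
      unfold cc
      exact card_ind F _
    rw [Finset.sum_congr rfl fun i _ => h1 i, Finset.sum_comm]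
    refine Finset.sum_congr rfl fun n _ => ?_
    exact sum_ind _ fun i j h2 h3 => uq _ i j h2.1 h3.1
  have hP1 : P = ∑ n ∈ F, (ind (∃ i, x * n ∈ A i ∧ y * n ∈ A i) +
      ind (∃ i, x * n ∈ A i ∧ z * n ∈ A i) + ind (∃ i, y * n ∈ A i ∧ z * n ∈ A i)) := by
    rw [hPd, Finset.sum_add_distrib, Finset.sum_add_distrib, hcc, hcc, hcc,
      Finset.sum_add_distrib, Finset.sum_add_distrib]
  have t1 : ∀ n : ℕ, (∃ i, x * n ∈ A i ∧ y * n ∈ A i) → (∃ i, x * n ∈ A i ∧ z * n ∈ A i) →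
      ∃ i, x * n ∈ A i ∧ y * n ∈ A i ∧ z * n ∈ A i := by
    rintro n ⟨i, h1, h2⟩ ⟨j, h3, h4⟩
    have h5 := uq _ i j h1 h3
    rw [← h5] at h4
    exact ⟨i, h1, h2, h4⟩
  have t2 : ∀ n : ℕ, (∃ i, x * n ∈ A i ∧ y * n ∈ A i) → (∃ i, y * n ∈ A i ∧ z * n ∈ A i) →
      ∃ i, x * n ∈ A i ∧ y * n ∈ A i ∧ z * n ∈ A i := by
    rintro n ⟨i, h1, h2⟩ ⟨j, h3, h4⟩
    have h5 := uq _ i j h2 h3
    rw [← h5] at h4
    exact ⟨i, h1, h2, h4⟩
  have t3 : ∀ n : ℕ, (∃ i, x * n ∈ A i ∧ z * n ∈ A i) → (∃ i, y * n ∈ A i ∧ z * n ∈ A i) →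
      ∃ i, x * n ∈ A i ∧ y * n ∈ A i ∧ z * n ∈ A i := by
    rintro n ⟨i, h1, h2⟩ ⟨j, h3, h4⟩
    have h5 := uq _ i j h2 h4
    rw [← h5] at h3
    exact ⟨i, h1, h3, h2⟩
  have b1 : P ≤ (F.card : ℝ) + 2 * m := by
    rw [hP1, hm1]
    calc _ ≤ ∑ n ∈ F, (1 + 2 * ind (∃ i, x * n ∈ A i ∧ y * n ∈ A i ∧ z * n ∈ A i)) :=
          Finset.sum_le_sum fun n _ => pt1 (t1 n) (t2 n) (t3 n)
      _ = _ := by
          rw [Finset.sum_add_distrib, ← Finset.mul_sum, Finset.sum_const, nsmul_eq_mul, mul_one]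
  have hone : ∀ a : ℕ, 0 < a → ∑ n ∈ F, ind (∃ i, a * n ∈ A i) ≤ ∑ i, ((A i).card : ℝ) := by
    intro a ha
    have h1 : ∀ n ∈ F, ind (∃ i, a * n ∈ A i) = ∑ i, ind (a * n ∈ A i) := fun n _ =>
      (sum_ind _ fun i j h2 h3 => uq _ i j h2 h3).symm
    rw [Finset.sum_congr rfl h1, Finset.sum_comm]
    refine Finset.sum_le_sum fun i _ => ?_
    rw [← card_ind F fun n => a * n ∈ A i]
    exact_mod_cast (XUlm.shift F (A i) (hA i) a ha).1
  have b2 : 2 * P ≤ 3 * ∑ i, ((A i).card : ℝ) + 3 * m := by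
    have h1 : 2 * P ≤ ∑ n ∈ F, (ind (∃ i, x * n ∈ A i) + ind (∃ i, y * n ∈ A i) +
        ind (∃ i, z * n ∈ A i) +
        3 * ind (∃ i, x * n ∈ A i ∧ y * n ∈ A i ∧ z * n ∈ A i)) := by
      rw [hP1, Finset.mul_sum]
      refine Finset.sum_le_sum fun n _ => pt2 (t1 n) (t2 n) (t3 n) ?_ ?_ ?_ ?_
      · rintro ⟨i, h1, h2⟩; exact ⟨⟨i, h1⟩, ⟨i, h2⟩⟩
      · rintro ⟨i, h1, h2⟩; exact ⟨⟨i, h1⟩, ⟨i, h2⟩⟩
      · rintro ⟨i, h1, h2⟩; exact ⟨⟨i, h1⟩, ⟨i, h2⟩⟩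
      · rintro ⟨i, h1, h2, h3⟩; exact ⟨⟨i, h1⟩, ⟨i, h2⟩, ⟨i, h3⟩⟩
    rw [Finset.sum_add_distrib, Finset.sum_add_distrib, Finset.sum_add_distrib, ← Finset.mul_sum,
      ← hm1] at h1
    have h2 := hone x c1
    have h3 := hone y c3
    have h4 := hone z c5
    linarith
  have hle1 : 3 * ∑ i, ((A i).card : ℝ) ^ 2 - 3 * ε * (F.card : ℝ) ^ 2 ≤ (F.card : ℝ) * P := hle
  exact fin1 hFpos hm0 hle1 b1 b2

end Pool.Agent.Work.MP_0f91f8_co.EF
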