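import Pool.Agent.Work.MP_0f91f8_co.HD.B_All
import Pool.Agent.Work.MP_0f91f8_co.HD.C_All
import Pool.Agent.Work.MP_0f91f8_co.HD.AllD
import Pool.Agent.Work.MP_0f91f8_co.HD.PWA
import Pool.Agent.Work.MP_0f91f8_co.EF.All
import Pool.Agent.Work.MP_0f91f8_co.EF.FinF
import Pool.Agent.Work.MP_0f91f8_co.EF.FinG

/-!
# MP_0f91f8_co: the half density theorem and the collision theorem, composition

Module A (helper40), module B (helper75, helper68), module C (helper48, helper45), module D
(helper7, helper83), module E (helper79); the items by the whole team.
-/

set_option autoImplicit false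

namespace Pool.Agent.Work.MP_0f91f8_co.EF

open Pool.Agent.F0f91f8

/-- The pointwise lower bound for the pair correlations, for all completely multiplicative
functions. -/
theorem all_PW : HD.PWStmt := HD.pr_PWS HD.aper HD.pretStmt HD.pr_PWPret

/-- The process form. -/
theorem all_Proc : HD.ProcStmt := ef_Proc all_PW

/-- The box form. -/
theorem all_Fin : HD.FinStmt := ef_Fin all_PW

/-- The form for all almost invariant finite sets. -/
theorem all_FolFin : FolFin := folFin all_Proc

/-- The form with pair counts. -/
theorem all_FolPairs : FolPairs := folPairs (ef_Gen all_PW)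

/-- The form with counts of monochromatic dilates of one triple. -/
theorem all_FolCnt : FolCnt := folCnt all_FolPairs

end Pool.Agent.Work.MP_0f91f8_co.EF
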